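import Mathlib
import Pool.Agent.Lib.MP_fdcb14_pr.W.Interfaces

/-!
# MP_fdcb14_pr: the choice of the parameters (ASYM)
-/

namespace Pool.Agent.Lib.MP_fdcb14_pr.H97

open Pool.Agent.Lib.MP_fdcb14_pr Filter Topology

/-- The superexponential decay that beats everything. -/
theorem decay (m : ℕ) (κ B E : ℝ) (hκ : 0 < κ) :
    ∃ N0 : ℕ, ∀ N : ℕ, N0 ≤ N →
      B * (N : ℝ) ^ m * Real.exp (E * Real.sqrt (N + 1)) * Real.exp (-(κ * N)) ≤ 1 := by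
  have h1 : Tendsto (fun x : ℝ => x ^ m * Real.exp (-x)) atTop (𝓝 0) :=
    Real.tendsto_pow_mul_exp_neg_atTop_nhds_zero m
  have h2 : Tendsto (fun N : ℕ => κ / 2 * (N : ℝ)) atTop atTop :=
    tendsto_natCast_atTop_atTop.const_mul_atTop (by positivity)
  have h3 : Tendsto (fun N : ℕ => (|B| * (2 / κ) ^ m) *
      ((κ / 2 * (N : ℝ)) ^ m * Real.exp (-(κ / 2 * (N : ℝ))))) atTop (𝓝 ((|B| * (2 / κ) ^ m) * 0)) :=
    (h1.comp h2).const_mul _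
  rw [mul_zero] at h3
  have h4 := h3.eventually (gt_mem_nhds (show (0 : ℝ) < 1 by norm_num))
  have h5 : ∀ᶠ N : ℕ in atTop, E * Real.sqrt (N + 1) ≤ κ / 2 * N := by
    have h6 : Tendsto (fun N : ℕ => (N : ℝ)) atTop atTop := tendsto_natCast_atTop_atTop
    filter_upwards [h6.eventually_ge_atTop (max 1 (8 * E ^ 2 / κ ^ 2))] with N hN
    have hN1 : (1 : ℝ) ≤ N := le_trans (le_max_left _ _) hN
    have hN2 : 8 * E ^ 2 / κ ^ 2 ≤ N := le_trans (le_max_right _ _) hN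
    have h7 : E * Real.sqrt (N + 1) ≤ |E| * Real.sqrt (N + 1) :=
      mul_le_mul_of_nonneg_right (le_abs_self E) (Real.sqrt_nonneg _)
    refine le_trans h7 ?_
    apply le_of_sq_le_sq _ (by positivity)
    rw [mul_pow, Real.sq_sqrt (by positivity), sq_abs, mul_pow]
    rw [div_le_iff₀ (by positivity)] at hN2
    nlinarith [sq_nonneg E, sq_nonneg κ]
  obtain ⟨N0, hN0⟩ := eventually_atTop.1 (h4.and h5)
  refine ⟨N0, fun N hN => ?_⟩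
  obtain ⟨h6, h7⟩ := hN0 N hN
  have e1 : (N : ℝ) ^ m = (2 / κ) ^ m * (κ / 2 * (N : ℝ)) ^ m := by
    rw [← mul_pow]
    congr 1
    field_simp
  have e2 : Real.exp (E * Real.sqrt (N + 1)) * Real.exp (-(κ * N)) ≤
      Real.exp (-(κ / 2 * (N : ℝ))) := by
    rw [← Real.exp_add]
    apply Real.exp_le_exp.2
    linarith
  calc B * (N : ℝ) ^ m * Real.exp (E * Real.sqrt (N + 1)) * Real.exp (-(κ * N))
      = (B * (N : ℝ) ^ m) * (Real.exp (E * Real.sqrt (N + 1)) * Real.exp (-(κ * N))) := by ring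
    _ ≤ (|B| * (N : ℝ) ^ m) * Real.exp (-(κ / 2 * (N : ℝ))) := by
        apply mul_le_mul _ e2 (by positivity) (by positivity)
        exact mul_le_mul_of_nonneg_right (le_abs_self B) (by positivity)
    _ = (|B| * (2 / κ) ^ m) * ((κ / 2 * (N : ℝ)) ^ m * Real.exp (-(κ / 2 * (N : ℝ)))) := by
        rw [e1]; ring
    _ ≤ 1 := h6.le

theorem small0 (A N0 : ℕ) (hA : 1 ≤ A) (hN0 : 4 ≤ N0) :
    ((N0 : ℝ) + 1) ^ (-(A : ℝ)) ≤ 1 / 2 := by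
  have h0 : (4 : ℝ) ≤ N0 := by exact_mod_cast hN0
  have h00 : (1 : ℝ) ≤ A := by exact_mod_cast hA
  have h1 : ((N0 : ℝ) + 1) ^ (-(A : ℝ)) ≤ (2 : ℝ) ^ (-(A : ℝ)) :=
    Real.rpow_le_rpow_of_nonpos (by norm_num) (by linarith) (by linarith)
  have h2 : (2 : ℝ) ^ (-(A : ℝ)) ≤ (2 : ℝ) ^ (-1 : ℝ) :=
    Real.rpow_le_rpow_of_exponent_le (by norm_num) (by linarith)
  have h3 : (2 : ℝ) ^ (-1 : ℝ) = 1 / 2 := by
    rw [Real.rpow_neg_one]; norm_num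
  exact le_trans h1 (le_trans h2 h3.le)

/-- The choice of `N`. -/
theorem chooseN (A N0 : ℕ) (hA : 1 ≤ A) (ε : ℝ) (hε : 0 < ε)
    (hε0 : ε < ((N0 : ℝ) + 1) ^ (-(A : ℝ))) :
    ∃ N : ℕ, N0 ≤ N ∧ (N : ℝ) ^ A * ε ≤ 1 ∧ 1 ≤ ((N : ℝ) + 1) ^ A * ε ∧
      ε ^ (-(1 / (2 * (A : ℝ)))) ≤ Real.sqrt (N + 1) := by
  have hApos : (0 : ℝ) < A := by exact_mod_cast hA
  obtain ⟨y, hy⟩ : ∃ y : ℝ, y = ε ^ (-(1 / (A : ℝ))) := ⟨_, rfl⟩
  have hypos : 0 < y := by rw [hy]; exact Real.rpow_pos_of_pos hε _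
  have hyA : y ^ A = 1 / ε := by
    rw [hy, ← Real.rpow_natCast, ← Real.rpow_mul hε.le]
    have : -(1 / (A : ℝ)) * (A : ℝ) = -1 := by
      field_simp
    rw [this, Real.rpow_neg_one, one_div]
  have hyN0 : (N0 : ℝ) + 1 < y := by
    have h1 : (((N0 : ℝ) + 1) ^ (-(A : ℝ))) ^ (-(1 / (A : ℝ))) = (N0 : ℝ) + 1 := by
      rw [← Real.rpow_mul (by positivity)]
      have : -(A : ℝ) * -(1 / (A : ℝ)) = 1 := by field_simp
      rw [this, Real.rpow_one]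
    rw [← h1, hy]
    apply Real.rpow_lt_rpow_of_neg hε hε0
    have : 0 < 1 / (A : ℝ) := by positivity
    linarith
  have hNy : ((⌊y⌋₊ : ℕ) : ℝ) ≤ y := Nat.floor_le hypos.le
  have hyN : y < ((⌊y⌋₊ : ℕ) : ℝ) + 1 := Nat.lt_floor_add_one y
  refine ⟨⌊y⌋₊, ?_, ?_, ?_, ?_⟩
  · have : (N0 : ℝ) < ((⌊y⌋₊ : ℕ) : ℝ) := by linarith
    exact_mod_cast this.le
  · have h1 : ((⌊y⌋₊ : ℕ) : ℝ) ^ A ≤ y ^ A := pow_le_pow_left₀ (by positivity) hNy A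
    rw [hyA] at h1
    calc ((⌊y⌋₊ : ℕ) : ℝ) ^ A * ε ≤ 1 / ε * ε := mul_le_mul_of_nonneg_right h1 hε.le
      _ = 1 := by field_simp
  · have h1 : y ^ A ≤ (((⌊y⌋₊ : ℕ) : ℝ) + 1) ^ A := pow_le_pow_left₀ hypos.le hyN.le A
    rw [hyA] at h1
    calc (1 : ℝ) = 1 / ε * ε := by field_simp
      _ ≤ _ := mul_le_mul_of_nonneg_right h1 hε.le
  · have h1 : ε ^ (-(1 / (2 * (A : ℝ)))) = Real.sqrt y := by
      rw [Real.sqrt_eq_rpow, hy, ← Real.rpow_mul hε.le]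
      congr 1
      field_simp
    rw [h1]
    exact Real.sqrt_le_sqrt hyN.le

/-- Bounds for the length of a slab. -/
theorem slabLen (P K a N R : ℕ) (ε : ℝ) (hε : 0 < ε) (hε1 : ε ≤ 1) (hN : 1 ≤ N)
    (h2R : (2 * R + 1 : ℝ) ≤ a * N) :
    ∃ l0 : ℕ, 2 * (K : ℝ) ^ 2 * (2 * R + 1 : ℝ) ^ P * (2 * R + 1 : ℝ) ^ 2 / ε ≤ l0 ∧
      (l0 : ℝ) * ε ≤ (2 * (K : ℝ) ^ 2 * (a : ℝ) ^ (P + 2) + 1) * (N : ℝ) ^ (P + 2) := by
  have hNr : (1 : ℝ) ≤ N := by exact_mod_cast hN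
  have h2R0 : (0 : ℝ) < 2 * R + 1 := by positivity
  have hNP : (1 : ℝ) ≤ (N : ℝ) ^ (P + 2) := one_le_pow₀ hNr
  obtain ⟨W, hW⟩ : ∃ W : ℝ, W = 2 * (K : ℝ) ^ 2 * (2 * R + 1 : ℝ) ^ P * (2 * R + 1 : ℝ) ^ 2 :=
    ⟨_, rfl⟩
  have hW0 : 0 ≤ W := by rw [hW]; positivity
  refine ⟨⌈W / ε⌉₊, ?_, ?_⟩
  · rw [← hW]; exact Nat.le_ceil _
  · have h1 : ((⌈W / ε⌉₊ : ℕ) : ℝ) < W / ε + 1 := Nat.ceil_lt_add_one (by positivity)
    have h2 : ((⌈W / ε⌉₊ : ℕ) : ℝ) * ε ≤ W + ε := by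
      calc ((⌈W / ε⌉₊ : ℕ) : ℝ) * ε ≤ (W / ε + 1) * ε :=
            mul_le_mul_of_nonneg_right h1.le hε.le
        _ = _ := by field_simp
    have h3 : (2 * R + 1 : ℝ) ^ P * (2 * R + 1 : ℝ) ^ 2 ≤
        (a : ℝ) ^ (P + 2) * (N : ℝ) ^ (P + 2) := by
      rw [← pow_add, ← mul_pow]
      exact pow_le_pow_left₀ h2R0.le h2R _
    have h4 : W ≤ 2 * (K : ℝ) ^ 2 * ((a : ℝ) ^ (P + 2) * (N : ℝ) ^ (P + 2)) := by
      rw [hW, mul_assoc]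
      exact mul_le_mul_of_nonneg_left h3 (by positivity)
    calc ((⌈W / ε⌉₊ : ℕ) : ℝ) * ε ≤ W + ε := h2
      _ ≤ 2 * (K : ℝ) ^ 2 * ((a : ℝ) ^ (P + 2) * (N : ℝ) ^ (P + 2)) + (N : ℝ) ^ (P + 2) :=
          add_le_add h4 (le_trans hε1 hNP)
      _ = _ := by ring

/-- The first two terms. -/
theorem terms (P n a b D N R l : ℕ) (ε σ : ℝ) (hε : 0 < ε) (hσ : 0 < σ) (hσ2 : σ * σ = ε)
    (hNσ : (N : ℝ) ^ (2 * P + 4) * σ ≤ 1) (hN4 : 4 ≤ N) (hN8 : 8 * D ≤ N)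
    (hD : (D : ℝ) = b * (a : ℝ) ^ P * (n : ℝ) ^ 2)
    (hl : (l : ℝ) * ε ≤ b * (N : ℝ) ^ (P + 3)) (h2R : (2 * R + 1 : ℝ) ≤ a * N) :
    ε ≤ σ / 4 ∧ 2 * (l * ((2 * R + 1 : ℝ) ^ P * n ^ 2 * ε ^ 2)) ≤ σ / 4 ∧
      (2 * R + 1 : ℝ) ^ P * (2 * N * l) * n ^ 2 * ε ^ 2 ≤ 1 / 2 := by
  have hN8D : (8 * D : ℝ) ≤ N := by exact_mod_cast hN8
  have hN4r : (4 : ℝ) ≤ N := by exact_mod_cast hN4
  have hNpos : (0 : ℝ) < N := by linarith
  have hNr : (1 : ℝ) ≤ N := by linarith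
  have h2R0 : (0 : ℝ) < 2 * R + 1 := by positivity
  have hD0 : (0 : ℝ) ≤ D := by positivity
  have h2RP : (2 * R + 1 : ℝ) ^ P ≤ (a : ℝ) ^ P * (N : ℝ) ^ P := by
    rw [← mul_pow]
    exact pow_le_pow_left₀ h2R0.le h2R _
  have hprod : (2 * R + 1 : ℝ) ^ P * l * n ^ 2 * ε ^ 2 ≤ D * ((N : ℝ) ^ (2 * P + 3) * ε) := by
    calc (2 * R + 1 : ℝ) ^ P * l * n ^ 2 * ε ^ 2
        = (2 * R + 1 : ℝ) ^ P * (l * ε) * n ^ 2 * ε := by ring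
      _ ≤ ((a : ℝ) ^ P * (N : ℝ) ^ P) * (b * (N : ℝ) ^ (P + 3)) * n ^ 2 * ε := by
          apply mul_le_mul_of_nonneg_right _ hε.le
          apply mul_le_mul_of_nonneg_right _ (by positivity)
          exact mul_le_mul h2RP hl (by positivity) (by positivity)
      _ = D * ((N : ℝ) ^ (2 * P + 3) * ε) := by
          rw [hD]; ring
  have hNσ' : (N : ℝ) ^ (2 * P + 3) * ε ≤ σ / N := by
    rw [le_div_iff₀ hNpos]
    calc (N : ℝ) ^ (2 * P + 3) * ε * N = ((N : ℝ) ^ (2 * P + 4) * σ) * σ := by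
          rw [← hσ2]; ring
      _ ≤ 1 * σ := mul_le_mul_of_nonneg_right hNσ hσ.le
      _ = σ := one_mul σ
  have hprod' : (2 * R + 1 : ℝ) ^ P * l * n ^ 2 * ε ^ 2 ≤ D * (σ / N) :=
    le_trans hprod (mul_le_mul_of_nonneg_left hNσ' hD0)
  have hσN : σ ≤ 1 / N := by
    rw [le_div_iff₀ hNpos]
    have h1 : (N : ℝ) ≤ (N : ℝ) ^ (2 * P + 4) := by
      calc (N : ℝ) = (N : ℝ) ^ 1 := (pow_one _).symm
        _ ≤ _ := pow_le_pow_right₀ hNr (by omega)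
    calc σ * N ≤ σ * (N : ℝ) ^ (2 * P + 4) := mul_le_mul_of_nonneg_left h1 hσ.le
      _ = (N : ℝ) ^ (2 * P + 4) * σ := mul_comm _ _
      _ ≤ 1 := hNσ
  have hσ14 : σ ≤ 1 / 4 := le_trans hσN (one_div_le_one_div_of_le (by norm_num) hN4r)
  refine ⟨?_, ?_, ?_⟩
  · rw [← hσ2]
    calc σ * σ ≤ σ * (1 / 4) := mul_le_mul_of_nonneg_left hσ14 hσ.le
      _ = σ / 4 := by ring
  · calc 2 * (l * ((2 * R + 1 : ℝ) ^ P * n ^ 2 * ε ^ 2))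
        = 2 * ((2 * R + 1 : ℝ) ^ P * l * n ^ 2 * ε ^ 2) := by ring
      _ ≤ 2 * (D * (σ / N)) := mul_le_mul_of_nonneg_left hprod' (by norm_num)
      _ = (8 * D / N) * (σ / 4) := by ring
      _ ≤ 1 * (σ / 4) := by
          apply mul_le_mul_of_nonneg_right _ (by positivity)
          rw [div_le_one hNpos]
          exact hN8D
      _ = σ / 4 := one_mul _
  · calc (2 * R + 1 : ℝ) ^ P * (2 * N * l) * n ^ 2 * ε ^ 2
        = 2 * N * ((2 * R + 1 : ℝ) ^ P * l * n ^ 2 * ε ^ 2) := by ring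
      _ ≤ 2 * N * (D * (σ / N)) := mul_le_mul_of_nonneg_left hprod' (by positivity)
      _ = 2 * D * σ := by field_simp
      _ ≤ 2 * D * (1 / N) := mul_le_mul_of_nonneg_left hσN (by positivity)
      _ = (4 * D / N) * (1 / 2) := by ring
      _ ≤ 1 * (1 / 2) := by
          apply mul_le_mul_of_nonneg_right _ (by norm_num)
          rw [div_le_one hNpos]
          linarith
      _ = 1 / 2 := one_mul _

/-- The last term. -/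
theorem lastTerm (P ρ C a N R q1 : ℕ) (σ κ E X : ℝ) (hσ : 0 < σ) (hC : 1 ≤ C)
    (hκ : κ = Real.log 2 / C) (hN1 : 1 ≤ N) (h2R : (2 * R + 1 : ℝ) ≤ a * N)
    (hN1σ : 1 ≤ ((N : ℝ) + 1) ^ (2 * P + 4) * σ) (hX1 : 1 ≤ X)
    (hX2 : X ≤ 2 * Real.exp (Real.sqrt (N + 1))) (hE0 : 0 ≤ E) (hE : E ≤ 1 / 2)
    (hq1 : q1 ≤ N) (hq2 : N ≤ C * q1)
    (hdec : (2 ^ (P + 1) * (2 * ρ + a : ℝ) ^ P * (C + 1) * 4 * 2 ^ (2 * P + 4)) *
      (N : ℝ) ^ (P + (2 * P + 4)) * Real.exp (((P : ℝ) + 1) * Real.sqrt (N + 1)) *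
        Real.exp (-(κ * N)) ≤ 1) :
    X * (2 * (ρ * X + R) + 1 : ℝ) ^ P * ((C : ℝ) * E ^ q1 + (1 / 2) ^ N) ≤ σ / 4 := by
  have hCr : (1 : ℝ) ≤ C := by exact_mod_cast hC
  have hNr : (1 : ℝ) ≤ N := by exact_mod_cast hN1
  have hlog2 : 0 < Real.log 2 := Real.log_pos (by norm_num)
  have hpre : (2 * (ρ * X + R) + 1 : ℝ) ≤ (2 * ρ + a) * N * X := by
    have h1 : (2 * R + 1 : ℝ) ≤ a * N * X := by
      refine le_trans h2R ?_
      exact le_mul_of_one_le_right (by positivity) hX1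
    have h2 : (2 * ρ * X : ℝ) ≤ 2 * ρ * N * X := by
      have h3 : (2 * ρ : ℝ) ≤ 2 * ρ * N := le_mul_of_one_le_right (by positivity) hNr
      exact mul_le_mul_of_nonneg_right h3 (by linarith)
    linarith
  have hbr : (C : ℝ) * E ^ q1 + (1 / 2) ^ N ≤ (C + 1) * (1 / 2) ^ q1 := by
    have h1 : E ^ q1 ≤ (1 / 2) ^ q1 := pow_le_pow_left₀ hE0 hE _
    have h2 : (1 / 2 : ℝ) ^ N ≤ (1 / 2) ^ q1 :=
      pow_le_pow_of_le_one (by norm_num) (by norm_num) hq1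
    have h3 : (C : ℝ) * E ^ q1 ≤ C * (1 / 2) ^ q1 := mul_le_mul_of_nonneg_left h1 (by positivity)
    linarith
  have hhalf : (1 / 2 : ℝ) ^ q1 ≤ Real.exp (-(κ * N)) := by
    have h1 : (1 / 2 : ℝ) ^ q1 = Real.exp (-(Real.log 2 * q1)) := by
      rw [Real.exp_neg, mul_comm, Real.exp_nat_mul, Real.exp_log (by norm_num), ← inv_pow]
      norm_num
    rw [h1]
    apply Real.exp_le_exp.2
    rw [hκ]
    have h2 : (N : ℝ) ≤ C * q1 := by exact_mod_cast hq2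
    have h3 : Real.log 2 / C * N ≤ Real.log 2 * q1 := by
      rw [div_mul_eq_mul_div, div_le_iff₀ (by positivity)]
      calc Real.log 2 * N ≤ Real.log 2 * (C * q1) := mul_le_mul_of_nonneg_left h2 hlog2.le
        _ = _ := by ring
    linarith
  have h0 : (0 : ℝ) ≤ (2 * (ρ * X + R) + 1 : ℝ) := by positivity
  have h1 : X * (2 * (ρ * X + R) + 1 : ℝ) ^ P ≤
      (2 * Real.exp (Real.sqrt (N + 1))) ^ (P + 1) * ((2 * ρ + a) * N) ^ P := by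
    calc X * (2 * (ρ * X + R) + 1 : ℝ) ^ P ≤ X * ((2 * ρ + a) * N * X) ^ P := by
          apply mul_le_mul_of_nonneg_left _ (by positivity)
          exact pow_le_pow_left₀ h0 hpre _
      _ = X ^ (P + 1) * ((2 * ρ + a) * N) ^ P := by
          rw [mul_pow ((2 * (ρ : ℝ) + a) * N) X P, pow_succ]; ring
      _ ≤ _ := by
          apply mul_le_mul_of_nonneg_right _ (by positivity)
          exact pow_le_pow_left₀ (by positivity) hX2 _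
  obtain ⟨Q, hQ⟩ : ∃ Q : ℝ, Q = ((2 * Real.exp (Real.sqrt (N + 1))) ^ (P + 1) *
      ((2 * ρ + a) * N) ^ P) * ((C + 1) * Real.exp (-(κ * N))) := ⟨_, rfl⟩
  have hQ0 : 0 ≤ Q := by rw [hQ]; positivity
  have h2 : X * (2 * (ρ * X + R) + 1 : ℝ) ^ P * ((C : ℝ) * E ^ q1 + (1 / 2) ^ N) ≤ Q := by
    rw [hQ]
    apply mul_le_mul h1 _ (by positivity) (by positivity)
    exact le_trans hbr (mul_le_mul_of_nonneg_left hhalf (by positivity))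
  have h4 : 1 ≤ (2 * (N : ℝ)) ^ (2 * P + 4) * σ := by
    refine le_trans hN1σ (mul_le_mul_of_nonneg_right ?_ hσ.le)
    exact pow_le_pow_left₀ (by positivity) (by linarith) _
  have h7 : Real.exp (((P : ℝ) + 1) * Real.sqrt (N + 1)) =
      Real.exp (Real.sqrt (N + 1)) ^ (P + 1) := by
    rw [← Real.exp_nat_mul]
    push_cast
    rfl
  have h5 : Q * (4 * (2 * (N : ℝ)) ^ (2 * P + 4)) ≤ 1 := by
    have h6 : Q * (4 * (2 * (N : ℝ)) ^ (2 * P + 4)) =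
        (2 ^ (P + 1) * (2 * ρ + a : ℝ) ^ P * (C + 1) * 4 * 2 ^ (2 * P + 4)) *
      (N : ℝ) ^ (P + (2 * P + 4)) * Real.exp (((P : ℝ) + 1) * Real.sqrt (N + 1)) *
        Real.exp (-(κ * N)) := by
      rw [h7, hQ, mul_pow 2 (Real.exp _), mul_pow (2 * (ρ : ℝ) + a) (N : ℝ), mul_pow 2 (N : ℝ),
        pow_add (N : ℝ) P (2 * P + 4)]
      ring
    rw [h6]
    exact hdec
  calc X * (2 * (ρ * X + R) + 1 : ℝ) ^ P * ((C : ℝ) * E ^ q1 + (1 / 2) ^ N) ≤ Q := h2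
    _ ≤ Q * ((2 * (N : ℝ)) ^ (2 * P + 4) * σ) := le_mul_of_one_le_right hQ0 h4
    _ = (Q * (4 * (2 * (N : ℝ)) ^ (2 * P + 4))) * (σ / 4) := by ring
    _ ≤ 1 * (σ / 4) := mul_le_mul_of_nonneg_right h5 (by positivity)
    _ = σ / 4 := one_mul _

theorem asym : ASYM_S := by
  intro P ρ K C n hρ hK hC hn
  obtain ⟨A, hA⟩ : ∃ A : ℕ, A = 4 * P + 8 := ⟨_, rfl⟩
  obtain ⟨a, ha⟩ : ∃ a : ℕ, a = 8 * (2 * ρ + 1) + 1 := ⟨_, rfl⟩
  obtain ⟨b, hb⟩ : ∃ b : ℕ, b = 2 * K ^ 2 * a ^ (P + 2) + 1 := ⟨_, rfl⟩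
  obtain ⟨D, hD⟩ : ∃ D : ℕ, D = b * a ^ P * n ^ 2 := ⟨_, rfl⟩
  obtain ⟨κ, hκ⟩ : ∃ κ : ℝ, κ = Real.log 2 / C := ⟨_, rfl⟩
  have hCr : (1 : ℝ) ≤ C := by exact_mod_cast hC
  have hKr : (1 : ℝ) ≤ K := by exact_mod_cast hK
  have hlog2 : 0 < Real.log 2 := Real.log_pos (by norm_num)
  have hκ0 : 0 < κ := by rw [hκ]; positivity
  obtain ⟨N1, hN1⟩ := decay (P + (2 * P + 4)) κ
    (2 ^ (P + 1) * (2 * ρ + a : ℝ) ^ P * (C + 1) * 4 * 2 ^ (2 * P + 4)) (P + 1) hκ0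
  obtain ⟨N0, hN0⟩ : ∃ N0 : ℕ, N0 = N1 + K * a ^ 2 + 4 + 8 * D := ⟨_, rfl⟩
  have hApos : (0 : ℝ) < A := by
    have : 0 < A := by omega
    exact_mod_cast this
  refine ⟨1 / (2 * (A : ℝ)), by positivity, ((N0 : ℝ) + 1) ^ (-(A : ℝ)), by positivity,
    small0 A N0 (by omega) (by omega), ?_⟩
  intro ε hε hε0
  have hε12 : ε ≤ 1 / 2 := le_trans hε0.le (small0 A N0 (by omega) (by omega))
  obtain ⟨N, hNN0, hNε, hN1ε, hexp⟩ := chooseN A N0 (by omega) ε hε hε0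
  have hNpos : 1 ≤ N := by omega
  have hNr : (1 : ℝ) ≤ N := by exact_mod_cast hNpos
  obtain ⟨σ, hσ⟩ : ∃ σ : ℝ, σ = Real.sqrt ε := ⟨_, rfl⟩
  have hσpos : 0 < σ := by rw [hσ]; exact Real.sqrt_pos.2 hε
  have hσ2 : σ * σ = ε := by rw [hσ]; exact Real.mul_self_sqrt hε.le
  have hA2 : A = (2 * P + 4) * 2 := by omega
  have hNσ : (N : ℝ) ^ (2 * P + 4) * σ ≤ 1 := by
    apply le_of_sq_le_sq _ (by norm_num)
    rw [mul_pow, ← pow_mul, ← hA2, one_pow, sq, hσ2]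
    exact hNε
  have hN1σ : 1 ≤ ((N : ℝ) + 1) ^ (2 * P + 4) * σ := by
    apply le_of_sq_le_sq _ (by positivity)
    rw [mul_pow, ← pow_mul, ← hA2, one_pow, sq, hσ2]
    exact hN1ε
  obtain ⟨R, hR⟩ : ∃ R : ℕ, R = 4 * (2 * ρ + 1) * N := ⟨_, rfl⟩
  have h2R : (2 * R + 1 : ℝ) ≤ a * N := by
    rw [hR, ha]
    push_cast
    linarith
  obtain ⟨l0, hl0ge, hl0le⟩ := slabLen P K a N R ε hε (by linarith) hNpos h2R
  obtain ⟨q1, hq1⟩ : ∃ q1 : ℕ, q1 = (N + C - 1) / C := ⟨_, rfl⟩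
  have hl0pos : 1 ≤ l0 := by
    have h1 : (0 : ℝ) < l0 := lt_of_lt_of_le (by positivity) hl0ge
    exact_mod_cast h1
  obtain ⟨l, hl⟩ : ∃ l : ℕ, l = N * l0 := ⟨_, rfl⟩
  have hbr : (b : ℝ) = 2 * (K : ℝ) ^ 2 * (a : ℝ) ^ (P + 2) + 1 := by
    rw [hb]; push_cast; ring
  have hlle : (l : ℝ) * ε ≤ b * (N : ℝ) ^ (P + 3) := by
    rw [hl, hbr]
    push_cast
    calc (N : ℝ) * l0 * ε = N * (l0 * ε) := by ring
      _ ≤ N * ((2 * (K : ℝ) ^ 2 * (a : ℝ) ^ (P + 2) + 1) * (N : ℝ) ^ (P + 2)) :=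
          mul_le_mul_of_nonneg_left hl0le (by positivity)
      _ = _ := by ring
  have hDr : (D : ℝ) = b * (a : ℝ) ^ P * (n : ℝ) ^ 2 := by
    rw [hD]; push_cast; ring
  obtain ⟨ht1, ht2, hE⟩ := terms P n a b D N R l ε σ hε hσpos hσ2 hNσ (by omega) (by omega) hDr
    hlle h2R
  have hq1le : q1 ≤ N := by
    rw [hq1]
    apply Nat.div_le_of_le_mul
    have h1 : N + C ≤ C * N + 1 := by
      obtain ⟨C', rfl⟩ : ∃ C', C = C' + 1 := ⟨C - 1, by omega⟩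
      obtain ⟨N', rfl⟩ : ∃ N', N = N' + 1 := ⟨N - 1, by omega⟩
      have : (C' + 1) * (N' + 1) = C' * N' + C' + N' + 1 := by ring
      have h2 : 0 ≤ C' * N' := Nat.zero_le _
      omega
    omega
  have hCq1 : C * q1 < N + C := by
    rw [hq1]
    have := Nat.mul_div_le (N + C - 1) C
    omega
  have hq1ge : N ≤ C * q1 := by
    rw [hq1]
    have h1 := Nat.div_add_mod (N + C - 1) C
    have h2 := Nat.mod_lt (N + C - 1) (show 0 < C by omega)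
    omega
  refine ⟨N, N, l0, q1, R, l, hNpos, hNpos, hl0pos, hR, hl, ?_, hl0ge, hCq1, ?_⟩
  · have h1 : (N : ℝ) ^ 4 * ε ≤ 1 := by
      refine le_trans (mul_le_mul_of_nonneg_right ?_ hε.le) hNε
      exact pow_le_pow_right₀ hNr (by omega)
    have h2 : (K * a ^ 2 : ℝ) ≤ N := by
      have : K * a ^ 2 ≤ N := by omega
      exact_mod_cast this
    have h2R0 : (0 : ℝ) < 2 * R + 1 := by positivity
    calc (K : ℝ) * (2 * R + 1 : ℝ) ^ 2 * ε ≤ K * (a * N) ^ 2 * ε := by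
          apply mul_le_mul_of_nonneg_right _ hε.le
          apply mul_le_mul_of_nonneg_left _ (by positivity)
          exact pow_le_pow_left₀ h2R0.le h2R _
      _ = (K * a ^ 2) * (N ^ 2 * ε) := by ring
      _ ≤ N * (N ^ 2 * ε) := mul_le_mul_of_nonneg_right h2 (by positivity)
      _ = (N : ℝ) ^ 3 * ε := by ring
      _ ≤ (N : ℝ) ^ 4 * ε := by
          apply mul_le_mul_of_nonneg_right _ hε.le
          exact pow_le_pow_right₀ hNr (by omega)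
      _ ≤ 1 := h1
  · intro T hT
    have hT1 : (T : ℝ) + 1 ≤ 2 * Real.exp (Real.sqrt (N + 1)) := by
      have h1 : (T : ℝ) ≤ Real.exp (Real.sqrt (N + 1)) :=
        le_trans hT (Real.exp_le_exp.2 hexp)
      have h2 : (1 : ℝ) ≤ Real.exp (Real.sqrt (N + 1)) := Real.one_le_exp (Real.sqrt_nonneg _)
      linarith
    have hX1 : (1 : ℝ) ≤ (T : ℝ) + 1 := by
      have : (0 : ℝ) ≤ T := by positivity
      linarith
    have ht3 := lastTerm P ρ C a N R q1 σ κ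
      ((2 * R + 1 : ℝ) ^ P * (2 * N * l) * n ^ 2 * ε ^ 2) ((T : ℝ) + 1) hσpos hC hκ hNpos h2R
      hN1σ hX1 hT1 (by positivity) hE hq1le hq1ge (hN1 N (by omega))
    rw [← hσ]
    linarith [ht1, ht2, ht3, hσpos]

end Pool.Agent.Lib.MP_fdcb14_pr.H97
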