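import Mathlib
import Pool.Agent.Lib.MP_fdcb14_pr.W.Interfaces
import Pool.Agent.Lib.MP_fdcb14_pr.W.Base

/-!
# MP_fdcb14_pr: the corrector functions (module CORR)
-/

namespace Pool.Agent.Lib.MP_fdcb14_pr.H97

open Pool.Agent.Lib.MP_fdcb14_pr Classical

/-! ### Shifts and the reflection -/

/-- Translation of a set of integers. -/
def sh (n : ℤ) (D : Set ℤ) : Set ℤ := {i | i + n ∈ D}

/-- The reflection. -/
def star (D : Set ℤ) : Set ℤ := {i | 1 - i ∉ D}

theorem mem_sh {n i : ℤ} {D : Set ℤ} : i ∈ sh n D ↔ i + n ∈ D := Iff.rfl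

theorem mem_star {i : ℤ} {D : Set ℤ} : i ∈ star D ↔ 1 - i ∉ D := Iff.rfl

theorem sh_sh (m n : ℤ) (D : Set ℤ) : sh m (sh n D) = sh (m + n) D := by
  ext i
  simp only [mem_sh, add_assoc]

theorem sh_zero (D : Set ℤ) : sh 0 D = D := by
  ext i
  simp only [mem_sh, add_zero]

theorem star_star (D : Set ℤ) : star (star D) = D := by
  ext i
  simp only [mem_star, not_not]
  rw [show (1 : ℤ) - (1 - i) = i by ring]

theorem star_sh (n : ℤ) (D : Set ℤ) : star (sh n D) = sh (-n) (star D) := by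
  ext i
  simp only [mem_star, mem_sh]
  rw [show (1 : ℤ) - (i + -n) = 1 - i + n by ring]

theorem isId_sh {J : Finset ℕ} {D : Set ℤ} (h : IsId J D) (n : ℤ) : IsId J (sh n D) := by
  obtain ⟨⟨i, hi⟩, ⟨i', hi'⟩, h3⟩ := h
  refine ⟨⟨i - n, ?_⟩, ⟨i' - n, ?_⟩, ?_⟩
  · rw [mem_sh, sub_add_cancel]; exact hi
  · rw [mem_sh, sub_add_cancel]; exact hi'
  · intro x hx j hj
    rw [mem_sh] at hx ⊢
    have := h3 _ hx j hj
    rw [show x - (j : ℤ) + n = x + n - j by ring]
    exact this

theorem isId_star {J : Finset ℕ} {D : Set ℤ} (h : IsId J D) : IsId J (star D) := by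
  obtain ⟨⟨i, hi⟩, ⟨i', hi'⟩, h3⟩ := h
  refine ⟨⟨1 - i', ?_⟩, ⟨1 - i, ?_⟩, ?_⟩
  · rw [mem_star, show (1 : ℤ) - (1 - i') = i' by ring]; exact hi'
  · rw [mem_star, show (1 : ℤ) - (1 - i) = i by ring, not_not]; exact hi
  · intro x hx j hj
    rw [mem_star] at hx ⊢
    intro hcon
    apply hx
    have := h3 _ hcon j hj
    rw [show (1 : ℤ) - (x - j) - j = 1 - x by ring] at this
    exact this

theorem minC_sh {J : Finset ℕ} {D : Set ℤ} {n i : ℤ} :
    i ∈ MinC J (sh n D) ↔ i + n ∈ MinC J D := by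
  simp only [MinC, Set.mem_ofPred_eq, mem_sh]
  constructor
  · rintro ⟨h1, h2⟩
    refine ⟨h1, fun j hj => ?_⟩
    have := h2 j hj
    rw [show i - (j : ℤ) + n = i + n - j by ring] at this
    exact this
  · rintro ⟨h1, h2⟩
    refine ⟨h1, fun j hj => ?_⟩
    have := h2 j hj
    rw [show i + n - (j : ℤ) = i - j + n by ring] at this
    exact this

theorem maxC_sh {J : Finset ℕ} {D : Set ℤ} {n i : ℤ} :
    i ∈ MaxC J (sh n D) ↔ i + n ∈ MaxC J D := by
  simp only [MaxC, Set.mem_ofPred_eq, mem_sh]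
  constructor
  · rintro ⟨h1, h2⟩
    refine ⟨h1, fun j hj => ?_⟩
    have := h2 j hj
    rw [show i + (j : ℤ) + n = i + n + j by ring] at this
    exact this
  · rintro ⟨h1, h2⟩
    refine ⟨h1, fun j hj => ?_⟩
    have := h2 j hj
    rw [show i + n + (j : ℤ) = i + j + n by ring] at this
    exact this

theorem minC_star {J : Finset ℕ} {D : Set ℤ} {i : ℤ} :
    i ∈ MinC J (star D) ↔ 1 - i ∈ MaxC J D := by
  simp only [MinC, MaxC, Set.mem_ofPred_eq, mem_star, not_not]
  constructor
  · rintro ⟨h1, h2⟩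
    refine ⟨h1, fun j hj => ?_⟩
    have := h2 j hj
    rw [show (1 : ℤ) - (i - j) = 1 - i + j by ring] at this
    exact this
  · rintro ⟨h1, h2⟩
    refine ⟨h1, fun j hj => ?_⟩
    have := h2 j hj
    rw [show (1 : ℤ) - i + j = 1 - (i - j) by ring] at this
    exact this

variable {G : Type} [AddCommGroup G] {S : Finset G} {k : ℕ} {φ : G →+ ℤ} {g : G} {J : Finset ℕ}

theorem hh_sh (hphi : φ g = 0) {n : ℤ} {D : Set ℤ} {w : G} :
    w ∈ HH φ g (sh n D) ↔ w + n • g ∈ HH φ g D := by
  simp only [HH, Set.mem_ofPred_eq, map_add, map_zsmul, hphi, smul_zero, add_zero]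
  constructor
  · rintro (h | ⟨i, hi, h⟩)
    · exact Or.inl h
    · exact Or.inr ⟨i + n, hi, by rw [h, add_smul]⟩
  · rintro (h | ⟨i, hi, h⟩)
    · exact Or.inl h
    · refine Or.inr ⟨i - n, ?_, ?_⟩
      · rw [mem_sh, sub_add_cancel]; exact hi
      · rw [sub_smul, ← h, add_sub_cancel_right]

theorem tp_sh (hphi : φ g = 0) (n : ℤ) (D : Set ℤ) (w : G) :
    Tp S φ g J w (sh n D) = sh n (Tp S φ g J (w + n • g) D) := by
  ext i
  simp only [Tp, Set.mem_ofPred_eq, mem_sh, minC_sh, hh_sh hphi]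
  rw [show w + n • g - (i + n) • g = w - i • g by rw [add_smul]; abel]

theorem tm_sh (hphi : φ g = 0) (n : ℤ) (D : Set ℤ) (w : G) :
    Tm S φ g J w (sh n D) = sh n (Tm S φ g J (w + n • g) D) := by
  ext i
  simp only [Tm, Set.mem_ofPred_eq, mem_sh, maxC_sh, hh_sh hphi]
  rw [show w + n • g - (i + n) • g = w - i • g by rw [add_smul]; abel]

theorem tp_star (hS : Wind S k) (hL : LineData S φ g J) (D : Set ℤ) (w : G) :
    Tp S φ g J w (star D) = star (Tm S φ g J (g - w) D) := by
  ext i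
  simp only [Tp, Tm, Set.mem_ofPred_eq, mem_star, minC_star]
  have e1 : g - w - (1 - i) • g = -(w - i • g) := by
    rw [sub_smul, one_smul]; abel
  rw [e1]
  have e2 : (-(w - i • g) ∈ S) ↔ (w - i • g ∈ S) := by
    constructor
    · intro h
      have := hS.symm _ h
      rw [neg_neg] at this
      exact this
    · exact hS.symm _
  rw [e2]
  -- the two conditions on the side agree for sites that are seen
  have e3 : w - i • g ∈ S → (w ∉ HH φ g (star D) ↔ g - w ∈ HH φ g D) := by
    intro hs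
    have hφ : φ (w - i • g) = φ w := by rw [map_sub, map_zsmul, hL.phig, smul_zero, sub_zero]
    have hφ2 : φ (g - w) = - φ w := by rw [map_sub, hL.phig, zero_sub]
    rcases lt_trichotomy (φ w) 0 with h | h | h
    · constructor
      · intro h1
        exact absurd (Or.inl h) h1
      · rintro (h1 | ⟨i', _, h1⟩)
        · rw [hφ2] at h1; omega
        · rw [h1, map_zsmul, hL.phig, smul_zero] at hφ2; omega
    · obtain ⟨j, hj, _⟩ := hL.ker _ hs (by rw [hφ, h])
      have hw : w = (i + j) • g := by rw [add_smul, ← hj]; abel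
      have hinj : ∀ a b : ℤ, a • g = b • g → a = b := by
        intro a b hab
        have := hL.free (a - b) (by rw [sub_smul, hab, sub_self])
        omega
      constructor
      · intro h1
        right
        refine ⟨1 - (i + j), ?_, ?_⟩
        · by_contra h2
          exact h1 (Or.inr ⟨i + j, h2, hw⟩)
        · rw [sub_smul, one_smul, ← hw]
      · rintro (h1 | ⟨i', hi', h1⟩)
        · rw [hφ2] at h1; omega
        · rintro (h2 | ⟨i'', hi'', h2⟩)
          · omega
          · have h3 : i'' = i + j := hinj _ _ (by rw [← h2, hw])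
            have h4 : i' = 1 - (i + j) := hinj _ _ (by
              rw [← h1, sub_smul, one_smul, ← hw])
            rw [h3] at hi''
            rw [h4] at hi'
            exact hi'' hi'
    · constructor
      · intro _
        left
        rw [hφ2]; omega
      · rintro _ (h1 | ⟨i', _, h1⟩)
        · omega
        · rw [h1, map_zsmul, hL.phig, smul_zero] at h; exact lt_irrefl _ h
  by_cases hs : w - i • g ∈ S
  · have := e3 hs
    tauto
  · tauto

theorem tm_star (hS : Wind S k) (hL : LineData S φ g J) (D : Set ℤ) (w : G) :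
    Tm S φ g J w (star D) = star (Tp S φ g J (g - w) D) := by
  have h := tp_star hS hL (star D) (g - w)
  rw [star_star, sub_sub_cancel] at h
  rw [h, star_star]

/-! ### The signed size -/

theorem nn_star {D : Set ℤ} : NN (star D) = - NN D := by
  have h1 : (star D ∩ Set.Ioi 0).ncard = (Set.Iic 0 \ D).ncard := by
    have : star D ∩ Set.Ioi 0 = (fun i => 1 - i) '' (Set.Iic 0 \ D) := by
      ext i
      simp only [Set.mem_inter_iff, mem_star, Set.mem_Ioi, Set.mem_image, Set.mem_sdiff,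
        Set.mem_Iic]
      constructor
      · rintro ⟨a, b⟩
        exact ⟨1 - i, ⟨by omega, a⟩, by ring⟩
      · rintro ⟨x, ⟨a, b⟩, rfl⟩
        refine ⟨?_, by omega⟩
        rw [show (1 : ℤ) - (1 - x) = x by ring]
        exact b
    rw [this, Set.ncard_image_of_injective _ (fun a b h => by
      simp only [sub_right_inj] at h; exact h)]
  have h2 : (Set.Iic 0 \ star D).ncard = (D ∩ Set.Ioi 0).ncard := by
    have : Set.Iic 0 \ star D = (fun i => 1 - i) '' (D ∩ Set.Ioi 0) := by
      ext i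
      simp only [Set.mem_inter_iff, mem_star, Set.mem_Ioi, Set.mem_image, Set.mem_sdiff,
        Set.mem_Iic, not_not]
      constructor
      · rintro ⟨a, b⟩
        exact ⟨1 - i, ⟨b, by omega⟩, by ring⟩
      · rintro ⟨x, ⟨a, b⟩, rfl⟩
        refine ⟨by omega, ?_⟩
        rw [show (1 : ℤ) - (1 - x) = x by ring]
        exact a
    rw [this, Set.ncard_image_of_injective _ (fun a b h => by
      simp only [sub_right_inj] at h; exact h)]
  unfold NN
  rw [h1, h2]
  ring

theorem nn_eq {D : Set ℤ} {a : ℤ} {F : ℕ} (h1 : ∀ i ≤ a, i ∈ D) (h2 : ∀ i ∈ D, i ≤ a + F) :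
    NN D = a + (D ∩ Set.Ioi a).ncard := by
  have hfin : (D ∩ Set.Ioi a).Finite :=
    (Set.finite_Ioc a (a + F)).subset (fun i hi => ⟨hi.2, h2 i hi.1⟩)
  unfold NN
  rcases le_total 0 a with h | h
  · have e1 : D ∩ Set.Ioi 0 = Set.Ioc 0 a ∪ (D ∩ Set.Ioi a) := by
      ext i
      simp only [Set.mem_inter_iff, Set.mem_Ioi, Set.mem_union, Set.mem_Ioc]
      constructor
      · rintro ⟨x, y⟩
        rcases le_or_gt i a with z | z
        · exact Or.inl ⟨y, z⟩
        · exact Or.inr ⟨x, z⟩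
      · rintro (⟨x, y⟩ | ⟨x, y⟩)
        · exact ⟨h1 i y, x⟩
        · exact ⟨x, by omega⟩
    have e2 : Set.Iic 0 \ D = ∅ := by
      ext i
      simp only [Set.mem_sdiff, Set.mem_Iic, Set.mem_empty_iff_false, iff_false, not_and, not_not]
      intro hi
      exact h1 i (by omega)
    rw [e1, e2, Set.ncard_union_eq _ (Set.finite_Ioc 0 a) hfin, Set.ncard_empty]
    · have e3 : (Set.Ioc (0 : ℤ) a).ncard = a.toNat := by
        rw [← Finset.coe_Ioc, Set.ncard_coe_finset, Int.card_Ioc, sub_zero]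
      rw [e3]
      push_cast
      rw [Int.toNat_of_nonneg h]
      ring
    · rw [Set.disjoint_left]
      rintro i ⟨_, y⟩ ⟨_, z⟩
      exact absurd z (by simp only [Set.mem_Ioi]; omega)
  · have e1 : D ∩ Set.Ioi a = (D ∩ Set.Ioc a 0) ∪ (D ∩ Set.Ioi 0) := by
      ext i
      simp only [Set.mem_inter_iff, Set.mem_Ioi, Set.mem_union, Set.mem_Ioc]
      constructor
      · rintro ⟨x, y⟩
        rcases le_or_gt i 0 with z | z
        · exact Or.inl ⟨x, y, z⟩
        · exact Or.inr ⟨x, z⟩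
      · rintro (⟨x, y, z⟩ | ⟨x, y⟩)
        · exact ⟨x, y⟩
        · exact ⟨x, by omega⟩
    have e2 : Set.Iic 0 \ D = Set.Ioc a 0 \ D := by
      ext i
      simp only [Set.mem_sdiff, Set.mem_Iic, Set.mem_Ioc]
      constructor
      · rintro ⟨x, y⟩
        refine ⟨⟨?_, x⟩, y⟩
        by_contra hcon
        exact y (h1 i (by omega))
      · rintro ⟨⟨_, x⟩, y⟩
        exact ⟨x, y⟩
    have e3 : (Set.Ioc a (0 : ℤ)).ncard = (-a).toNat := by
      rw [← Finset.coe_Ioc, Set.ncard_coe_finset, Int.card_Ioc, zero_sub]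
    have e4 : (D ∩ Set.Ioc a 0).ncard + (Set.Ioc a 0 \ D).ncard = (Set.Ioc a (0 : ℤ)).ncard := by
      rw [Set.inter_comm]
      exact Set.ncard_inter_add_ncard_sdiff_eq_ncard _ _ (Set.finite_Ioc a 0)
    have e5 : (D ∩ Set.Ioi a).ncard = (D ∩ Set.Ioc a 0).ncard + (D ∩ Set.Ioi 0).ncard := by
      rw [e1]
      apply Set.ncard_union_eq
      · rw [Set.disjoint_left]
        rintro i ⟨_, _, y⟩ ⟨_, z⟩
        exact absurd z (by simp only [Set.mem_Ioi]; omega)
      · exact (Set.finite_Ioc a 0).subset Set.inter_subset_right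
      · exact hfin.subset (fun i hi => ⟨hi.1, by
          have := hi.2
          simp only [Set.mem_Ioi] at this ⊢
          omega⟩)
    rw [e2]
    have e6 : ((-a).toNat : ℤ) = -a := Int.toNat_of_nonneg (by omega)
    omega

theorem nn_sh {D : Set ℤ} {a : ℤ} {F : ℕ} (h1 : ∀ i ≤ a, i ∈ D) (h2 : ∀ i ∈ D, i ≤ a + F)
    (n : ℤ) : NN (sh n D) = NN D - n := by
  have e1 := nn_eq h1 h2
  have e2 := nn_eq (D := sh n D) (a := a - n) (F := F)
    (fun i hi => by rw [mem_sh]; exact h1 _ (by omega))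
    (fun i hi => by rw [mem_sh] at hi; have := h2 _ hi; omega)
  have e3 : (sh n D ∩ Set.Ioi (a - n)).ncard = (D ∩ Set.Ioi a).ncard := by
    have : D ∩ Set.Ioi a = (fun i => i + n) '' (sh n D ∩ Set.Ioi (a - n)) := by
      ext i
      simp only [Set.mem_inter_iff, mem_sh, Set.mem_Ioi, Set.mem_image]
      constructor
      · rintro ⟨x, y⟩
        exact ⟨i - n, ⟨by rw [sub_add_cancel]; exact x, by omega⟩, by ring⟩
      · rintro ⟨x, ⟨y, z⟩, rfl⟩
        exact ⟨y, by omega⟩
    rw [this, Set.ncard_image_of_injective _ (add_left_injective n)]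
  rw [e1, e2, e3]
  ring

/-! ### The generator -/

/-- The facts on ideals that are used (from IDEAL). -/
structure Facts (S : Finset G) (φ : G →+ ℤ) (g : G) (J : Finset ℕ) (F : ℕ) : Prop where
  tid : ∀ D w, IsId J D → IsId J (Tp S φ g J w D) ∧ IsId J (Tm S φ g J w D)
  zone : ∀ D w, w ∉ Zone S g J D → Tp S φ g J w D = D ∧ Tm S φ g J w D = D
  fin : ∀ D, IsId J D → (Zone S g J D).Finite
  base : ∀ D, IsId J D → ∃ a : ℤ, (∀ i ≤ a, i ∈ D) ∧ a + 1 ∉ D ∧ (∀ i ∈ D, i ≤ a + F)

/-- The summand of the generator. -/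
noncomputable def tm' (S : Finset G) (φ : G →+ ℤ) (g : G) (J : Finset ℕ) (f : Set ℤ → ℝ)
    (D : Set ℤ) (w : G) : ℝ :=
  (f (Tp S φ g J w D) - f D) + (f (Tm S φ g J w D) - f D)

theorem ll_def (f : Set ℤ → ℝ) (D : Set ℤ) : LL S φ g J f D = ∑ᶠ w : G, tm' S φ g J f D w := rfl

theorem ll_eq {F : ℕ} (hf : Facts S φ g J F) {D : Set ℤ} (hD : IsId J D) (f : Set ℤ → ℝ) :
    LL S φ g J f D = ∑ w ∈ (hf.fin D hD).toFinset, tm' S φ g J f D w := by
  rw [ll_def]
  apply finsum_eq_sum_of_support_subset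
  intro w hw
  rw [Set.Finite.coe_toFinset]
  by_contra hcon
  apply hw
  obtain ⟨e1, e2⟩ := hf.zone D w hcon
  simp only [tm', e1, e2, sub_self, add_zero]

theorem ll_congr {F : ℕ} (hf : Facts S φ g J F) {D : Set ℤ} (hD : IsId J D) {f f' : Set ℤ → ℝ}
    (h : ∀ E, IsId J E → f E = f' E) : LL S φ g J f D = LL S φ g J f' D := by
  rw [ll_eq hf hD, ll_eq hf hD]
  apply Finset.sum_congr rfl
  intro w _
  simp only [tm', h D hD, h _ (hf.tid D w hD).1, h _ (hf.tid D w hD).2]

theorem ll_add {F : ℕ} (hf : Facts S φ g J F) {D : Set ℤ} (hD : IsId J D) (f f' : Set ℤ → ℝ) :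
    LL S φ g J (fun E => f E + f' E) D = LL S φ g J f D + LL S φ g J f' D := by
  rw [ll_eq hf hD, ll_eq hf hD, ll_eq hf hD, ← Finset.sum_add_distrib]
  apply Finset.sum_congr rfl
  intro w _
  simp only [tm']
  ring

theorem ll_neg {F : ℕ} (hf : Facts S φ g J F) {D : Set ℤ} (hD : IsId J D) (f : Set ℤ → ℝ) :
    LL S φ g J (fun E => - f E) D = - LL S φ g J f D := by
  rw [ll_eq hf hD, ll_eq hf hD, ← Finset.sum_neg_distrib]
  apply Finset.sum_congr rfl
  intro w _
  simp only [tm']
  ring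

theorem ll_addc {F : ℕ} (hf : Facts S φ g J F) {D : Set ℤ} (hD : IsId J D) (f : Set ℤ → ℝ)
    (c : ℝ) : LL S φ g J (fun E => f E + c) D = LL S φ g J f D := by
  rw [ll_eq hf hD, ll_eq hf hD]
  apply Finset.sum_congr rfl
  intro w _
  simp only [tm']
  ring

theorem ll_sh (hphi : φ g = 0) (f : Set ℤ → ℝ) (n : ℤ) (D : Set ℤ) :
    LL S φ g J f (sh n D) = LL S φ g J (fun E => f (sh n E)) D := by
  rw [ll_def, ll_def, ← finsum_comp_equiv (Equiv.addRight (n • g))
    (f := tm' S φ g J (fun E => f (sh n E)) D)]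
  apply finsum_congr
  intro w
  simp only [tm', tp_sh hphi, tm_sh hphi, Equiv.coe_addRight]

theorem ll_star (hS : Wind S k) (hL : LineData S φ g J) (f : Set ℤ → ℝ) (D : Set ℤ) :
    LL S φ g J f (star D) = LL S φ g J (fun E => f (star E)) D := by
  rw [ll_def, ll_def, ← finsum_comp_equiv (Equiv.subLeft g)
    (f := tm' S φ g J (fun E => f (star E)) D)]
  apply finsum_congr
  intro w
  simp only [tm', tp_star hS hL, tm_star hS hL, Equiv.subLeft_apply]
  ring

/-! ### Shapes -/

theorem base_unique {D : Set ℤ} {a b : ℤ} (h1 : ∀ i ≤ a, i ∈ D) (h2 : a + 1 ∉ D)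
    (h3 : ∀ i ≤ b, i ∈ D) (h4 : b + 1 ∉ D) : a = b := by
  by_contra hne
  rcases lt_or_gt_of_ne hne with h | h
  · exact h2 (h3 _ (by omega))
  · exact h4 (h1 _ (by omega))

/-- The base of an ideal. -/
noncomputable def bs (D : Set ℤ) : ℤ :=
  if h : ∃ a : ℤ, (∀ i ≤ a, i ∈ D) ∧ a + 1 ∉ D then h.choose else 0

theorem bs_eq {D : Set ℤ} {a : ℤ} (h1 : ∀ i ≤ a, i ∈ D) (h2 : a + 1 ∉ D) : bs D = a := by
  have h : ∃ a : ℤ, (∀ i ≤ a, i ∈ D) ∧ a + 1 ∉ D := ⟨a, h1, h2⟩
  unfold bs
  rw [dif_pos h]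
  exact base_unique h.choose_spec.1 h.choose_spec.2 h1 h2

/-- The shape of an ideal. -/
noncomputable def shp (D : Set ℤ) : Set ℤ := sh (bs D) D

/-- The type of shapes. -/
abbrev Shape (J : Finset ℕ) : Type := {D : Set ℤ // IsId J D ∧ (∀ i ≤ (0 : ℤ), i ∈ D) ∧ (1 : ℤ) ∉ D}

theorem bs_shape (x : Shape J) : bs x.1 = 0 :=
  bs_eq x.2.2.1 (by rw [zero_add]; exact x.2.2.2)

theorem shp_shape (x : Shape J) : shp x.1 = x.1 := by
  unfold shp
  rw [bs_shape, sh_zero]

theorem shp_sh {F : ℕ} (hf : Facts S φ g J F) {D : Set ℤ} (hD : IsId J D) (n : ℤ) :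
    shp (sh n D) = shp D := by
  obtain ⟨a, h1, h2, _⟩ := hf.base D hD
  have e1 : bs D = a := bs_eq h1 h2
  have e2 : bs (sh n D) = a - n := bs_eq
    (fun i hi => by rw [mem_sh]; exact h1 _ (by omega))
    (by rw [mem_sh, show a - n + 1 + n = a + 1 by ring]; exact h2)
  unfold shp
  rw [e1, e2, sh_sh, sub_add_cancel]

theorem shp_mem {F : ℕ} (hf : Facts S φ g J F) {D : Set ℤ} (hD : IsId J D) :
    IsId J (shp D) ∧ (∀ i ≤ (0 : ℤ), i ∈ shp D) ∧ (1 : ℤ) ∉ shp D := by
  obtain ⟨a, h1, h2, _⟩ := hf.base D hD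
  have e1 : bs D = a := bs_eq h1 h2
  refine ⟨isId_sh hD _, ?_, ?_⟩
  · intro i hi
    rw [shp, e1, mem_sh]
    exact h1 _ (by omega)
  · rw [shp, e1, mem_sh, add_comm]
    exact h2

theorem shape_finite {F : ℕ} (hf : Facts S φ g J F) : Finite (Shape J) := by
  apply Finite.of_injective (β := Set (Fin (F + 1))) (fun x => {n | ((n : ℕ) : ℤ) ∈ x.1})
  intro x y hxy
  apply Subtype.ext
  have hb : ∀ z : Shape J, ∀ i ∈ z.1, i ≤ (F : ℤ) := by
    intro z i hi
    obtain ⟨a, h1, h2, h3⟩ := hf.base z.1 z.2.1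
    have e : a = 0 := base_unique h1 h2 z.2.2.1 (by rw [zero_add]; exact z.2.2.2)
    have := h3 i hi
    omega
  ext i
  rcases le_or_gt i 0 with h | h
  · exact ⟨fun _ => y.2.2.1 i h, fun _ => x.2.2.1 i h⟩
  · rcases le_or_gt i F with h' | h'
    · have h0 : (⟨i.toNat, by omega⟩ : Fin (F + 1)) ∈ {n : Fin (F + 1) | ((n : ℕ) : ℤ) ∈ x.1} ↔
          (⟨i.toNat, by omega⟩ : Fin (F + 1)) ∈ {n : Fin (F + 1) | ((n : ℕ) : ℤ) ∈ y.1} := by
        simp only at hxy
        rw [hxy]
      simp only [Set.mem_ofPred_eq, Int.toNat_of_nonneg h.le] at h0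
      exact h0
    · constructor
      · intro hi; have := hb x i hi; omega
      · intro hi; have := hb y i hi; omega

/-- The lift of a function of the shape. -/
noncomputable def lift (J : Finset ℕ) (f : Shape J → ℝ) (D : Set ℤ) : ℝ :=
  if h : IsId J (shp D) ∧ (∀ i ≤ (0 : ℤ), i ∈ shp D) ∧ (1 : ℤ) ∉ shp D then f ⟨shp D, h⟩ else 0

theorem lift_shape (f : Shape J → ℝ) (x : Shape J) : lift J f x.1 = f x := by
  have h : IsId J (shp x.1) ∧ (∀ i ≤ (0 : ℤ), i ∈ shp x.1) ∧ (1 : ℤ) ∉ shp x.1 := by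
    rw [shp_shape]
    exact x.2
  unfold lift
  rw [dif_pos h]
  congr 1
  exact Subtype.ext (shp_shape x)

theorem lift_sh {F : ℕ} (hf : Facts S φ g J F) {D : Set ℤ} (hD : IsId J D) (n : ℤ)
    (f : Shape J → ℝ) : lift J f (sh n D) = lift J f D := by
  unfold lift
  simp only [shp_sh hf hD n]

theorem lift_eq {F : ℕ} (hf : Facts S φ g J F) {D : Set ℤ} (hD : IsId J D)
    (f : Shape J → ℝ) : lift J f D = f ⟨shp D, shp_mem hf hD⟩ := by
  unfold lift
  rw [dif_pos (shp_mem hf hD)]

/-- The jump rates between shapes. -/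
noncomputable def rate {F : ℕ} (hf : Facts S φ g J F) (x y : Shape J) : ℝ :=
  ∑ w ∈ (hf.fin x.1 x.2.1).toFinset,
    ((if shp (Tp S φ g J w x.1) = y.1 then (1 : ℝ) else 0) +
      (if shp (Tm S φ g J w x.1) = y.1 then (1 : ℝ) else 0))

theorem rate_nonneg {F : ℕ} (hf : Facts S φ g J F) (x y : Shape J) : 0 ≤ rate hf x y := by
  apply Finset.sum_nonneg
  intro w _
  apply add_nonneg <;> split_ifs <;> norm_num

theorem rate_sum [Fintype (Shape J)] {F : ℕ} (hf : Facts S φ g J F) (u : Shape J → ℝ)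
    (x : Shape J) : ∑ y, rate hf x y * (u y - u x) = LL S φ g J (lift J u) x.1 := by
  rw [ll_eq hf x.2.1]
  simp only [rate, Finset.sum_mul]
  rw [Finset.sum_comm]
  apply Finset.sum_congr rfl
  intro w _
  have key : ∀ E, IsId J E →
      ∑ y : Shape J, (if shp E = y.1 then (1 : ℝ) else 0) * (u y - u x) = lift J u E - u x := by
    intro E hE
    rw [lift_eq hf hE, Finset.sum_eq_single (⟨shp E, shp_mem hf hE⟩ : Shape J)]
    · rw [if_pos rfl, one_mul]
    · intro y _ hy
      rw [if_neg, zero_mul]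
      intro h
      exact hy (Subtype.ext h.symm)
    · intro h
      exact absurd (Finset.mem_univ _) h
  simp only [add_mul, Finset.sum_add_distrib, tm', lift_shape]
  rw [key _ (hf.tid x.1 w x.2.1).1, key _ (hf.tid x.1 w x.2.1).2]

/-! ### Reachability of the clean shape -/

theorem zero_mem_line (hS : Wind S k) (hL : LineData S φ g J) : (0 : G) ∈ S := by
  apply hS.zero_mem
  intro s hs h
  have h1 : φ s = 0 := by
    have : φ s = - φ s := by
      conv_lhs => rw [h]
      rw [map_neg]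
    omega
  obtain ⟨j, hj, _⟩ := hL.ker s hs h1
  have h2 : (j + j) • g = 0 := by
    rw [add_smul, ← hj]
    nth_rewrite 1 [h]
    exact neg_add_cancel s
  have h3 := hL.free _ h2
  have h4 : j = 0 := by omega
  rw [hj, h4, zero_smul]

theorem tp_g (hS : Wind S k) (hL : LineData S φ g J) {D : Set ℤ} (h0 : ∀ i ≤ (0 : ℤ), i ∈ D)
    (h1 : (1 : ℤ) ∉ D) : Tp S φ g J g D = D ∪ {1} := by
  have hinj : ∀ a b : ℤ, a • g = b • g → a = b := by
    intro a b hab
    have := hL.free (a - b) (by rw [sub_smul, hab, sub_self])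
    omega
  ext i
  simp only [Tp, Set.mem_ofPred_eq, Set.mem_union, Set.mem_singleton_iff]
  constructor
  · rintro (h | ⟨_, h3, h4⟩)
    · exact Or.inl h
    · right
      have e1 : g - i • g = (1 - i) • g := by rw [sub_smul, one_smul]
      rw [e1] at h4
      obtain ⟨j, hj, hj'⟩ := hL.ker _ h4 (by rw [map_zsmul, hL.phig, smul_zero])
      have hij : 1 - i = j := hinj _ _ hj
      rcases hj' with h5 | h5
      · omega
      · have h6 := h3.2 _ h5
        rcases le_or_gt j 0 with h7 | h7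
        · exfalso
          apply h1
          rw [show (1 : ℤ) = i - (j.natAbs : ℤ) by omega]
          exact h6
        · exfalso
          exact h3.1 (h0 i (by omega))
  · rintro (h | h)
    · exact Or.inl h
    · right
      subst h
      refine ⟨?_, ⟨h1, fun j hj => h0 _ ?_⟩, ?_⟩
      · rintro (h2 | ⟨i', hi', h2⟩)
        · rw [hL.phig] at h2
          exact lt_irrefl _ h2
        · have : i' = 1 := hinj _ _ (by rw [← h2, one_smul])
          rw [this] at hi'
          exact h1 hi'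
      · have := hL.pos j hj
        omega
      · rw [one_smul, sub_self]
        exact zero_mem_line hS hL

/-- The holes of an ideal. -/
def holes (D : Set ℤ) : Set ℤ := {i | i ∉ D ∧ ∃ i' ∈ D, i < i'}

theorem holes_sh (n : ℤ) (D : Set ℤ) : (holes (sh n D)).ncard = (holes D).ncard := by
  have : holes D = (fun i => i + n) '' holes (sh n D) := by
    ext i
    simp only [holes, Set.mem_ofPred_eq, Set.mem_image, mem_sh]
    constructor
    · rintro ⟨h1, i', h2, h3⟩
      exact ⟨i - n, ⟨by rw [sub_add_cancel]; exact h1, i' - n,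
        by rw [sub_add_cancel]; exact h2, by omega⟩, by ring⟩
    · rintro ⟨x, ⟨h1, i', h2, h3⟩, rfl⟩
      exact ⟨h1, i' + n, h2, by omega⟩
  rw [this, Set.ncard_image_of_injective _ (add_left_injective n)]

/-- The clean shape. -/
theorem clean_mem (hL : LineData S φ g J) :
    IsId J (Set.Iic (0 : ℤ)) ∧ (∀ i ≤ (0 : ℤ), i ∈ Set.Iic (0 : ℤ)) ∧
      (1 : ℤ) ∉ Set.Iic (0 : ℤ) := by
  refine ⟨⟨⟨0, Set.mem_Iic.2 le_rfl⟩, ⟨1, by simp⟩, ?_⟩, fun i hi => hi, by simp⟩
  intro i hi j hj
  have := hL.pos j hj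
  simp only [Set.mem_Iic] at hi ⊢
  omega

theorem reach {F : ℕ} (hS : Wind S k) (hL : LineData S φ g J) (hf : Facts S φ g J F) :
    ∀ n : ℕ, ∀ x : Shape J, (holes x.1).ncard ≤ n →
      Relation.ReflTransGen (fun x y => 0 < rate hf x y) x ⟨Set.Iic 0, clean_mem hL⟩ := by
  intro n
  induction n with
  | zero =>
    intro x hx
    have hfin : (holes x.1).Finite := by
      obtain ⟨a, _, _, h3⟩ := hf.base x.1 x.2.1
      apply (Set.finite_Icc 1 (a + F)).subset
      rintro i ⟨h4, i', h5, h6⟩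
      refine ⟨?_, by have := h3 i' h5; omega⟩
      by_contra hcon
      exact h4 (x.2.2.1 i (by omega))
    have h0 : holes x.1 = ∅ := by
      rw [← Set.ncard_eq_zero hfin]
      omega
    have : x = ⟨Set.Iic 0, clean_mem hL⟩ := by
      apply Subtype.ext
      ext i
      simp only [Set.mem_Iic]
      constructor
      · intro hi
        by_contra hcon
        have : (1 : ℤ) ∈ holes x.1 := by
          refine ⟨x.2.2.2, i, hi, ?_⟩
          rcases eq_or_lt_of_le (show (1 : ℤ) ≤ i by omega) with h | h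
          · exact absurd (h ▸ hi) x.2.2.2
          · exact h
        rw [h0] at this
        exact this
      · exact x.2.2.1 i
    rw [this]
  | succ n ih =>
    intro x hx
    by_cases hcl : x = ⟨Set.Iic 0, clean_mem hL⟩
    · rw [hcl]
    · -- there is an element above 1
      have hex : ∃ i ∈ x.1, 1 < i := by
        by_contra hcon
        push Not at hcon
        apply hcl
        apply Subtype.ext
        ext i
        simp only [Set.mem_Iic]
        constructor
        · intro hi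
          by_contra h
          have h2 := hcon i hi
          have h3 : i = 1 := by omega
          exact x.2.2.2 (h3 ▸ hi)
        · exact x.2.2.1 i
      obtain ⟨i0, hi0, hi1⟩ := hex
      have hT := tp_g hS hL x.2.2.1 x.2.2.2
      have hId : IsId J (Tp S φ g J g x.1) := (hf.tid x.1 g x.2.1).1
      let y : Shape J := ⟨shp (Tp S φ g J g x.1), shp_mem hf hId⟩
      have hzone : g ∈ Zone S g J x.1 := by
        refine ⟨1, Or.inl ⟨x.2.2.2, fun j hj => x.2.2.1 _ ?_⟩, ?_⟩
        · have := hL.pos j hj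
          omega
        · rw [one_smul, sub_self]
          exact zero_mem_line hS hL
      have hrate : 0 < rate hf x y := by
        unfold rate
        apply Finset.sum_pos'
        · intro w _
          apply add_nonneg <;> split_ifs <;> norm_num
        · refine ⟨g, (Set.Finite.mem_toFinset _).2 hzone, ?_⟩
          rw [if_pos (show shp (Tp S φ g J g x.1) = y.1 from rfl)]
          split_ifs <;> norm_num
      have hfin : (holes x.1).Finite := by
        obtain ⟨a, _, _, h3⟩ := hf.base x.1 x.2.1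
        apply (Set.finite_Icc 1 (a + F)).subset
        rintro i ⟨h4, i', h5, h6⟩
        refine ⟨?_, by have := h3 i' h5; omega⟩
        by_contra hcon
        exact h4 (x.2.2.1 i (by omega))
      have hlt : (holes y.1).ncard < (holes x.1).ncard := by
        have e1 : (holes y.1).ncard = (holes (x.1 ∪ {1})).ncard := by
          show (holes (shp (Tp S φ g J g x.1))).ncard = _
          rw [shp, holes_sh, hT]
        rw [e1]
        apply Set.ncard_lt_ncard _ hfin
        refine ⟨?_, ?_⟩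
        · rintro i ⟨h1, i', h2, h3⟩
          refine ⟨fun h => h1 (Or.inl h), ?_⟩
          rcases h2 with h2 | h2
          · exact ⟨i', h2, h3⟩
          · rw [Set.mem_singleton_iff] at h2
            exact absurd (Or.inl (x.2.2.1 i (by omega))) h1
        · intro hsub
          have h1 : (1 : ℤ) ∈ holes x.1 := ⟨x.2.2.2, i0, hi0, hi1⟩
          exact (hsub h1).1 (Or.inr rfl)
      exact Relation.ReflTransGen.head hrate (ih y (by omega))

/-! ### The theorem -/

theorem corr (hI : IDEAL_S) (hP : POISSON_S) : CORR_S := by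
  intro G _ S k φ g J hS hL
  obtain ⟨t1, t2, F, t3⟩ := hI G S k φ g J hS hL
  have hf : Facts S φ g J F := ⟨t1, t2, fun D hD => (t3 D hD).1, fun D hD => by
    obtain ⟨_, _, a, a1, a2, a3, _⟩ := t3 D hD
    exact ⟨a, a1, a2, a3⟩⟩
  have := shape_finite hf
  let _ : Fintype (Shape J) := Fintype.ofFinite _
  set x0 : Shape J := ⟨Set.Iic 0, clean_mem hL⟩ with hx0
  have hreach : ∀ x : Shape J, Relation.ReflTransGen (fun x y => 0 < rate hf x y) x x0 :=
    fun x => reach hS hL hf _ x le_rfl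
  have hshN : ∀ D, IsId J D → ∀ n : ℤ, NN (sh n D) = NN D - n := by
    intro D hD n
    obtain ⟨a, a1, _, a3⟩ := hf.base D hD
    exact nn_sh a1 a3 n
  -- the drift of NN
  set Nf : Set ℤ → ℝ := fun E => (NN E : ℝ) with hNf
  have hNsh : ∀ D, IsId J D → ∀ n : ℤ, LL S φ g J Nf (sh n D) = LL S φ g J Nf D := by
    intro D hD n
    rw [ll_sh hL.phig, ll_congr hf hD (f' := fun E => Nf E + (-(n : ℝ))) ?_, ll_addc hf hD]
    intro E hE
    simp only [hNf, hshN E hE n]
    push_cast
    ring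
  have hNstar : ∀ D, IsId J D → LL S φ g J Nf (star D) = - LL S φ g J Nf D := by
    intro D hD
    rw [ll_star hS hL, ll_congr hf hD (f' := fun E => - Nf E) ?_, ll_neg hf hD]
    intro E _
    simp only [hNf, nn_star]
    push_cast
    ring
  have hlsh : ∀ (u : Shape J → ℝ) D, IsId J D → ∀ n : ℤ,
      LL S φ g J (lift J u) (sh n D) = LL S φ g J (lift J u) D := by
    intro u D hD n
    rw [ll_sh hL.phig]
    apply ll_congr hf hD
    intro E hE
    exact lift_sh hf hE n u
  obtain ⟨u, lam, e1, e2, _⟩ := hP (Shape J) (rate hf) x0 (rate_nonneg hf) hreach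
    (fun x => LL S φ g J Nf x.1)
  have e1' : ∀ x : Shape J, LL S φ g J (lift J u) x.1 = -(LL S φ g J Nf x.1 - lam) := by
    intro x
    rw [← rate_sum hf]
    exact e1 x
  have hlam : lam = 0 := by
    have h2 := e2 (fun x => - u ⟨shp (star x.1), shp_mem hf (isId_star x.2.1)⟩) (-lam) (by
      intro x
      rw [rate_sum hf, ll_congr hf x.2.1 (f' := fun E => - lift J u (star E)) ?_, ll_neg hf x.2.1]
      · rw [← ll_star hS hL]
        have hst : IsId J (star x.1) := isId_star x.2.1
        have h3 : LL S φ g J (lift J u) (star x.1) =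
            LL S φ g J (lift J u) (shp (star x.1)) := (hlsh u _ hst _).symm
        have h4 := e1' ⟨shp (star x.1), shp_mem hf hst⟩
        simp only at h4
        rw [h3, h4, shp, hNsh _ hst, hNstar _ x.2.1]
        ring
      · intro E hE
        rw [lift_eq hf hE, lift_eq hf (isId_star hE)]
        have h5 : shp (star (shp E)) = shp (star E) := by
          show shp (star (sh (bs E) E)) = shp (star E)
          rw [star_sh, shp_sh hf (isId_star hE)]
        simp only [h5])
    linarith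
  -- the harmonic function
  set h : Set ℤ → ℝ := fun D => Nf D + lift J u D with hh
  have hLh : ∀ D, IsId J D → LL S φ g J h D = 0 := by
    intro D hD
    rw [hh, ll_add hf hD]
    have h1 := e1' ⟨shp D, shp_mem hf hD⟩
    simp only at h1
    rw [shp, hlsh u D hD, hNsh D hD, hlam] at h1
    rw [h1]
    ring
  have hhsh : ∀ D, IsId J D → ∀ n : ℤ, h (sh n D) = h D - n := by
    intro D hD n
    simp only [hh, hNf, hshN D hD n, lift_sh hf hD]
    push_cast
    ring
  have hsq : ∀ D (hD : IsId J D), LL S φ g J (fun E => h E ^ 2) D =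
      ∑ w ∈ (hf.fin D hD).toFinset,
        ((h (Tp S φ g J w D) - h D) ^ 2 + (h (Tm S φ g J w D) - h D) ^ 2) := by
    intro D hD
    have h1 : LL S φ g J (fun E => h E ^ 2) D =
      ∑ w ∈ (hf.fin D hD).toFinset,
        ((h (Tp S φ g J w D) - h D) ^ 2 + (h (Tm S φ g J w D) - h D) ^ 2) +
        2 * h D * LL S φ g J h D := by
      rw [ll_eq hf hD, ll_eq hf hD, Finset.mul_sum, ← Finset.sum_add_distrib]
      apply Finset.sum_congr rfl
      intro w _
      simp only [tm']
      ring
    rw [h1, hLh D hD]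
    ring
  have hsqsh : ∀ D, IsId J D → ∀ n : ℤ,
      LL S φ g J (fun E => h E ^ 2) (sh n D) = LL S φ g J (fun E => h E ^ 2) D := by
    intro D hD n
    rw [ll_sh hL.phig, ll_congr hf hD (f' := fun E => (h E ^ 2 + (-2 * n) * h E) + (n : ℝ) ^ 2) ?_,
      ll_addc hf hD, ll_add hf hD]
    · have h2 : LL S φ g J (fun E => -2 * (n : ℝ) * h E) D = 0 := by
        have h3 : LL S φ g J (fun E => -2 * (n : ℝ) * h E) D =
            -2 * (n : ℝ) * LL S φ g J h D := by
          rw [ll_eq hf hD, ll_eq hf hD, Finset.mul_sum]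
          apply Finset.sum_congr rfl
          intro w _
          simp only [tm']
          ring
        rw [h3, hLh D hD, mul_zero]
      rw [h2, add_zero]
    · intro E hE
      simp only [hhsh E hE n]
      ring
  obtain ⟨q0, lam2, d1, _, d3⟩ := hP (Shape J) (rate hf) x0 (rate_nonneg hf) hreach
    (fun x => LL S φ g J (fun E => h E ^ 2) x.1)
  have hpos : 0 < lam2 := by
    apply d3
    · intro x
      rw [hsq x.1 x.2.1]
      apply Finset.sum_nonneg
      intro w _
      positivity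
    · rw [hsq x0.1 x0.2.1]
      apply Finset.sum_pos'
      · intro w _
        positivity
      · have hzone : g ∈ Zone S g J x0.1 := by
          refine ⟨1, Or.inl ⟨x0.2.2.2, fun j hj => x0.2.2.1 _ ?_⟩, ?_⟩
          · have := hL.pos j hj
            omega
          · rw [one_smul, sub_self]
            exact zero_mem_line hS hL
        refine ⟨g, (Set.Finite.mem_toFinset _).2 hzone, ?_⟩
        have h1 : Tp S φ g J g x0.1 = sh (-1) x0.1 := by
          rw [tp_g hS hL x0.2.2.1 x0.2.2.2]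
          ext i
          simp only [hx0, Set.mem_union, Set.mem_Iic, Set.mem_singleton_iff, mem_sh]
          omega
        rw [h1, hhsh _ x0.2.1]
        have h2 : (h x0.1 - ((-1 : ℤ) : ℝ) - h x0.1) ^ 2 = 1 := by
          push_cast
          ring
        rw [h2]
        positivity
  refine ⟨h, lift J q0, (∑ x, |u x|) + ∑ x, |q0 x|, lam2, hpos, ?_⟩
  intro D hD
  have hb : ∀ v : Shape J → ℝ, |lift J v D| ≤ ∑ x, |v x| := by
    intro v
    rw [lift_eq hf hD]
    exact Finset.single_le_sum (f := fun x => |v x|) (fun x _ => abs_nonneg _)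
      (Finset.mem_univ _)
  have hn : ∀ v : Shape J → ℝ, 0 ≤ ∑ x, |v x| :=
    fun v => Finset.sum_nonneg (fun x _ => abs_nonneg _)
  refine ⟨?_, ?_, hLh D hD, ?_⟩
  · have h1 : h D - (NN D : ℝ) = lift J u D := by
      simp only [hh, hNf]
      ring
    rw [h1]
    linarith [hb u, hn q0]
  · linarith [hb q0, hn u]
  · rw [ll_add hf hD]
    have h1 : LL S φ g J (fun E => h E ^ 2) D =
        LL S φ g J (fun E => h E ^ 2) (shp D) := (hsqsh D hD _).symm
    have h2 : LL S φ g J (lift J q0) D = LL S φ g J (lift J q0) (shp D) := (hlsh q0 D hD _).symm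
    have h3 := d1 ⟨shp D, shp_mem hf hD⟩
    rw [rate_sum hf] at h3
    rw [h1, h2, h3]
    ring

end Pool.Agent.Lib.MP_fdcb14_pr.H97
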