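import Mathlib
import Pool.Agent.Lib.MP_fdcb14_pr.W.Interfaces
import Pool.Agent.Lib.MP_fdcb14_pr.W.Base

/-!
# MP_fdcb14_pr: the deterministic slab theorem (module GLOBAL)
-/

namespace Pool.Agent.Lib.MP_fdcb14_pr.H97

open Pool.Agent.Lib.MP_fdcb14_pr Classical

/-- A box with its generating seeds and its history length. -/
structure Tri (ι G : Type) where
  lo : ι → ℤ
  hi : ι → ℤ
  A : Finset (ℕ × G)
  h : ℕ

variable {G : Type} [AddCommGroup G] {ι : Type}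

/-- The box of a triple. -/
def Tri.bx (ψ : ι → G →+ ℤ) (T : Tri ι G) : Set G := box ψ T.lo T.hi

/-- The invariant of the triples in slab `i`. -/
structure Ok (ψ : ι → G →+ ℤ) (ρ N : ℕ) (U : ℕ → Finset G) (i : ℕ) (T : Tri ι G) : Prop where
  sub : ∀ p ∈ T.A, p.1 ≤ i ∧ i < p.1 + T.h ∧ p.2 ∈ U p.1 ∧ p.2 ∈ T.bx ψ
  ne : T.A.Nonempty
  size : ∀ a, T.hi a - T.lo a + 2 * ρ ≤ (2 * ρ + 1) * (T.A.card : ℤ)
  mid : ∀ j, j < i → i < j + T.h → ∃ v ∈ U j, v ∈ T.bx ψ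
  small : ∀ a, T.hi a - T.lo a + 2 * ρ ≤ (2 * ρ + 1) * (N : ℤ)

/-- Separation of two boxes. -/
def Sep (ψ : ι → G →+ ℤ) (ρ : ℕ) (B B' : Set G) : Prop :=
  ∀ v ∈ B, ∀ v' ∈ B', ∃ a, (2 * ρ : ℤ) < |ψ a v - ψ a v'|

theorem mem_bx {ψ : ι → G →+ ℤ} {T : Tri ι G} {v : G} :
    v ∈ T.bx ψ ↔ ∀ a, T.lo a ≤ ψ a v ∧ ψ a v ≤ T.hi a := Iff.rfl

theorem bx_subset_ball {ψ : ι → G →+ ℤ} {T : Tri ι G} {R : ℕ} (hR : ∀ a, T.hi a - T.lo a ≤ R)
    {u : G} (hu : u ∈ T.bx ψ) : T.bx ψ ⊆ ball ψ u R := by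
  intro v hv a
  have h1 := mem_bx.1 hu a
  have h2 := mem_bx.1 hv a
  have h3 := hR a
  rw [abs_le]
  constructor <;> omega

/-- The hypothesis `(H1)` at slab `i`. -/
def H1 (ψ : ι → G →+ ℤ) (N R : ℕ) (U : ℕ → Finset G) (i : ℕ) : Prop :=
  ∀ (u : G) (A : Finset (ℕ × G)),
    (∀ p ∈ A, i < p.1 + 2 * N ∧ p.1 ≤ i ∧ p.2 ∈ U p.1 ∧ p.2 ∈ ball ψ u R) → A.card < N

/-- The hull of two triples. -/
noncomputable def Tri.hull (T T' : Tri ι G) : Tri ι G where
  lo := fun a => min (T.lo a) (T'.lo a)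
  hi := fun a => max (T.hi a) (T'.hi a)
  A := T.A ∪ T'.A
  h := max T.h T'.h

theorem bx_hull_left {ψ : ι → G →+ ℤ} (T T' : Tri ι G) : T.bx ψ ⊆ (T.hull T').bx ψ := by
  intro v hv a
  have := mem_bx.1 hv a
  simp only [Tri.hull]
  omega

theorem bx_hull_right {ψ : ι → G →+ ℤ} (T T' : Tri ι G) : T'.bx ψ ⊆ (T.hull T').bx ψ := by
  intro v hv a
  have := mem_bx.1 hv a
  simp only [Tri.hull]
  omega

theorem ok_hull {ψ : ι → G →+ ℤ} {ρ N R : ℕ} {U : ℕ → Finset G} {i : ℕ} (hN : 1 ≤ N)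
    (hR : R = 4 * (2 * ρ + 1) * N) (h1 : H1 ψ N R U i) {T T' : Tri ι G}
    (hT : Ok ψ ρ N U i T) (hT' : Ok ψ ρ N U i T') (hd : Disjoint T.A T'.A)
    (hs : ¬ Sep ψ ρ (T.bx ψ) (T'.bx ψ)) : Ok ψ ρ N U i (T.hull T') := by
  unfold Sep at hs
  push Not at hs
  obtain ⟨v, hv, v', hv', hvv⟩ := hs
  have hsz : ∀ a, (T.hull T').hi a - (T.hull T').lo a + 2 * ρ ≤
      (T.hi a - T.lo a + 2 * ρ) + (T'.hi a - T'.lo a + 2 * ρ) := by
    intro a
    have e1 := mem_bx.1 hv a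
    have e2 := mem_bx.1 hv' a
    have e3 := hvv a
    rw [abs_le] at e3
    simp only [Tri.hull]
    omega
  have hsub : ∀ p ∈ (T.hull T').A, p.1 ≤ i ∧ i < p.1 + (T.hull T').h ∧ p.2 ∈ U p.1 ∧
      p.2 ∈ (T.hull T').bx ψ := by
    intro p hp
    rcases Finset.mem_union.1 hp with hp | hp
    · obtain ⟨a1, a2, a3, a4⟩ := hT.sub p hp
      exact ⟨a1, lt_of_lt_of_le a2 (Nat.add_le_add_left (le_max_left _ _) _), a3,
        bx_hull_left T T' a4⟩
    · obtain ⟨a1, a2, a3, a4⟩ := hT'.sub p hp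
      exact ⟨a1, lt_of_lt_of_le a2 (Nat.add_le_add_left (le_max_right _ _) _), a3,
        bx_hull_right T T' a4⟩
  have hne : (T.hull T').A.Nonempty := by
    obtain ⟨p, hp⟩ := hT.ne
    exact ⟨p, Finset.mem_union_left _ hp⟩
  have hcard : (T.hull T').A.card = T.A.card + T'.A.card := Finset.card_union_of_disjoint hd
  have hmid : ∀ j, j < i → i < j + (T.hull T').h → ∃ v ∈ U j, v ∈ (T.hull T').bx ψ := by
    intro j hj hij
    simp only [Tri.hull] at hij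
    rcases le_total T.h T'.h with hh | hh
    · rw [max_eq_right hh] at hij
      obtain ⟨w, hw, hwb⟩ := hT'.mid j hj hij
      exact ⟨w, hw, bx_hull_right T T' hwb⟩
    · rw [max_eq_left hh] at hij
      obtain ⟨w, hw, hwb⟩ := hT.mid j hj hij
      exact ⟨w, hw, bx_hull_left T T' hwb⟩
  have hRz : (R : ℤ) = 4 * ((2 * ρ + 1) * (N : ℤ)) := by rw [hR]; push_cast; ring
  have hsizeR : ∀ a, (T.hull T').hi a - (T.hull T').lo a ≤ R := by
    intro a
    have e1 := hsz a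
    have e2 := hT.small a
    have e3 := hT'.small a
    have e4 : (0 : ℤ) ≤ (2 * ρ + 1) * (N : ℤ) := by positivity
    rw [hRz]
    omega
  obtain ⟨p0, hp0⟩ := hne
  have hball : (T.hull T').bx ψ ⊆ ball ψ p0.2 R := bx_subset_ball hsizeR (hsub p0 hp0).2.2.2
  have hwin : ∀ p ∈ (T.hull T').A, i < p.1 + 2 * N := by
    intro p hp
    by_contra hcon
    have hiN : N ≤ i := by omega
    have hh : N < (T.hull T').h := by
      have := (hsub p hp).2.1
      omega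
    -- choose a seed in each of the slabs i-N, ..., i-1
    have hch : ∀ j : ℕ, i - N ≤ j → j < i → ∃ v ∈ U j, v ∈ (T.hull T').bx ψ := by
      intro j hj1 hj2
      exact hmid j hj2 (by omega)
    choose! w hw using hch
    have hA := h1 p0.2 ((Finset.Ico (i - N) i).image (fun j => (j, w j))) (by
      intro q hq
      rw [Finset.mem_image] at hq
      obtain ⟨j, hj, rfl⟩ := hq
      rw [Finset.mem_Ico] at hj
      obtain ⟨b1, b2⟩ := hw j hj.1 hj.2
      refine ⟨?_, by simp only; omega, b1, hball b2⟩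
      simp only
      omega)
    rw [Finset.card_image_of_injective _ (fun a b hab => (Prod.mk.inj hab).1),
      Nat.card_Ico] at hA
    omega
  have hlt : (T.hull T').A.card < N := by
    apply h1 p0.2
    intro p hp
    obtain ⟨a1, _, a3, a4⟩ := hsub p hp
    exact ⟨hwin p hp, a1, a3, hball a4⟩
  have hsize : ∀ a, (T.hull T').hi a - (T.hull T').lo a + 2 * ρ ≤
      (2 * ρ + 1) * ((T.hull T').A.card : ℤ) := by
    intro a
    have e1 := hsz a
    have e2 := hT.size a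
    have e3 := hT'.size a
    rw [hcard]
    push_cast
    rw [mul_add]
    omega
  refine ⟨hsub, ⟨p0, hp0⟩, hsize, hmid, ?_⟩
  intro a
  refine le_trans (hsize a) ?_
  have : ((T.hull T').A.card : ℤ) ≤ N := by exact_mod_cast hlt.le
  exact mul_le_mul_of_nonneg_left this (by positivity)

/-- The merging process. -/
theorem merge {ψ : ι → G →+ ℤ} {ρ N R : ℕ} {U : ℕ → Finset G} {i : ℕ} (hN : 1 ≤ N)
    (hR : R = 4 * (2 * ρ + 1) * N) (h1 : H1 ψ N R U i) :
    ∀ n : ℕ, ∀ F : Finset (Tri ι G), F.card ≤ n → (∀ T ∈ F, Ok ψ ρ N U i T) →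
      (∀ T ∈ F, ∀ T' ∈ F, T ≠ T' → Disjoint T.A T'.A) →
      ∃ F' : Finset (Tri ι G), (∀ T ∈ F', Ok ψ ρ N U i T) ∧
        (∀ T ∈ F', ∀ T' ∈ F', T ≠ T' → Disjoint T.A T'.A) ∧
        (∀ T ∈ F', ∀ T' ∈ F', T ≠ T' → Sep ψ ρ (T.bx ψ) (T'.bx ψ)) ∧
        (∀ T ∈ F, ∃ T' ∈ F', T.bx ψ ⊆ T'.bx ψ) := by
  intro n
  induction n with
  | zero =>
    intro F hF hok hdis
    rw [Nat.le_zero, Finset.card_eq_zero] at hF
    subst hF
    exact ⟨∅, by simp, by simp, by simp, by simp⟩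
  | succ n ih =>
    intro F hF hok hdis
    by_cases hsep : ∀ T ∈ F, ∀ T' ∈ F, T ≠ T' → Sep ψ ρ (T.bx ψ) (T'.bx ψ)
    · exact ⟨F, hok, hdis, hsep, fun T hT => ⟨T, hT, subset_rfl⟩⟩
    · push Not at hsep
      obtain ⟨T, hT, T', hT', hne, hns⟩ := hsep
      set F1 : Finset (Tri ι G) := insert (T.hull T') ((F.erase T).erase T') with hF1
      have hT'e : T' ∈ F.erase T := Finset.mem_erase.2 ⟨fun h => hne h.symm, hT'⟩
      have hcard : F1.card ≤ n := by
        have c1 : ((F.erase T).erase T').card = (F.erase T).card - 1 :=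
          Finset.card_erase_of_mem hT'e
        have c2 : (F.erase T).card = F.card - 1 := Finset.card_erase_of_mem hT
        have c3 : 0 < (F.erase T).card := Finset.card_pos.2 ⟨T', hT'e⟩
        have c4 : F1.card ≤ ((F.erase T).erase T').card + 1 := by
          rw [hF1]
          exact Finset.card_insert_le _ _
        omega
      have hhull := ok_hull hN hR h1 (hok T hT) (hok T' hT') (hdis T hT T' hT' hne) hns
      have hrest : ∀ X ∈ (F.erase T).erase T', X ∈ F ∧ X ≠ T ∧ X ≠ T' := by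
        intro X hX
        rw [Finset.mem_erase, Finset.mem_erase] at hX
        exact ⟨hX.2.2, hX.2.1, hX.1⟩
      have hdh : ∀ X ∈ (F.erase T).erase T', Disjoint (T.hull T').A X.A := by
        intro X hX
        obtain ⟨x1, x2, x3⟩ := hrest X hX
        rw [show (T.hull T').A = T.A ∪ T'.A from rfl, Finset.disjoint_union_left]
        exact ⟨hdis T hT X x1 x2.symm, hdis T' hT' X x1 x3.symm⟩
      obtain ⟨F', g1, g2, g3, g4⟩ := ih F1 hcard (by
        intro X hX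
        rw [hF1, Finset.mem_insert] at hX
        rcases hX with rfl | hX
        · exact hhull
        · exact hok X (hrest X hX).1) (by
        intro X hX Y hY hXY
        rw [hF1, Finset.mem_insert] at hX hY
        rcases hX with rfl | hX
        · rcases hY with rfl | hY
          · exact absurd rfl hXY
          · exact hdh Y hY
        · rcases hY with rfl | hY
          · exact (hdh X hX).symm
          · exact hdis X (hrest X hX).1 Y (hrest Y hY).1 hXY)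
      refine ⟨F', g1, g2, g3, ?_⟩
      intro X hX
      obtain ⟨H, hH, hHs⟩ := g4 (T.hull T') (by rw [hF1]; exact Finset.mem_insert_self _ _)
      by_cases e1 : X = T
      · exact ⟨H, hH, by rw [e1]; exact (bx_hull_left T T').trans hHs⟩
      · by_cases e2 : X = T'
        · exact ⟨H, hH, by rw [e2]; exact (bx_hull_right T T').trans hHs⟩
        · exact g4 X (by
            rw [hF1, Finset.mem_insert]
            right
            rw [Finset.mem_erase, Finset.mem_erase]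
            exact ⟨e2, e1, hX⟩)

/-- The union of the boxes of a family. -/
def Un (ψ : ι → G →+ ℤ) (F : Finset (Tri ι G)) : Set G := {v | ∃ T ∈ F, v ∈ T.bx ψ}

theorem robust_Un [Fintype ι] [Nonempty ι] {S : Finset G} {k : ℕ} {ψ : ι → G →+ ℤ} {ρ : ℕ}
    (hS : Wind S k) (hF : Funs S ψ ρ) (F : Finset (Tri ι G))
    (hsep : ∀ T ∈ F, ∀ T' ∈ F, T ≠ T' → Sep ψ ρ (T.bx ψ) (T'.bx ψ)) :
    Robust S k (Un ψ F) := by
  obtain ⟨a⟩ := (inferInstance : Nonempty ι)
  have hk : 1 ≤ k := by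
    have := card_neg_lt hS hF (ψ a) (hF.ker a)
    omega
  have h1 : Un ψ F = ⋃₀ {B | ∃ T ∈ F, B = T.bx ψ} := by
    ext v
    simp only [Un, Set.mem_ofPred_eq, Set.mem_sUnion]
    constructor
    · rintro ⟨T, hT, hv⟩
      exact ⟨T.bx ψ, ⟨T, hT, rfl⟩, hv⟩
    · rintro ⟨B, ⟨T, hT, rfl⟩, hv⟩
      exact ⟨T, hT, hv⟩
  rw [h1]
  apply robust_sUnion hk
  · rintro B ⟨T, hT, rfl⟩
    exact robust_box hS hF _ _
  · rintro B ⟨T, hT, rfl⟩ B' ⟨T', hT', rfl⟩ hne v s hs s' hs' hv hv'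
    have hTT : T ≠ T' := fun h => hne (by rw [h])
    obtain ⟨b, hb⟩ := hsep T hT T' hT' hTT _ hv _ hv'
    have e1 := hF.bd s hs b
    have e2 := hF.bd s' hs' b
    have e3 : ψ b (v + s) - ψ b (v + s') = ψ b s - ψ b s' := by
      rw [map_add, map_add]; ring
    rw [e3] at hb
    rw [abs_le] at e1 e2
    rw [lt_abs] at hb
    omega

/-- The invariant at slab `i`. -/
structure Inv (S : Finset G) (k : ℕ) (ψ : ι → G →+ ℤ) (ρ N l : ℕ) (ξ : ℕ → G → Err)
    (U : ℕ → Finset G) (i : ℕ) (F : Finset (Tri ι G)) : Prop where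
  ok : ∀ T ∈ F, Ok ψ ρ N U i T
  dis : ∀ T ∈ F, ∀ T' ∈ F, T ≠ T' → Disjoint T.A T'.A
  sep : ∀ T ∈ F, ∀ T' ∈ F, T ≠ T' → Sep ψ ρ (T.bx ψ) (T'.bx ψ)
  seeds : ∀ v ∈ U i, v ∈ Un ψ F
  start : evo S k Set.univ ξ ∅ (i * l) ⊆ Un ψ F

theorem small_le {ρ N R : ℕ} (hR : R = 4 * (2 * ρ + 1) * N) {ψ : ι → G →+ ℤ}
    {U : ℕ → Finset G} {i : ℕ} {T : Tri ι G} (hT : Ok ψ ρ N U i T) (a : ι) :
    T.hi a - T.lo a ≤ R := by
  have e2 := hT.small a
  have e4 : (0 : ℤ) ≤ (2 * ρ + 1) * (N : ℤ) := by positivity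
  have hRz : (R : ℤ) = 4 * ((2 * ρ + 1) * (N : ℤ)) := by rw [hR]; push_cast; ring
  rw [hRz]
  omega

/-- Inside the slab the outputs stay in the union of the boxes. -/
theorem in_slab [Fintype ι] [Nonempty ι] {S : Finset G} {k : ℕ} {ψ : ι → G →+ ℤ} {ρ N l : ℕ}
    (hS : Wind S k) (hF : Funs S ψ ρ) {ξ : ℕ → G → Err} {U : ℕ → Finset G}
    (hU : ∀ i v, v ∈ U i ↔ ∃ t, i * l ≤ t ∧ t < (i + 1) * l ∧ Seed S (ξ t) v)
    {i : ℕ} {F : Finset (Tri ι G)} (hI : Inv S k ψ ρ N l ξ U i F) :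
    ∀ t, t ≤ l → evo S k Set.univ ξ ∅ (i * l + t) ⊆ Un ψ F := by
  intro t
  induction t with
  | zero => intro _; exact hI.start
  | succ t ih =>
    intro ht v hv
    rw [← Nat.add_assoc, evo_succ] at hv
    rcases nxt_subset_of_robust (robust_Un hS hF F hI.sep) Set.univ _ (ih (by omega)) hv with h | h
    · exact h
    · apply hI.seeds
      rw [hU]
      exact ⟨i * l + t, by omega, by rw [Nat.add_mul, one_mul]; omega, h⟩

/-- Inside a box the process is dominated by the restricted process. -/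
theorem dom_box [Fintype ι] [Nonempty ι] {S : Finset G} {k : ℕ} {ψ : ι → G →+ ℤ} {ρ N l : ℕ}
    (hS : Wind S k) (hF : Funs S ψ ρ) {ξ : ℕ → G → Err} {U : ℕ → Finset G}
    (hU : ∀ i v, v ∈ U i ↔ ∃ t, i * l ≤ t ∧ t < (i + 1) * l ∧ Seed S (ξ t) v)
    {i : ℕ} {F : Finset (Tri ι G)} (hI : Inv S k ψ ρ N l ξ U i F) {T : Tri ι G} (hT : T ∈ F) :
    ∀ t, t ≤ l → evo S k Set.univ ξ ∅ (i * l + t) ∩ T.bx ψ ⊆
      evo S k (T.bx ψ) (fun t => ξ (i * l + t)) (T.bx ψ) t := by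
  intro t
  induction t with
  | zero => intro _; exact Set.inter_subset_right
  | succ t ih =>
    rintro ht v ⟨hv, hvT⟩
    rw [← Nat.add_assoc, evo_succ] at hv
    rw [evo_succ]
    refine ⟨hvT, le_trans hv.2 (cnt_mono' S v ?_)⟩
    intro s hs h
    rcases h with h | ⟨h, h'⟩
    · exact Or.inl h
    · refine Or.inr ⟨ih (by omega) ⟨h, ?_⟩, h'⟩
      obtain ⟨T', hT', h2⟩ := in_slab hS hF hU hI t (by omega) h
      by_cases e : T = T'
      · rw [e]; exact h2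
      · exfalso
        obtain ⟨b, hb⟩ := hI.sep T hT T' hT' e _ hvT _ h2
        have e1 := hF.bd s hs b
        rw [map_add] at hb
        rw [abs_le] at e1
        rw [lt_abs] at hb
        omega

/-- At the end of the slab only boxes with seeds of the slab survive. -/
theorem survive [Fintype ι] [Nonempty ι] {S : Finset G} {k : ℕ} {ψ : ι → G →+ ℤ} {ρ N R l : ℕ}
    (hS : Wind S k) (hF : Funs S ψ ρ) (hR : R = 4 * (2 * ρ + 1) * N) {ξ : ℕ → G → Err}
    {U : ℕ → Finset G}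
    (hU : ∀ i v, v ∈ U i ↔ ∃ t, i * l ≤ t ∧ t < (i + 1) * l ∧ Seed S (ξ t) v)
    {i : ℕ}
    (h2 : ∀ j : ℕ, j ≤ i → ∀ u ∈ U j, ∀ lo hi : ι → ℤ, box ψ lo hi ⊆ ball ψ u R →
      (∀ v ∈ U i, v ∉ box ψ lo hi) →
      evo S k (box ψ lo hi) (fun t => ξ (i * l + t)) (box ψ lo hi) l = ∅)
    {F : Finset (Tri ι G)} (hI : Inv S k ψ ρ N l ξ U i F) {v : G}
    (hv : v ∈ evo S k Set.univ ξ ∅ ((i + 1) * l)) :
    ∃ T ∈ F, v ∈ T.bx ψ ∧ ∃ u ∈ U i, u ∈ T.bx ψ := by
  have hv' : v ∈ evo S k Set.univ ξ ∅ (i * l + l) := by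
    rw [Nat.add_mul, one_mul] at hv
    exact hv
  obtain ⟨T, hT, hvT⟩ := in_slab hS hF hU hI l le_rfl hv'
  refine ⟨T, hT, hvT, ?_⟩
  by_contra hcon
  push Not at hcon
  have hok := hI.ok T hT
  obtain ⟨p, hp⟩ := hok.ne
  obtain ⟨a1, _, a3, a4⟩ := hok.sub p hp
  have h3 := h2 p.1 a1 p.2 a3 T.lo T.hi (bx_subset_ball (small_le hR hok) a4)
    (fun u hu hub => hcon u hu hub)
  have h4 := dom_box hS hF hU hI hT l le_rfl ⟨hv', hvT⟩
  have h5 : v ∈ (∅ : Set G) := by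
    rw [← h3]
    exact h4
  exact h5

/-- Singletons. -/
def single (ψ : ι → G →+ ℤ) (i : ℕ) (v : G) : Tri ι G where
  lo := fun a => ψ a v
  hi := fun a => ψ a v
  A := {(i, v)}
  h := 1

theorem mem_single (ψ : ι → G →+ ℤ) (i : ℕ) (v : G) : v ∈ (single ψ i v).bx ψ :=
  fun _ => ⟨le_rfl, le_rfl⟩

theorem ok_single {ψ : ι → G →+ ℤ} {ρ N : ℕ} (hN : 1 ≤ N) {U : ℕ → Finset G} {i : ℕ} {v : G}
    (hv : v ∈ U i) : Ok ψ ρ N U i (single ψ i v) := by
  refine ⟨?_, ⟨(i, v), Finset.mem_singleton_self _⟩, ?_, ?_, ?_⟩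
  · intro p hp
    rw [show (single ψ i v).A = {(i, v)} from rfl, Finset.mem_singleton] at hp
    subst hp
    exact ⟨le_rfl, Nat.lt_succ_self _, hv, mem_single ψ i v⟩
  · intro a
    simp only [single, Finset.card_singleton]
    push_cast
    omega
  · intro j h1 h2
    simp only [single] at h2
    omega
  · intro a
    simp only [single]
    have : (1 : ℤ) ≤ N := by exact_mod_cast hN
    nlinarith

/-- The passage to the next slab. -/
theorem next_inv [Fintype ι] [Nonempty ι] {S : Finset G} {k : ℕ} {ψ : ι → G →+ ℤ} {ρ N R l : ℕ}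
    (hN : 1 ≤ N) (hR : R = 4 * (2 * ρ + 1) * N) {ξ : ℕ → G → Err}
    {U : ℕ → Finset G} {i : ℕ} (h1 : H1 ψ N R U i)
    (Old : Finset (Tri ι G)) (hok : ∀ T ∈ Old, Ok ψ ρ N U i T)
    (hfst : ∀ T ∈ Old, ∀ p ∈ T.A, p.1 < i)
    (hdis : ∀ T ∈ Old, ∀ T' ∈ Old, T ≠ T' → Disjoint T.A T'.A)
    (hstart : evo S k Set.univ ξ ∅ (i * l) ⊆ Un ψ Old) :
    ∃ F : Finset (Tri ι G), Inv S k ψ ρ N l ξ U i F := by
  set Pre : Finset (Tri ι G) := Old ∪ (U i).image (single ψ i) with hPre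
  have hcase : ∀ T ∈ Pre, T ∈ Old ∨ ∃ v ∈ U i, T = single ψ i v := by
    intro T hT
    rw [hPre, Finset.mem_union, Finset.mem_image] at hT
    rcases hT with h | ⟨v, hv, h⟩
    · exact Or.inl h
    · exact Or.inr ⟨v, hv, h.symm⟩
  have hds : ∀ T ∈ Old, ∀ v, Disjoint T.A (single ψ i v).A := by
    intro T hT v
    rw [show (single ψ i v).A = {(i, v)} from rfl, Finset.disjoint_singleton_right]
    intro h
    have := hfst T hT _ h
    exact absurd this (lt_irrefl _)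
  obtain ⟨F, g1, g2, g3, g4⟩ := merge (ψ := ψ) (ρ := ρ) hN hR h1 Pre.card Pre le_rfl (by
    intro T hT
    rcases hcase T hT with h | ⟨v, hv, rfl⟩
    · exact hok T h
    · exact ok_single hN hv) (by
    intro T hT T' hT' hne
    rcases hcase T hT with h | ⟨v, hv, rfl⟩
    · rcases hcase T' hT' with h' | ⟨v', hv', rfl⟩
      · exact hdis T h T' h' hne
      · exact hds T h v'
    · rcases hcase T' hT' with h' | ⟨v', hv', rfl⟩
      · exact (hds T' h' v).symm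
      · rw [show (single ψ i v).A = {(i, v)} from rfl,
          show (single ψ i v').A = {(i, v')} from rfl, Finset.disjoint_singleton]
        intro h
        exact hne (by rw [(Prod.mk.inj h).2]))
  refine ⟨F, g1, g2, g3, ?_, ?_⟩
  · intro v hv
    obtain ⟨T', hT', hs⟩ := g4 (single ψ i v) (by
      rw [hPre, Finset.mem_union, Finset.mem_image]
      exact Or.inr ⟨v, hv, rfl⟩)
    exact ⟨T', hT', hs (mem_single ψ i v)⟩
  · intro v hv
    obtain ⟨T, hT, hvT⟩ := hstart hv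
    obtain ⟨T', hT', hs⟩ := g4 T (by
      rw [hPre, Finset.mem_union]
      exact Or.inl hT)
    exact ⟨T', hT', hs hvT⟩

/-- The invariant holds in every slab. -/
theorem all_inv [Fintype ι] [Nonempty ι] {S : Finset G} {k : ℕ} {ψ : ι → G →+ ℤ} {ρ N R l : ℕ}
    (hS : Wind S k) (hF : Funs S ψ ρ) (hN : 1 ≤ N) (hR : R = 4 * (2 * ρ + 1) * N)
    {ξ : ℕ → G → Err} {U : ℕ → Finset G}
    (hU : ∀ i v, v ∈ U i ↔ ∃ t, i * l ≤ t ∧ t < (i + 1) * l ∧ Seed S (ξ t) v)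
    (I : ℕ) (h1 : ∀ i ≤ I, H1 ψ N R U i)
    (h2 : ∀ i ≤ I, ∀ j : ℕ, j ≤ i → ∀ u ∈ U j, ∀ lo hi : ι → ℤ, box ψ lo hi ⊆ ball ψ u R →
      (∀ v ∈ U i, v ∉ box ψ lo hi) →
      evo S k (box ψ lo hi) (fun t => ξ (i * l + t)) (box ψ lo hi) l = ∅) :
    ∀ i, i ≤ I → ∃ F : Finset (Tri ι G), Inv S k ψ ρ N l ξ U i F := by
  intro i
  induction i with
  | zero =>
    intro hi
    apply next_inv hN hR (h1 0 hi) ∅ (by simp) (by simp) (by simp)
    rw [Nat.zero_mul]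
    intro v hv
    exact absurd hv (Set.notMem_empty v)
  | succ i ih =>
    intro hi
    obtain ⟨F, hI⟩ := ih (by omega)
    set Old : Finset (Tri ι G) :=
      (F.filter (fun T => ∃ u ∈ U i, u ∈ T.bx ψ)).image (fun T => { T with h := T.h + 1 }) with hOld
    have hcase : ∀ T ∈ Old, ∃ T0 ∈ F, (∃ u ∈ U i, u ∈ T0.bx ψ) ∧
        T = { T0 with h := T0.h + 1 } := by
      intro T hT
      rw [hOld, Finset.mem_image] at hT
      obtain ⟨T0, h0, h0'⟩ := hT
      rw [Finset.mem_filter] at h0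
      exact ⟨T0, h0.1, h0.2, h0'.symm⟩
    apply next_inv hN hR (h1 (i + 1) hi) Old
    · intro T hT
      obtain ⟨T0, hT0, ⟨u, hu, hub⟩, rfl⟩ := hcase T hT
      have ho := hI.ok T0 hT0
      refine ⟨?_, ho.ne, ho.size, ?_, ho.small⟩
      · intro p hp
        obtain ⟨a1, a2, a3, a4⟩ := ho.sub p hp
        exact ⟨by omega, by show i + 1 < p.1 + (T0.h + 1); omega, a3, a4⟩
      · intro j hj hij
        have hij' : i + 1 < j + (T0.h + 1) := hij
        rcases Nat.lt_or_ge j i with h | h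
        · obtain ⟨w, hw, hwb⟩ := ho.mid j h (by omega)
          exact ⟨w, hw, hwb⟩
        · have : j = i := by omega
          subst this
          exact ⟨u, hu, hub⟩
    · intro T hT p hp
      obtain ⟨T0, hT0, _, rfl⟩ := hcase T hT
      have := ((hI.ok T0 hT0).sub p hp).1
      omega
    · intro T hT T' hT' hne
      obtain ⟨T0, hT0, _, rfl⟩ := hcase T hT
      obtain ⟨T0', hT0', _, rfl⟩ := hcase T' hT'
      exact hI.dis T0 hT0 T0' hT0' (fun h => hne (by rw [h]))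
    · intro v hv
      obtain ⟨T, hT, hvT, hu⟩ := survive hS hF hR hU (h2 i (by omega)) hI hv
      refine ⟨{ T with h := T.h + 1 }, ?_, hvT⟩
      rw [hOld, Finset.mem_image]
      exact ⟨T, Finset.mem_filter.2 ⟨hT, hu⟩, rfl⟩

/-- GLOBAL. -/
theorem global : GLOBAL_S := by
  intro G _ ι _ _ S k ψ ρ hS hF N hN R hR l hl ξ U hU I h1 h2 i t v hi ht1 ht2 hv
  obtain ⟨F, hI⟩ := all_inv hS hF hN hR hU I
    (fun i hi u A hA => h1 i u A hi hA)
    (fun i hi j hj u hu lo hi' hb hv => h2 i j hi hj u hu lo hi' hb hv) i hi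
  obtain ⟨s, rfl⟩ := Nat.exists_eq_add_of_le ht1
  have hs : s ≤ l := by
    rw [Nat.add_mul, one_mul] at ht2
    omega
  obtain ⟨T, hT, hvT⟩ := in_slab hS hF hU hI s hs hv
  have ho := hI.ok T hT
  obtain ⟨p, hp⟩ := ho.ne
  obtain ⟨a1, a2, a3, a4⟩ := ho.sub p hp
  rcases Nat.lt_or_ge p.1 i with h | h
  · obtain ⟨w, hw, hwb⟩ := ho.mid (i - 1) (by omega) (by omega)
    exact ⟨i - 1, by omega, by omega, w, hw, bx_subset_ball (small_le hR ho) hwb hvT⟩
  · have e : p.1 = i := by omega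
    rw [e] at a3
    exact ⟨i, le_rfl, by omega, p.2, a3, bx_subset_ball (small_le hR ho) a4 hvT⟩

end Pool.Agent.Lib.MP_fdcb14_pr.H97
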