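import Mathlib
import Pool.Agent.Lib.MP_fdcb14_pr.W.Interfaces
import Pool.Agent.Lib.MP_fdcb14_pr.W.Base
import Pool.Agent.Lib.MP_fdcb14_pr.W.H97.Corr

/-!
# MP_fdcb14_pr: facts on ideals (IDEAL), and COLOR
-/

namespace Pool.Agent.Lib.MP_fdcb14_pr.H97

open Pool.Agent.Lib.MP_fdcb14_pr Classical

variable {G : Type} [AddCommGroup G] {S : Finset G} {k : ℕ} {φ : G →+ ℤ} {g : G} {J : Finset ℕ}

theorem tp_isId (hL : LineData S φ g J) {D : Set ℤ} (w : G) (hD : IsId J D) :
    IsId J (Tp S φ g J w D) := by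
  obtain ⟨⟨i, hi⟩, ⟨i', hi'⟩, h3⟩ := hD
  obtain ⟨j0, hj0⟩ := hL.ne
  refine ⟨⟨i, Or.inl hi⟩, ⟨i' + j0, ?_⟩, ?_⟩
  · rintro (h | ⟨_, h, _⟩)
    · have := h3 _ h j0 hj0
      rw [add_sub_cancel_right] at this
      exact hi' this
    · have := h.2 j0 hj0
      rw [add_sub_cancel_right] at this
      exact hi' this
  · rintro x (hx | ⟨_, hx, _⟩) j hj
    · exact Or.inl (h3 x hx j hj)
    · exact Or.inl (hx.2 j hj)

theorem tm_isId (hL : LineData S φ g J) {D : Set ℤ} (w : G) (hD : IsId J D) :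
    IsId J (Tm S φ g J w D) := by
  obtain ⟨⟨i, hi⟩, ⟨i', hi'⟩, h3⟩ := hD
  obtain ⟨j0, hj0⟩ := hL.ne
  have hgen : ∀ x ∈ D, ∀ j ∈ J, x - (j : ℤ) ∈ Tm S φ g J w D := by
    intro x hx j hj
    refine ⟨h3 x hx j hj, ?_⟩
    rintro ⟨_, h, _⟩
    have := h.2 j hj
    rw [sub_add_cancel] at this
    exact this hx
  refine ⟨⟨_, hgen i hi j0 hj0⟩, ⟨i', fun h => hi' h.1⟩, ?_⟩
  intro x hx j hj
  exact hgen x hx.1 j hj

theorem closure_mem {D : Set ℤ} (hD : ∀ i ∈ D, ∀ j ∈ J, i - (j : ℤ) ∈ D) {n : ℕ}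
    (hn : n ∈ AddSubmonoid.closure (J : Set ℕ)) : ∀ i ∈ D, i - (n : ℤ) ∈ D := by
  induction hn using AddSubmonoid.closure_induction with
  | mem x hx =>
    intro i hi
    exact hD i hi x (Finset.mem_coe.1 hx)
  | zero => intro i hi; simpa using hi
  | add x y _ _ hx hy =>
    intro i hi
    have := hy _ (hx i hi)
    rw [show i - ((x + y : ℕ) : ℤ) = i - x - y by push_cast; ring]
    exact this

theorem exists_frob (hL : LineData S φ g J) :
    ∃ n : ℕ, ∀ m ≥ n, m ∈ AddSubmonoid.closure (J : Set ℕ) := by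
  obtain ⟨n, hn⟩ := Nat.exists_mem_closure_of_ge (J : Set ℕ)
  refine ⟨n, fun m hm => hn m hm ?_⟩
  have h1 : Nat.setGcd (J : Set ℕ) ∣ 1 := by
    rw [← hL.gcd]
    apply Finset.dvd_gcd
    intro j hj
    exact Nat.setGcd_dvd_of_mem (Finset.mem_coe.2 hj)
  exact h1.trans (one_dvd m)

theorem exists_base {F0 : ℕ} (hF0 : ∀ m ≥ F0, m ∈ AddSubmonoid.closure (J : Set ℕ))
    {D : Set ℤ} (hD : IsId J D) :
    ∃ a : ℤ, (∀ i ≤ a, i ∈ D) ∧ a + 1 ∉ D ∧ (∀ i ∈ D, i ≤ a + F0) := by
  obtain ⟨⟨i0, hi0⟩, ⟨i1, hi1⟩, h3⟩ := hD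
  have hlow : ∀ i, i ≤ i0 - F0 → i ∈ D := by
    intro i hi
    have := closure_mem h3 (hF0 (i0 - i).toNat (by omega)) i0 hi0
    rw [Int.toNat_of_nonneg (by omega), sub_sub_cancel] at this
    exact this
  obtain ⟨b, hb1, hb2⟩ := Int.exists_least_of_bdd (P := fun i => i ∉ D)
    ⟨i0 - F0, fun z hz => by
      by_contra hcon
      exact hz (hlow z (by omega))⟩ ⟨i1, hi1⟩
  refine ⟨b - 1, ?_, ?_, ?_⟩
  · intro i hi
    by_contra hcon
    have := hb2 i hcon
    omega
  · rw [sub_add_cancel]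
    exact hb1
  · intro i hi
    by_contra hcon
    apply hb1
    have := closure_mem h3 (hF0 (i - b).toNat (by omega)) i hi
    rw [Int.toNat_of_nonneg (by omega), sub_sub_cancel] at this
    exact this

theorem ncard_Ioc_le {D : Set ℤ} {a : ℤ} {F : ℕ} (h2 : ∀ i ∈ D, i ≤ a + F) :
    (D ∩ Set.Ioi a).ncard ≤ F := by
  have h1 : D ∩ Set.Ioi a ⊆ Set.Ioc a (a + F) := fun i hi => ⟨hi.2, h2 i hi.1⟩
  have h3 := Set.ncard_le_ncard h1 (Set.finite_Ioc a (a + F))
  rw [← Finset.coe_Ioc, Set.ncard_coe_finset, Int.card_Ioc] at h3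
  omega

theorem ideal : IDEAL_S := by
  intro G _ S k φ g J hS hL
  refine ⟨fun D w hD => ⟨tp_isId hL w hD, tm_isId hL w hD⟩, ?_, ?_⟩
  · intro D w hw
    have hno : ∀ i, (i ∈ MinC J D ∨ i ∈ MaxC J D) → w - i • g ∉ S :=
      fun i hi h => hw ⟨i, hi, h⟩
    constructor
    · ext i
      constructor
      · rintro (h | ⟨_, h, h'⟩)
        · exact h
        · exact absurd h' (hno i (Or.inl h))
      · exact Or.inl
    · ext i
      constructor
      · exact fun h => h.1
      · intro h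
        refine ⟨h, ?_⟩
        rintro ⟨_, h1, h2⟩
        exact hno i (Or.inr h1) h2
  · obtain ⟨F0, hF0⟩ := exists_frob hL
    set m : ℕ := J.sup id with hm
    have hJm : ∀ j ∈ J, j ≤ m := fun j hj => Finset.le_sup (f := id) hj
    obtain ⟨j0, hj0⟩ := hL.ne
    set F1 : ℕ := F0 + 2 * m with hF1
    refine ⟨(2 * F1 + 1) * (S.card + 2), ?_⟩
    have hF1F : F1 ≤ (2 * F1 + 1) * (S.card + 2) := by nlinarith
    have hF1F' : (2 * F1 + 1) * S.card ≤ (2 * F1 + 1) * (S.card + 2) :=
      Nat.mul_le_mul_left _ (by omega)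
    set F : ℕ := (2 * F1 + 1) * (S.card + 2) with hF
    intro D hD
    obtain ⟨a, h1, h2, h3⟩ := exists_base hF0 hD
    have hrange : ∀ i, (i ∈ MinC J D ∨ i ∈ MaxC J D) → a - F1 ≤ i ∧ i ≤ a + F1 := by
      rintro i (⟨hi, hi'⟩ | ⟨hi, hi'⟩)
      · have e1 := h3 _ (hi' j0 hj0)
        have e2 := hJm j0 hj0
        have e3 : ¬ i ≤ a := fun h => hi (h1 i h)
        omega
      · have e1 := h3 _ hi
        have e2 := hJm j0 hj0
        have e3 : ¬ i + j0 ≤ a := fun h => hi' j0 hj0 (h1 _ h)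
        omega
    have hzsub : Zone S g J D ⊆
        ((Finset.Icc (a - F1) (a + F1)).product S).image (fun p => p.1 • g + p.2) := by
      rintro w ⟨i, hi, hw⟩
      rw [Finset.mem_coe, Finset.mem_image]
      refine ⟨(i, w - i • g), ?_, by simp⟩
      rw [Finset.product_eq_sprod, Finset.mem_product]
      exact ⟨Finset.mem_Icc.2 (hrange i hi), hw⟩
    have hzfin : (Zone S g J D).Finite := (Finset.finite_toSet _).subset hzsub
    have hzcard : (Zone S g J D).ncard ≤ (2 * F1 + 1) * S.card := by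
      refine le_trans (Set.ncard_le_ncard hzsub (Finset.finite_toSet _)) ?_
      rw [Set.ncard_coe_finset]
      refine le_trans Finset.card_image_le ?_
      rw [Finset.product_eq_sprod, Finset.card_product, Int.card_Icc]
      apply Nat.mul_le_mul_right
      omega
    have hNN : NN D = a + (D ∩ Set.Ioi a).ncard := nn_eq h1 h3
    have hNNle := ncard_Ioc_le h3
    refine ⟨hzfin, le_trans hzcard hF1F', a, h1, h2, fun i hi => ?_, ?_, ?_, ?_, ?_⟩
    · have := h3 i hi
      omega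
    · omega
    · omega
    · intro i hi
      have := hrange i hi
      rw [abs_le]
      constructor <;> omega
    · intro w
      constructor
      · have e1 : ∀ i ≤ a, i ∈ Tp S φ g J w D := fun i hi => Or.inl (h1 i hi)
        have e2 : ∀ i ∈ Tp S φ g J w D, i ≤ a + (F1 : ℕ) := by
          rintro i (hi | ⟨_, hi, _⟩)
          · have := h3 i hi
            omega
          · exact (hrange i (Or.inl hi)).2
        have e3 := nn_eq e1 e2
        have e4 := ncard_Ioc_le e2
        rw [abs_le]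
        constructor <;> omega
      · have e1 : ∀ i ≤ a - m, i ∈ Tm S φ g J w D := by
          intro i hi
          refine ⟨h1 i (by omega), ?_⟩
          rintro ⟨_, ⟨_, h5⟩, _⟩
          have := hJm j0 hj0
          exact h5 j0 hj0 (h1 _ (by omega))
        have e2 : ∀ i ∈ Tm S φ g J w D, i ≤ (a - m) + ((F0 + m : ℕ) : ℤ) := by
          rintro i ⟨hi, _⟩
          have := h3 i hi
          push_cast
          omega
        have e3 := nn_eq e1 e2
        have e4 := ncard_Ioc_le e2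
        rw [abs_le]
        constructor <;> omega

/-! ### COLOR -/

theorem color : COLOR_S := by
  intro d S
  -- a bound for the coordinates of s - s'
  set M : ℕ := (S.sup fun s => S.sup fun s' => Finset.univ.sup fun i => (s i - s' i).natAbs) + 1
    with hM
  have hMb : ∀ s ∈ S, ∀ s' ∈ S, ∀ i, (s i - s' i).natAbs < M := by
    intro s hs s' hs' i
    have h1 : (s i - s' i).natAbs ≤ Finset.univ.sup fun i => (s i - s' i).natAbs :=
      Finset.le_sup (f := fun i => (s i - s' i).natAbs) (Finset.mem_univ i)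
    have h2 : (Finset.univ.sup fun i => (s i - s' i).natAbs) ≤
        S.sup fun s' => Finset.univ.sup fun i => (s i - s' i).natAbs :=
      Finset.le_sup (f := fun s' : Site d => Finset.univ.sup fun i => (s i - s' i).natAbs) hs'
    have h3 : (S.sup fun s' => Finset.univ.sup fun i => (s i - s' i).natAbs) ≤
        S.sup fun s => S.sup fun s' => Finset.univ.sup fun i => (s i - s' i).natAbs :=
      Finset.le_sup
        (f := fun s : Site d => S.sup fun s' => Finset.univ.sup fun i => (s i - s' i).natAbs) hs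
    omega
  have hMpos : 0 < M := by omega
  have : NeZero M := ⟨hMpos.ne'⟩
  let e : (Fin d → ZMod M) ≃ Fin (Fintype.card (Fin d → ZMod M)) :=
    Fintype.equivFin _
  refine ⟨Fintype.card (Fin d → ZMod M), fun v => e (fun i => (v i : ZMod M)),
    Fintype.card_pos, ?_⟩
  intro v v' hc hne s hs s' hs' hcon
  apply hne
  have h1 := e.injective hc
  funext i
  have h2 : ((v i : ℤ) : ZMod M) = ((v' i : ℤ) : ZMod M) := congrFun h1 i
  rw [ZMod.intCast_eq_intCast_iff_dvd_sub] at h2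
  have h3 : v i + s i = v' i + s' i := congrFun hcon i
  have h4 := hMb s hs s' hs' i
  have h5 : v' i - v i = s i - s' i := by omega
  rw [h5] at h2
  have h6 : s i - s' i = 0 := by
    apply Int.eq_zero_of_abs_lt_dvd h2
    rw [Int.abs_eq_natAbs]
    exact_mod_cast h4
  omega

end Pool.Agent.Lib.MP_fdcb14_pr.H97
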