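import Mathlib
import Pool.Agent.Lib.MP_fdcb14_pr.W.Interfaces
import Pool.Agent.Lib.MP_fdcb14_pr.W.Base

/-!
# MP_fdcb14_pr: the lattice modules FUNS and PHIG
-/

namespace Pool.Agent.Lib.MP_fdcb14_pr.H97

open Pool.Agent.Lib.MP_fdcb14_pr Classical

variable {d : ℕ}

/-- The functional `v ↦ v_a s_b - v_b s_a`. -/
def minor (s : Site d) (a b : Fin d) : Site d →+ ℤ :=
  AddMonoidHom.mk' (fun v => v a * s b - v b * s a) (by
    intro v w
    simp only [Pi.add_apply]
    ring)

theorem minor_apply (s : Site d) (a b : Fin d) (v : Site d) :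
    minor s a b v = v a * s b - v b * s a := rfl

theorem minor_self (s : Site d) (a b : Fin d) : minor s a b s = 0 := by
  rw [minor_apply]
  ring

theorem exists_minor {S : Finset (Site d)}
    (h : ¬ Collinear ℝ {x : Fin d → ℝ | ∃ s ∈ S, x = fun i => (s i : ℝ)}) :
    ∃ s1 ∈ S, ∃ s2 ∈ S, ∃ a b : Fin d, s1 a * s2 b - s1 b * s2 a ≠ 0 := by
  by_contra hcon
  push Not at hcon
  apply h
  rw [collinear_iff_exists_forall_eq_smul_vadd]
  by_cases hz : ∃ s1 ∈ S, s1 ≠ 0
  · obtain ⟨s1, hs1, hne⟩ := hz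
    obtain ⟨a0, ha0⟩ := Function.ne_iff.1 hne
    have ha : (s1 a0 : ℝ) ≠ 0 := by
      simp only [Pi.zero_apply] at ha0
      exact_mod_cast ha0
    refine ⟨0, fun i => (s1 i : ℝ), ?_⟩
    rintro x ⟨s, hs, rfl⟩
    refine ⟨(s a0 : ℝ) / s1 a0, ?_⟩
    funext b
    simp only [vadd_eq_add, Pi.add_apply, Pi.smul_apply, smul_eq_mul, Pi.zero_apply, add_zero]
    have h1 := hcon s1 hs1 s hs a0 b
    have h2 : (s1 a0 : ℝ) * s b - s1 b * s a0 = 0 := by exact_mod_cast h1
    field_simp
    linarith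
  · push Not at hz
    refine ⟨0, 0, ?_⟩
    rintro x ⟨s, hs, rfl⟩
    refine ⟨0, ?_⟩
    rw [hz s hs]
    funext b
    simp

theorem funs : FUNS_S := by
  intro d S k hS hcol
  obtain ⟨s1, hs1, s2, hs2, a0, b0, hne⟩ := exists_minor hcol
  have h10 : s1 ≠ 0 := by
    intro h
    apply hne
    rw [h]
    simp
  have h20 : s2 ≠ 0 := by
    intro h
    apply hne
    rw [h]
    simp
  let st : Bool → Site d := fun t => if t then s1 else s2
  have hst : ∀ t, st t ∈ S ∧ st t ≠ 0 := by
    intro t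
    cases t
    · exact ⟨hs2, h20⟩
    · exact ⟨hs1, h10⟩
  let ψ : (Bool × Fin d × Fin d) → Site d →+ ℤ := fun p => minor (st p.1) p.2.1 p.2.2
  refine ⟨Bool × Fin d × Fin d, inferInstance, ⟨(true, a0, b0)⟩, ψ,
    (S.sup fun s => Finset.univ.sup fun p => (ψ p s).natAbs) + 1, ?_⟩
  refine ⟨?_, ?_, ?_, by omega⟩
  · rintro ⟨t, a, b⟩
    exact ⟨st t, (hst t).1, (hst t).2, minor_self _ _ _⟩
  · intro s hs p
    have h1 : (ψ p s).natAbs ≤ Finset.univ.sup fun p => (ψ p s).natAbs :=
      Finset.le_sup (f := fun p => (ψ p s).natAbs) (Finset.mem_univ p)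
    have h2 : (Finset.univ.sup fun p => (ψ p s).natAbs) ≤
        S.sup fun s => Finset.univ.sup fun p => (ψ p s).natAbs :=
      Finset.le_sup (f := fun s : Site d => Finset.univ.sup fun p => (ψ p s).natAbs) hs
    rw [Int.abs_eq_natAbs]
    exact_mod_cast le_trans (le_trans h1 h2) (Nat.le_succ _)
  · intro v hv
    funext c
    have e1 : v c * s1 a0 - v a0 * s1 c = 0 := hv (true, c, a0)
    have e2 : v c * s1 b0 - v b0 * s1 c = 0 := hv (true, c, b0)
    have e3 : v a0 * s2 b0 - v b0 * s2 a0 = 0 := hv (false, a0, b0)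
    have e4 : v c * (s1 a0 * s2 b0 - s1 b0 * s2 a0) = 0 := by
      have : v c * (s1 a0 * s2 b0 - s1 b0 * s2 a0) =
          (v c * s1 a0 - v a0 * s1 c) * s2 b0 - (v c * s1 b0 - v b0 * s1 c) * s2 a0 +
            s1 c * (v a0 * s2 b0 - v b0 * s2 a0) := by ring
      rw [this, e1, e2, e3]
      ring
    rcases mul_eq_zero.1 e4 with h | h
    · exact h
    · exact absurd h hne

/-- Parallel vectors. -/
def Par (s1 s : Site d) : Prop := ∀ a b, s a * s1 b - s b * s1 a = 0

theorem exists_phi (s1 : Site d) (T : Finset (Site d)) :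
    ∃ φ : Site d →+ ℤ, φ s1 = 0 ∧ ∀ s ∈ T, ¬ Par s1 s → φ s ≠ 0 := by
  induction T using Finset.induction_on with
  | empty => exact ⟨0, rfl, by simp⟩
  | insert s T hs ih =>
    obtain ⟨φ, h1, h2⟩ := ih
    by_cases hpar : Par s1 s
    · refine ⟨φ, h1, ?_⟩
      intro t ht hnt
      rcases Finset.mem_insert.1 ht with rfl | ht
      · exact absurd hpar hnt
      · exact h2 t ht hnt
    · by_cases hφ : φ s = 0
      · unfold Par at hpar
        push Not at hpar
        obtain ⟨a, b, hab⟩ := hpar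
        set ψ := minor s1 a b with hψ
        set M : ℤ := (∑ t ∈ T, |ψ t|) + 1 with hM
        refine ⟨M • φ + ψ, ?_, ?_⟩
        · rw [AddMonoidHom.add_apply, AddMonoidHom.smul_apply, h1, smul_zero, zero_add, hψ,
            minor_self]
        · intro t ht hnt
          rw [AddMonoidHom.add_apply, AddMonoidHom.smul_apply, smul_eq_mul]
          rcases Finset.mem_insert.1 ht with rfl | ht
          · rw [hφ, mul_zero, zero_add, hψ, minor_apply]
            exact hab
          · have h3 := h2 t ht hnt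
            have h4 : |ψ t| < M := by
              have := Finset.single_le_sum (f := fun t => |ψ t|) (fun x _ => abs_nonneg _) ht
              omega
            intro h5
            have h6 : M * φ t = - ψ t := by linarith
            have h7 : |M * φ t| = |ψ t| := by rw [h6, abs_neg]
            rw [abs_mul] at h7
            have h8 : 1 ≤ |φ t| := Int.one_le_abs h3
            have h9 : M ≤ |M| := le_abs_self M
            nlinarith [abs_nonneg M]
      · refine ⟨φ, h1, ?_⟩
        intro t ht hnt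
        rcases Finset.mem_insert.1 ht with rfl | ht
        · exact hφ
        · exact h2 t ht hnt

theorem phig : PHIG_S := by
  rintro d S k hS ⟨s1, hs1, hne⟩
  obtain ⟨φ, hφ1, hφ2⟩ := exists_phi s1 S
  obtain ⟨a0, ha0⟩ := Function.ne_iff.1 hne
  simp only [Pi.zero_apply] at ha0
  -- the group generated by the kernel elements
  set H : AddSubgroup (Site d) := AddSubgroup.closure {s | s ∈ S ∧ φ s = 0} with hH
  have hpar : ∀ v ∈ H, Par s1 v := by
    intro v hv
    rw [hH] at hv
    induction hv using AddSubgroup.closure_induction with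
    | mem x hx =>
      by_contra hcon
      exact hφ2 x hx.1 hcon hx.2
    | zero => intro a b; simp
    | add x y _ _ hx hy =>
      intro a b
      have e1 := hx a b
      have e2 := hy a b
      simp only [Pi.add_apply]
      linarith
    | neg x _ hx =>
      intro a b
      have e1 := hx a b
      simp only [Pi.neg_apply]
      linarith
  have hinj : ∀ v w : Site d, Par s1 v → Par s1 w → v a0 = w a0 → v = w := by
    intro v w hv hw hvw
    funext b
    have e1 := hv a0 b
    have e2 := hw a0 b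
    rw [hvw] at e1
    have e3 : (v b - w b) * s1 a0 = 0 := by linarith
    rcases mul_eq_zero.1 e3 with h | h
    · linarith
    · exact absurd h ha0
  let π : Site d →+ ℤ := Pi.evalAddMonoidHom (fun _ : Fin d => ℤ) a0
  obtain ⟨n0, hn0⟩ := Int.subgroup_cyclic (H.map π)
  have hn0mem : n0 ∈ H.map π := by
    rw [hn0]
    exact AddSubgroup.subset_closure rfl
  obtain ⟨g, hgH, hg0⟩ := AddSubgroup.mem_map.1 hn0mem
  have hg0' : g a0 = n0 := hg0
  have hmul : ∀ v ∈ H, ∃ m : ℤ, v = m • g := by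
    intro v hv
    have h1 : v a0 ∈ H.map π := AddSubgroup.mem_map.2 ⟨v, hv, rfl⟩
    rw [hn0, AddSubgroup.mem_closure_singleton] at h1
    obtain ⟨m, hm⟩ := h1
    refine ⟨m, hinj v (m • g) (hpar v hv) (hpar _ (H.zsmul_mem hgH m)) ?_⟩
    rw [Pi.smul_apply, hg0']
    exact hm.symm
  have hs1H : s1 ∈ H := AddSubgroup.subset_closure ⟨hs1, hφ1⟩
  have hgne : g a0 ≠ 0 := by
    intro h
    obtain ⟨m, hm⟩ := hmul s1 hs1H
    apply ha0
    rw [hm, Pi.smul_apply, h, smul_zero]
  have hfree : ∀ j : ℤ, j • g = 0 → j = 0 := by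
    intro j hj
    have h1 := congrFun hj a0
    rw [Pi.smul_apply, Pi.zero_apply, smul_eq_mul] at h1
    rcases mul_eq_zero.1 h1 with h | h
    · exact h
    · exact absurd h hgne
  have hφH : ∀ v ∈ H, φ v = 0 := by
    intro v hv
    rw [hH] at hv
    induction hv using AddSubgroup.closure_induction with
    | mem x hx => exact hx.2
    | zero => exact map_zero φ
    | add x y _ _ hx hy => rw [map_add, hx, hy, add_zero]
    | neg x _ hx => rw [map_neg, hx, neg_zero]
  have hch : ∀ s : Site d, ∃ m : ℤ, s ∈ S → φ s = 0 → s = m • g := by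
    intro s
    by_cases h : s ∈ S ∧ φ s = 0
    · obtain ⟨m, hm⟩ := hmul s (AddSubgroup.subset_closure h)
      exact ⟨m, fun _ _ => hm⟩
    · exact ⟨0, fun h1 h2 => absurd ⟨h1, h2⟩ h⟩
  choose m hm using hch
  set J : Finset ℕ := (S.filter (fun s => φ s = 0 ∧ s ≠ 0)).image (fun s => (m s).natAbs) with hJ
  have hJmem : ∀ j ∈ J, ∃ s ∈ S, φ s = 0 ∧ s ≠ 0 ∧ j = (m s).natAbs := by
    intro j hj
    rw [hJ, Finset.mem_image] at hj
    obtain ⟨s, hs, hsj⟩ := hj
    rw [Finset.mem_filter] at hs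
    exact ⟨s, hs.1, hs.2.1, hs.2.2, hsj.symm⟩
  have hker : ∀ s ∈ S, φ s = 0 → s = m s • g ∧ (m s = 0 ∨ (m s).natAbs ∈ J) := by
    intro s hs h
    refine ⟨hm s hs h, ?_⟩
    by_cases h0 : s = 0
    · left
      apply hfree
      rw [← hm s hs h, h0]
    · right
      rw [hJ, Finset.mem_image]
      exact ⟨s, Finset.mem_filter.2 ⟨hs, h, h0⟩, rfl⟩
  refine ⟨φ, g, J, hφH g hgH, hfree, ?_, ?_, ?_, ?_, ?_⟩
  · intro j hj
    obtain ⟨s, hs, h1, h2, h3⟩ := hJmem j hj
    have h4 : m s ≠ 0 := by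
      intro h
      apply h2
      rw [hm s hs h1, h, zero_smul]
    omega
  · rw [hJ, Finset.image_nonempty]
    exact ⟨s1, Finset.mem_filter.2 ⟨hs1, hφ1, hne⟩⟩
  · set e : ℕ := J.gcd id with he
    have hdiv : ∀ v ∈ H, ∃ l : ℤ, v = (l * (e : ℤ)) • g := by
      intro v hv
      rw [hH] at hv
      induction hv using AddSubgroup.closure_induction with
      | mem x hx =>
        obtain ⟨h1, h2⟩ := hker x hx.1 hx.2
        have h3 : (e : ℤ) ∣ m x := by
          rcases h2 with h2 | h2
          · rw [h2]; exact dvd_zero _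
          · rw [← Int.dvd_natAbs]
            exact_mod_cast Finset.gcd_dvd (f := id) h2
        obtain ⟨l, hl⟩ := h3
        exact ⟨l, by rw [mul_comm, ← hl]; exact h1⟩
      | zero => exact ⟨0, by simp⟩
      | add x y _ _ hx hy =>
        obtain ⟨l, hl⟩ := hx
        obtain ⟨l', hl'⟩ := hy
        exact ⟨l + l', by rw [hl, hl', add_mul, add_smul]⟩
      | neg x _ hx =>
        obtain ⟨l, hl⟩ := hx
        exact ⟨-l, by rw [hl, neg_mul, neg_smul]⟩
    obtain ⟨l, hl⟩ := hdiv g hgH
    have h1 : (l * (e : ℤ) - 1) • g = 0 := by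
      rw [sub_smul, one_smul, ← hl, sub_self]
    have h2 := hfree _ h1
    have h3 : l * (e : ℤ) = 1 := by linarith
    have h4 : (e : ℤ) ∣ 1 := ⟨l, by rw [mul_comm]; exact h3.symm⟩
    have h5 : e ∣ 1 := by exact_mod_cast h4
    exact Nat.dvd_one.1 h5
  · intro j hj
    obtain ⟨s, hs, h1, _, h3⟩ := hJmem j hj
    rcases Int.natAbs_eq (m s) with h | h
    · rw [h3, ← h, ← hm s hs h1]
      exact hs
    · have : ((j : ℕ) : ℤ) = - m s := by rw [h3]; omega
      rw [this, neg_smul, ← hm s hs h1]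
      exact hS.symm s hs
  · intro s hs h
    exact ⟨m s, hker s hs h⟩

end Pool.Agent.Lib.MP_fdcb14_pr.H97
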