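import Mathlib
import Pool.Agent.Lib.MP_fdcb14_pr.W.Interfaces
import Pool.Agent.Lib.MP_fdcb14_pr.W.Base

/-!
# MP_fdcb14_pr: from the set formulation to trajectories, and the flip (MAIN)
-/

namespace Pool.Agent.Lib.MP_fdcb14_pr.H97

open Pool.Agent.Lib.MP_fdcb14_pr MeasureTheory ProbabilityTheory

universe u

variable {d : ℕ}

open Classical in
theorem maj_iff {S : Finset (Site d)} {k : ℕ} (hS : S.card = 2 * k + 1) (x : Site d → Bool)
    (v : Site d) : maj S x v = true ↔ k + 1 ≤ cnt S {w | x w = true} v := by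
  unfold maj
  rw [decide_eq_true_iff]
  have : (S.filter (fun s => x (v + s) = true)).card = cnt S {w | x w = true} v := by
    unfold cnt
    apply congrArg
    ext s
    simp only [Finset.mem_filter, Set.mem_ofPred_eq]
  rw [this, hS]
  omega

theorem noisy_iff (e : Err) (b : Bool) :
    noisy e b = true ↔ e = Err.one ∨ (b = true ∧ e ≠ Err.zero) := by
  cases e <;> cases b <;> simp [noisy]

theorem maj_traj {S : Finset (Site d)} {k : ℕ} (hS : S.card = 2 * k + 1)
    (ξ : ℕ → Site d → Err) (t : ℕ) :
    ∀ v, maj S (traj S ξ (fun _ => false) t) v = true ↔ v ∈ evo S k Set.univ ξ ∅ t := by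
  induction t with
  | zero =>
    intro v
    rw [maj_iff hS]
    constructor
    · intro h
      exfalso
      have h0 : cnt S {w | traj S ξ (fun _ => false) 0 w = true} v = 0 := by
        unfold cnt
        apply Finset.card_eq_zero.2
        ext s
        simp only [Finset.mem_filter, Set.mem_ofPred_eq, traj]
        simp
      omega
    · intro h
      exact absurd h (Set.notMem_empty v)
  | succ t ih =>
    intro v
    have hset : {w | traj S ξ (fun _ => false) (t + 1) w = true} =
        act (ξ t) (evo S k Set.univ ξ ∅ t) := by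
      ext w
      show noisy (ξ t w) (maj S (traj S ξ (fun _ => false) t) w) = true ↔ _
      rw [noisy_iff, ih w]
      rfl
    rw [maj_iff hS, hset, evo_succ]
    constructor
    · intro h
      exact ⟨Set.mem_univ _, h⟩
    · intro h
      exact h.2

theorem traj_iff {S : Finset (Site d)} {k : ℕ} (hS : S.card = 2 * k + 1)
    (ξ : ℕ → Site d → Err) (t : ℕ) (v : Site d) :
    traj S ξ (fun _ => false) (t + 1) v = true ↔
      v ∈ act (ξ t) (evo S k Set.univ ξ ∅ t) := by
  show noisy (ξ t v) (maj S (traj S ξ (fun _ => false) t) v) = true ↔ _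
  rw [noisy_iff, maj_traj hS ξ t v]
  rfl

/-- The flip of the noise. -/
def flip : Err → Err
  | Err.keep => Err.keep
  | Err.zero => Err.one
  | Err.one => Err.zero

theorem maj_not {S : Finset (Site d)} (hS : Odd S.card) (x : Site d → Bool) (v : Site d) :
    maj S (fun w => !(x w)) v = !(maj S x v) := by
  simp only [maj]
  have h1 : (S.filter (fun s => (!(x (v + s))) = true)).card +
      (S.filter (fun s => x (v + s) = true)).card = S.card := by
    have h2 : S.filter (fun s => (!(x (v + s))) = true) =
        S.filter (fun s => ¬ x (v + s) = true) := by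
      ext s
      simp
    rw [h2, add_comm]
    exact Finset.card_filter_add_card_filter_not _
  obtain ⟨m, hm⟩ := hS
  by_cases h : S.card < 2 * (S.filter (fun s => x (v + s) = true)).card
  · rw [decide_eq_true h, decide_eq_false (by omega)]
    rfl
  · rw [decide_eq_false h, decide_eq_true (by omega)]
    rfl

theorem traj_flip {S : Finset (Site d)} (hS : Odd S.card) (ξ : ℕ → Site d → Err) (t : ℕ) :
    traj S ξ (fun _ => true) t =
      fun v => !(traj S (fun t w => flip (ξ t w)) (fun _ => false) t v) := by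
  induction t with
  | zero => rfl
  | succ t ih =>
    funext v
    show noisy (ξ t v) (maj S (traj S ξ (fun _ => true) t) v) =
      !(noisy (flip (ξ t v)) (maj S (traj S (fun t w => flip (ξ t w)) (fun _ => false) t) v))
    rw [ih, maj_not hS]
    cases ξ t v <;> simp [noisy, flip]

theorem isNoise_flip {G : Type*} {Ω : Type*} [MeasurableSpace Ω] {μ : Measure Ω}
    {ξ : ℕ → G → Ω → Err} {ε : ℝ} (h : IsNoise μ ξ ε) :
    IsNoise μ (fun t v ω => flip (ξ t v ω)) ε := by
  refine ⟨?_, ?_, ?_, ?_⟩
  · intro t v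
    exact (measurable_from_top (f := flip)).comp (h.meas t v)
  · exact h.indep.comp (fun _ => flip) (fun _ => measurable_from_top)
  · intro t v
    rw [← h.zero t v]
    congr 1
    ext ω
    simp only [Set.mem_ofPred_eq]
    cases ξ t v ω <;> simp [flip]
  · intro t v
    rw [← h.one t v]
    congr 1
    ext ω
    simp only [Set.mem_ofPred_eq]
    cases ξ t v ω <;> simp [flip]

theorem main (hZ : ZERO_S.{u}) : MAIN_S.{u} := by
  intro d S hsym hodd hcol
  obtain ⟨k, hk⟩ := hodd
  obtain ⟨c, hc, ε0, he0, _, hmain⟩ := hZ d S k ⟨hsym, hk⟩ hcol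
  refine ⟨c, hc, ε0, he0, ?_⟩
  have key : ∀ ε : ℝ, 0 < ε → ε < ε0 →
    ∀ (Ω : Type u) [MeasurableSpace Ω] (μ : Measure Ω) [IsProbabilityMeasure μ]
      (ξ : ℕ → Site d → Ω → Err), IsNoise μ ξ ε → ∀ t : ℕ, (t : ℝ) ≤ Real.exp (ε ^ (-c)) →
      ∀ v : Site d,
      μ {ω | traj S (fun t w => ξ t w ω) (fun _ => false) t v = true} ≤
        ENNReal.ofReal (Real.sqrt ε) := by
    intro ε h1 h2 Ω _ μ _ ξ hξ t ht v
    cases t with
    | zero =>
      have : {ω | traj S (fun t w => ξ t w ω) (fun _ => false) 0 v = true} = ∅ := by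
        ext ω
        simp [traj]
      rw [this, measure_empty]
      exact bot_le
    | succ t =>
      have : {ω | traj S (fun t w => ξ t w ω) (fun _ => false) (t + 1) v = true} =
          {ω | v ∈ act (fun w => ξ t w ω) (evo S k Set.univ (fun t w => ξ t w ω) ∅ t)} := by
        ext ω
        exact traj_iff hk (fun t w => ξ t w ω) t v
      rw [this]
      apply hmain ε h1 h2 Ω μ ξ hξ t _ v
      push_cast at ht
      linarith
  intro ε h1 h2 Ω _ μ _ ξ hξ t ht v
  refine ⟨key ε h1 h2 Ω μ ξ hξ t ht v, ?_⟩
  have h3 := key ε h1 h2 Ω μ _ (isNoise_flip hξ) t ht v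
  have : {ω | traj S (fun t w => ξ t w ω) (fun _ => true) t v = false} =
      {ω | traj S (fun t w => flip (ξ t w ω)) (fun _ => false) t v = true} := by
    ext ω
    simp only [Set.mem_ofPred_eq]
    rw [traj_flip ⟨k, hk⟩]
    simp
  rw [this]
  exact h3

end Pool.Agent.Lib.MP_fdcb14_pr.H97
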