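import Mathlib
import Pool.Agent.Lib.MP_fdcb14_pr.W.Interfaces
import Pool.Agent.Lib.MP_fdcb14_pr.W.Base

/-!
# MP_fdcb14_pr: small modules POISSON, SPEED, BALL, EXSHIFT, EXSUB
-/

namespace Pool.Agent.Lib.MP_fdcb14_pr.H97

open Pool.Agent.Lib.MP_fdcb14_pr Classical

/-! ### POISSON -/

section poisson

variable {X : Type} [Fintype X]

/-- Propagation of a maximum along the jumps. -/
theorem propagate (r : X → X → ℝ) (hr : ∀ x y, 0 ≤ r x y) (u : X → ℝ)
    (M : ℝ) (hM : ∀ x, u x ≤ M) (hL : ∀ x, u x = M → 0 ≤ ∑ y, r x y * (u y - u x))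
    {x y : X} (hxy : 0 < r x y) (hx : u x = M) : u y = M := by
  have h1 : ∀ z ∈ (Finset.univ : Finset X), r x z * (u z - u x) ≤ 0 := by
    intro z _
    apply mul_nonpos_of_nonneg_of_nonpos (hr x z)
    rw [hx]
    linarith [hM z]
  have h2 : ∑ z, r x z * (u z - u x) = 0 :=
    le_antisymm (Finset.sum_nonpos h1) (hL x hx)
  have h3 := (Finset.sum_eq_zero_iff_of_nonpos h1).1 h2 y (Finset.mem_univ y)
  rcases mul_eq_zero.1 h3 with h4 | h4
  · exact absurd h4 hxy.ne'
  · linarith

theorem propagate' (r : X → X → ℝ) (hr : ∀ x y, 0 ≤ r x y) (u : X → ℝ)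
    (M : ℝ) (hM : ∀ x, u x ≤ M) (hL : ∀ x, u x = M → 0 ≤ ∑ y, r x y * (u y - u x))
    {x y : X} (hxy : Relation.ReflTransGen (fun x y => 0 < r x y) x y) (hx : u x = M) :
    u y = M := by
  induction hxy with
  | refl => exact hx
  | tail _ h ih => exact propagate r hr u M hM hL h ih

theorem lap_neg (r : X → X → ℝ) (u : X → ℝ) (x : X) :
    ∑ y, r x y * ((- u y) - (- u x)) = - ∑ y, r x y * (u y - u x) := by
  rw [← Finset.sum_neg_distrib]
  apply Finset.sum_congr rfl
  intro y _
  ring

/-- If `L u` is constant then the constant is `0` and `u` is constant. -/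
theorem const_of_lap [Nonempty X] (r : X → X → ℝ) (hr : ∀ x y, 0 ≤ r x y) (x0 : X)
    (hreach : ∀ x, Relation.ReflTransGen (fun x y => 0 < r x y) x x0) (u : X → ℝ) (c : ℝ)
    (hc : ∀ x, ∑ y, r x y * (u y - u x) = c) : c = 0 ∧ ∀ x, u x = u x0 := by
  obtain ⟨xM, hxM⟩ := Finite.exists_max u
  obtain ⟨xm, hxm⟩ := Finite.exists_min u
  have h1 : c ≤ 0 := by
    rw [← hc xM]
    apply Finset.sum_nonpos
    intro y _
    exact mul_nonpos_of_nonneg_of_nonpos (hr _ _) (by linarith [hxM y])
  have h2 : 0 ≤ c := by
    rw [← hc xm]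
    apply Finset.sum_nonneg
    intro y _
    exact mul_nonneg (hr _ _) (by linarith [hxm y])
  have h3 : c = 0 := le_antisymm h1 h2
  refine ⟨h3, ?_⟩
  have h4 : u x0 = u xM := propagate' r hr u (u xM) hxM
    (fun x _ => by rw [hc x, h3]) (hreach xM) rfl
  have h5 : - u x0 = - u xm := propagate' r hr (fun x => - u x) (- u xm)
    (fun x => by simpa using hxm x)
    (fun x _ => by
      show 0 ≤ ∑ y, r x y * ((- u y) - (- u x))
      rw [lap_neg, hc x, h3, neg_zero]) (hreach xm) rfl
  intro x
  have h6 := hxM x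
  have h7 := hxm x
  linarith

theorem poisson : POISSON_S := by
  intro X _ r x0 hr hreach f
  have : Nonempty X := ⟨x0⟩
  -- the linear map
  let T : (X → ℝ) →ₗ[ℝ] (X → ℝ) :=
    { toFun := fun u x => -(∑ y, r x y * (u y - u x)) + u x0
      map_add' := by
        intro u v
        funext x
        simp only [Pi.add_apply]
        have : ∑ y, r x y * (u y + v y - (u x + v x)) =
            ∑ y, r x y * (u y - u x) + ∑ y, r x y * (v y - v x) := by
          rw [← Finset.sum_add_distrib]
          apply Finset.sum_congr rfl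
          intro y _
          ring
        rw [this]
        ring
      map_smul' := by
        intro c u
        funext x
        simp only [Pi.smul_apply, smul_eq_mul, RingHom.id_apply]
        have : ∑ y, r x y * (c * u y - c * u x) = c * ∑ y, r x y * (u y - u x) := by
          rw [Finset.mul_sum]
          apply Finset.sum_congr rfl
          intro y _
          ring
        rw [this]
        ring }
  have hT : ∀ u x, T u x = -(∑ y, r x y * (u y - u x)) + u x0 := fun _ _ => rfl
  have hinj : Function.Injective T := by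
    rw [injective_iff_map_eq_zero]
    intro u hu
    have h1 : ∀ x, ∑ y, r x y * (u y - u x) = u x0 := by
      intro x
      have := congrFun hu x
      rw [hT] at this
      simp only [Pi.zero_apply] at this
      linarith
    obtain ⟨h2, h3⟩ := const_of_lap r hr x0 hreach u (u x0) h1
    funext x
    rw [h3 x, h2]
    rfl
  have hsurj : Function.Surjective T := LinearMap.injective_iff_surjective.1 hinj
  obtain ⟨u, hu⟩ := hsurj f
  have hsol : ∀ x, ∑ y, r x y * (u y - u x) = -(f x - u x0) := by
    intro x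
    have := congrFun hu x
    rw [hT] at this
    linarith
  refine ⟨u, u x0, hsol, ?_, ?_⟩
  · intro u' lam' h'
    have h1 : ∀ x, ∑ y, r x y * ((u' y - u y) - (u' x - u x)) = lam' - u x0 := by
      intro x
      have : ∑ y, r x y * ((u' y - u y) - (u' x - u x)) =
          ∑ y, r x y * (u' y - u' x) - ∑ y, r x y * (u y - u x) := by
        rw [← Finset.sum_sub_distrib]
        apply Finset.sum_congr rfl
        intro y _
        ring
      rw [this, h' x, hsol x]
      ring
    have h2 := (const_of_lap r hr x0 hreach (fun x => u' x - u x) _ h1).1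
    linarith
  · intro hf hf0
    by_contra hcon
    push Not at hcon
    obtain ⟨xm, hxm⟩ := Finite.exists_min u
    have h3 : - u x0 = - u xm := propagate' r hr (fun x => - u x) (- u xm)
      (fun x => by simpa using hxm x)
      (fun x _ => by
        show 0 ≤ ∑ y, r x y * ((- u y) - (- u x))
        rw [lap_neg, hsol x]
        linarith [hf x]) (hreach xm) rfl
    have h4 : 0 ≤ ∑ y, r x0 y * (u y - u x0) := by
      apply Finset.sum_nonneg
      intro y _
      exact mul_nonneg (hr _ _) (by linarith [hxm y])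
    rw [hsol x0] at h4
    linarith

end poisson

/-! ### SPEED -/

theorem speed : SPEED_S := by
  intro G _ ι _ S k ψ ρ hF ξ ξ' v0 T hξ
  have key : ∀ t, t ≤ T → ∀ v ∈ ball ψ v0 (ρ * (T - t)),
      (v ∈ evo S k Set.univ ξ ∅ t ↔ v ∈ evo S k Set.univ ξ' ∅ t) := by
    intro t
    induction t with
    | zero => intro _ v _; exact Iff.rfl
    | succ t ih =>
      intro ht v hv
      have hstep : ∀ s ∈ S, v + s ∈ ball ψ v0 (ρ * (T - t)) := by
        intro s hs a
        have h1 := hv a
        have h2 := hF.bd s hs a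
        rw [map_add]
        have h3 : ((ρ * (T - t) : ℕ) : ℤ) = ((ρ * (T - (t + 1)) : ℕ) : ℤ) + ρ := by
          rw [show T - t = (T - (t + 1)) + 1 by omega, mul_add, mul_one]
          push_cast
          rfl
        rw [h3]
        rw [abs_le] at h1 h2 ⊢
        constructor <;> linarith [h1.1, h1.2, h2.1, h2.2]
      have hmem : ∀ s ∈ S, (v + s ∈ act (ξ t) (evo S k Set.univ ξ ∅ t) ↔
          v + s ∈ act (ξ' t) (evo S k Set.univ ξ' ∅ t)) := by
        intro s hs
        have h1 := ih (by omega) (v + s) (hstep s hs)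
        have h2 : ξ t (v + s) = ξ' t (v + s) := by
          apply hξ
          intro a
          refine le_trans (hstep s hs a) ?_
          exact_mod_cast Nat.mul_le_mul_left ρ (Nat.sub_le T t)
        simp only [act, Set.mem_ofPred_eq, h1, h2]
      rw [evo_succ, evo_succ]
      simp only [nxt, Set.mem_ofPred_eq, cnt_congr S v hmem]
  intro t ht
  apply key t ht
  intro a
  rw [sub_self, abs_zero]
  positivity

/-! ### BALL -/

theorem ballS : BALL_S := by
  intro G _ ι _ ψ hinj u R
  let Q : Finset (ι → ℤ) := Fintype.piFinset (fun _ => Finset.Icc (-(R : ℤ)) R)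
  let e : G → (ι → ℤ) := fun v i => ψ i v - ψ i u
  have he : Function.Injective e := by
    intro v w h
    have h1 : v - w = 0 := by
      apply hinj
      intro i
      have := congrFun h i
      simp only [e] at this
      rw [map_sub]
      omega
    exact sub_eq_zero.1 h1
  have hmap : Set.MapsTo e (ball ψ u R) (Q : Set (ι → ℤ)) := by
    intro v hv
    rw [Finset.mem_coe, Fintype.mem_piFinset]
    intro i
    rw [Finset.mem_Icc]
    exact abs_le.1 (hv i)
  have hfin : (ball ψ u R).Finite :=
    Set.Finite.of_injOn hmap he.injOn Q.finite_toSet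
  refine ⟨hfin, ?_⟩
  have h1 : (ball ψ u R).ncard ≤ (Q : Set (ι → ℤ)).ncard :=
    Set.ncard_le_ncard_of_injOn e hmap he.injOn Q.finite_toSet
  rw [Set.ncard_coe_finset, Fintype.card_piFinset] at h1
  simp only [Int.card_Icc, Finset.prod_const] at h1
  have h2 : ((R : ℤ) + 1 - -(R : ℤ)).toNat = 2 * R + 1 := by omega
  rw [h2, Finset.card_univ] at h1
  exact h1

/-! ### EXSHIFT -/

theorem exshift : EXSHIFT_S := by
  intro G _ ε Z z f
  unfold Ex
  let e : Z ≃ (Z.map (addLeftEmbedding z)) :=
    { toFun := fun v => ⟨z + v.1, Finset.mem_map.2 ⟨v.1, v.2, rfl⟩⟩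
      invFun := fun v => ⟨-z + v.1, by
        obtain ⟨w, hw, hwv⟩ := Finset.mem_map.1 v.2
        rw [← hwv]
        simpa using hw⟩
      left_inv := fun v => by
        apply Subtype.ext
        simp
      right_inv := fun v => by
        apply Subtype.ext
        simp }
  rw [← (Equiv.arrowCongr e (Equiv.refl Err)).sum_comp]
  apply Finset.sum_congr rfl
  intro c _
  congr 1
  · rw [← e.prod_comp]
    apply Finset.prod_congr rfl
    intro v _
    simp
  · show f (fun w => ext _ _ (z + w)) = f (ext Z c)
    congr 1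
    funext w
    simp only [ext]
    by_cases hw : w ∈ Z
    · have hw' : z + w ∈ Z.map (addLeftEmbedding z) := Finset.mem_map.2 ⟨w, hw, rfl⟩
      rw [dif_pos hw, dif_pos hw']
      simp only [Equiv.arrowCongr_apply, Equiv.refl_apply, Function.comp]
      congr 1
      apply Subtype.ext
      show -z + (z + w) = w
      simp
    · have hw' : z + w ∉ Z.map (addLeftEmbedding z) := by
        intro h
        obtain ⟨w', h1, h2⟩ := Finset.mem_map.1 h
        have : w' = w := add_left_cancel h2
        exact hw (this ▸ h1)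
      rw [dif_neg hw, dif_neg hw']

/-! ### EXSUB -/

theorem univ_err : (Finset.univ : Finset Err) = {Err.keep, Err.zero, Err.one} := rfl

theorem sum_err (F : Err → ℝ) : ∑ e : Err, F e = F Err.keep + F Err.zero + F Err.one := by
  rw [univ_err, Finset.sum_insert (by decide), Finset.sum_insert (by decide),
    Finset.sum_singleton]
  ring

theorem sum_pr (ε : ℝ) : ∑ e : Err, pr ε e = 1 := by
  rw [sum_err]
  simp only [pr]
  ring

theorem sum_weights (ε : ℝ) (V : Type) [Fintype V] [DecidableEq V] :
    ∑ b : V → Err, ∏ v, pr ε (b v) = 1 := by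
  have h := Finset.prod_univ_sum (fun _ : V => (Finset.univ : Finset Err))
    (fun _ e => pr ε e)
  rw [Fintype.piFinset_univ] at h
  rw [← h]
  simp only [sum_pr, Finset.prod_const_one]

theorem exsub : EXSUB_S := by
  intro G ε Z Z' f hZ hf
  unfold Ex
  let p : Z → Prop := fun v => v.1 ∈ Z'
  let e1 := Equiv.piEquivPiSubtypeProd p (fun _ : Z => Err)
  let e2 : {v : Z // p v} ≃ Z' :=
    { toFun := fun v => ⟨v.1.1, v.2⟩
      invFun := fun v => ⟨⟨v.1, hZ v.2⟩, v.2⟩
      left_inv := fun v => rfl
      right_inv := fun v => rfl }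
  rw [← e1.symm.sum_comp, Fintype.sum_prod_type,
    ← (Equiv.arrowCongr e2 (Equiv.refl Err)).sum_comp]
  apply Finset.sum_congr rfl
  intro a _
  have hfa : ∀ b, f (ext Z (e1.symm (a, b))) =
      f (ext Z' ((Equiv.arrowCongr e2 (Equiv.refl Err)) a)) := by
    intro b
    apply hf
    intro w hw
    simp only [ext]
    rw [dif_pos (hZ hw), dif_pos hw]
    simp only [e1, Equiv.piEquivPiSubtypeProd, Equiv.coe_fn_symm_mk]
    rw [dif_pos (show p ⟨w, hZ hw⟩ from hw)]
    rfl
  have hpr : ∀ b, ∏ v : Z, pr ε (e1.symm (a, b) v) =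
      (∏ v : {v : Z // p v}, pr ε (a v)) * ∏ v : {v : Z // ¬ p v}, pr ε (b v) := by
    intro b
    rw [← Fintype.prod_subtype_mul_prod_subtype p (fun v => pr ε (e1.symm (a, b) v))]
    congr 1
    · apply Finset.prod_congr rfl
      intro v _
      simp only [e1, Equiv.piEquivPiSubtypeProd, Equiv.coe_fn_symm_mk]
      rw [dif_pos v.2]
    · apply Finset.prod_congr rfl
      intro v _
      simp only [e1, Equiv.piEquivPiSubtypeProd, Equiv.coe_fn_symm_mk]
      rw [dif_neg v.2]
  simp only [hfa, hpr]
  rw [← Finset.sum_mul, ← Finset.mul_sum, sum_weights, mul_one]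
  congr 1
  rw [← e2.prod_comp]
  apply Finset.prod_congr rfl
  intro v _
  simp

end Pool.Agent.Lib.MP_fdcb14_pr.H97
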