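import Mathlib
import Pool.Agent.Lib.MP_fdcb14_pr.W.Interfaces
import Pool.Agent.Lib.MP_fdcb14_pr.W.Base
import Pool.Agent.Lib.MP_fdcb14_pr.W.H97.Small

/-!
# MP_fdcb14_pr: the decomposition of a ball into lines (STAGES)
-/

namespace Pool.Agent.Lib.MP_fdcb14_pr.H97

open Pool.Agent.Lib.MP_fdcb14_pr Classical

variable {G : Type} [AddCommGroup G] {ι : Type} [Fintype ι]

/-- Initial subsets of a ball. -/
def Initial (φ : G →+ ℤ) (g : G) (B D : Set G) : Prop :=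
  D ⊆ B ∧ ∀ v ∈ B, v ∉ D → ∀ w ∈ D, φ w < φ v ∨ (φ w = φ v ∧ ∀ i : ℤ, w ≠ v + i • g)

theorem initial_robust {S : Finset G} {k : ℕ} {ψ : ι → G →+ ℤ} {ρ : ℕ} {φ : G →+ ℤ} {g : G}
    (hS : Wind S k) (hF : Funs S ψ ρ) (hker : ∃ s ∈ S, s ≠ 0 ∧ φ s = 0)
    (hline : ∀ s ∈ S, φ s = 0 → ∃ j : ℤ, s = j • g) {u : G} {R : ℕ} {D : Set G}
    (hD : Initial φ g (ball ψ u R) D) (lo hi : ι → ℤ) : Robust S k (D ∩ box ψ lo hi) := by
  intro v hv
  by_cases h1 : v ∈ box ψ lo hi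
  · by_cases h2 : v ∈ ball ψ u R
    · have h3 : v ∉ D := fun h => hv ⟨h, h1⟩
      refine le_trans (Nat.succ_le_succ (Finset.card_le_card ?_)) (card_neg_lt hS hF φ hker)
      intro s hs
      simp only [Finset.mem_filter] at hs ⊢
      refine ⟨hs.1, ?_⟩
      rcases hD.2 v h2 h3 _ hs.2.1 with h | ⟨h, h'⟩
      · rw [map_add] at h
        omega
      · exfalso
        rw [map_add] at h
        obtain ⟨j, hj⟩ := hline s hs.1 (by omega)
        exact h' j (by rw [hj])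
    · exact le_trans (Nat.succ_le_succ
        (cnt_mono S (Set.inter_subset_left.trans hD.1) v)) (robust_ball hS hF u R v h2)
  · exact le_trans (Nat.succ_le_succ (cnt_mono S Set.inter_subset_right v))
      (robust_box hS hF lo hi v h1)

/-- Removal of one line. -/
theorem initial_step {S : Finset G} {ψ : ι → G →+ ℤ} {ρ : ℕ} {φ : G →+ ℤ} {g : G}
    (hF : Funs S ψ ρ) (hφg : φ g = 0) (hg : g ≠ 0)
    {u : G} {R : ℕ} {D : Set G} (hD : Initial φ g (ball ψ u R) D) (hne : D.Nonempty) :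
    ∃ (z : G) (D' : Set G), Initial φ g (ball ψ u R) D' ∧ D'.ncard < D.ncard ∧ D' ⊆ D ∧
      (∀ w ∈ D, φ w ≤ φ z) ∧
      (∀ w ∈ D, w ∉ D' → ∃ i : ℤ, -(2 * R + 1 : ℤ) < i ∧ i ≤ 0 ∧ w = z + i • g) ∧
      (∀ w ∈ D', ∀ i : ℤ, w ≠ z + i • g) := by
  have hfin : D.Finite := (ballS G ι ψ hF.inj u R).1.subset hD.1
  obtain ⟨z0, hz0, hmax⟩ := Set.exists_max_image D φ hfin hne
  obtain ⟨a, ha⟩ : ∃ a, ψ a g ≠ 0 := by
    by_contra hcon
    push Not at hcon
    exact hg (hF.inj g hcon)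
  have hdist : ∀ i i' : ℤ, z0 + i • g ∈ D → z0 + i' • g ∈ D → |i - i'| ≤ 2 * R := by
    intro i i' hi hi'
    have e1 := hD.1 hi a
    have e2 := hD.1 hi' a
    rw [map_add, map_zsmul, smul_eq_mul] at e1 e2
    have e3 : |(i - i') * ψ a g| ≤ 2 * R := by
      have : (i - i') * ψ a g = (ψ a z0 + i * ψ a g - ψ a u) -
          (ψ a z0 + i' * ψ a g - ψ a u) := by ring
      rw [this]
      refine le_trans (abs_sub _ _) ?_
      linarith
    rw [abs_mul] at e3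
    have e4 : 1 ≤ |ψ a g| := Int.one_le_abs ha
    nlinarith [abs_nonneg (i - i')]
  have hI : {i : ℤ | z0 + i • g ∈ D}.Finite := by
    apply (Set.finite_Icc (-(2 * R : ℤ)) (2 * R)).subset
    intro i hi
    have := hdist i 0 hi (by rw [zero_smul, add_zero]; exact hz0)
    rw [sub_zero, abs_le] at this
    exact ⟨this.1, this.2⟩
  obtain ⟨i0, hi0, hi0max⟩ := Set.exists_max_image {i : ℤ | z0 + i • g ∈ D} id hI
    ⟨0, by show z0 + (0 : ℤ) • g ∈ D; rw [zero_smul, add_zero]; exact hz0⟩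
  set z := z0 + i0 • g with hz
  have hφz : φ z = φ z0 := by rw [hz, map_add, map_zsmul, hφg, smul_zero, add_zero]
  set D' : Set G := {w | w ∈ D ∧ ∀ i : ℤ, w ≠ z + i • g} with hD'
  refine ⟨z, D', ⟨fun w hw => hD.1 hw.1, ?_⟩, ?_, fun w hw => hw.1, ?_, ?_, fun w hw => hw.2⟩
  · intro v hv hvD w hw
    by_cases hvD2 : v ∈ D
    · have h3 : ∃ i : ℤ, v = z + i • g := by
        by_contra hcon
        push Not at hcon
        exact hvD ⟨hvD2, hcon⟩
      obtain ⟨i, hi⟩ := h3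
      have h4 : φ v = φ z0 := by rw [hi, map_add, map_zsmul, hφg, smul_zero, add_zero, hφz]
      have h5 := hmax w hw.1
      rcases lt_or_eq_of_le h5 with h6 | h6
      · left
        rw [h4]
        exact h6
      · right
        refine ⟨by rw [h4]; exact h6, ?_⟩
        intro i' h7
        apply hw.2 (i + i')
        rw [h7, hi, add_smul, add_assoc]
    · exact hD.2 v hv hvD2 w hw.1
  · apply Set.ncard_lt_ncard _ hfin
    refine ⟨fun w hw => hw.1, ?_⟩
    intro h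
    have h1 : z ∈ D' := h hi0
    exact h1.2 0 (by rw [zero_smul, add_zero])
  · intro w hw
    rw [hφz]
    exact hmax w hw
  · intro w hw hwD
    have h3 : ∃ i : ℤ, w = z + i • g := by
      by_contra hcon
      push Not at hcon
      exact hwD ⟨hw, hcon⟩
    obtain ⟨i, hi⟩ := h3
    have h4 : z0 + (i0 + i) • g ∈ D := by
      rw [add_smul, ← add_assoc, ← hz, ← hi]
      exact hw
    have h5 := hi0max (i0 + i) h4
    have h6 := hdist (i0 + i) i0 h4 hi0
    simp only [id] at h5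
    rw [add_sub_cancel_left, abs_le] at h6
    exact ⟨i, by omega, by omega, hi⟩

theorem stages_aux {S : Finset G} {ψ : ι → G →+ ℤ} {ρ : ℕ} {φ : G →+ ℤ} {g : G}
    (hF : Funs S ψ ρ) (hφg : φ g = 0) (hg : g ≠ 0) {u : G} {R : ℕ} :
    ∀ n : ℕ, ∀ D : Set G, Initial φ g (ball ψ u R) D → D.ncard ≤ n →
      ∃ (M : ℕ) (Ds : ℕ → Set G) (z : ℕ → G), M ≤ n ∧ Ds 0 = D ∧ Ds M = ∅ ∧
        (∀ j < M, Ds (j + 1) ⊆ Ds j ∧ (∀ w ∈ Ds j, φ w ≤ φ (z j)) ∧
          (∀ w ∈ Ds j, w ∉ Ds (j + 1) →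
            ∃ i : ℤ, -(2 * R + 1 : ℤ) < i ∧ i ≤ 0 ∧ w = z j + i • g) ∧
          (∀ w ∈ Ds (j + 1), ∀ i : ℤ, w ≠ z j + i • g)) ∧
        (∀ j ≤ M, Initial φ g (ball ψ u R) (Ds j)) := by
  intro n
  induction n with
  | zero =>
    intro D hD hn
    have hfin : D.Finite := (ballS G ι ψ hF.inj u R).1.subset hD.1
    have h0 : D = ∅ := by
      rw [← Set.ncard_eq_zero hfin]
      omega
    refine ⟨0, fun _ => D, fun _ => 0, le_rfl, rfl, h0, ?_, fun _ _ => hD⟩
    intro j hj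
    exact absurd hj (Nat.not_lt_zero j)
  | succ n ih =>
    intro D hD hn
    by_cases hne : D.Nonempty
    · obtain ⟨z, D', h1, h2, h3, h4, h5, h6⟩ := initial_step hF hφg hg hD hne
      obtain ⟨M, Ds, zs, g1, g2, g3, g4, g5⟩ := ih D' h1 (by omega)
      refine ⟨M + 1, fun j => Nat.casesOn j D Ds, fun j => Nat.casesOn j z zs, by omega, rfl, g3,
        ?_, ?_⟩
      · intro j hj
        cases j with
        | zero =>
          show Ds 0 ⊆ D ∧ (∀ w ∈ D, φ w ≤ φ z) ∧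
            (∀ w ∈ D, w ∉ Ds 0 → ∃ i : ℤ, -(2 * R + 1 : ℤ) < i ∧ i ≤ 0 ∧ w = z + i • g) ∧
            (∀ w ∈ Ds 0, ∀ i : ℤ, w ≠ z + i • g)
          rw [g2]
          exact ⟨h3, h4, h5, h6⟩
        | succ j => exact g4 j (by omega)
      · intro j hj
        cases j with
        | zero => exact hD
        | succ j => exact g5 j (by omega)
    · rw [Set.not_nonempty_iff_eq_empty] at hne
      refine ⟨0, fun _ => D, fun _ => 0, by omega, rfl, hne, ?_, fun _ _ => hD⟩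
      intro j hj
      exact absurd hj (Nat.not_lt_zero j)

theorem stages : STAGES_S := by
  intro G _ ι _ S k ψ ρ φ g hS hF hφg hg hker hline u R
  have hB : Initial φ g (ball ψ u R) (ball ψ u R) :=
    ⟨subset_rfl, fun v hv hv' => absurd hv hv'⟩
  obtain ⟨M, Ds, z, h1, h2, h3, h4, h5⟩ := stages_aux hF hφg hg (u := u) (R := R) _
    (ball ψ u R) hB le_rfl
  refine ⟨M, Ds, z, le_trans h1 (ballS G ι ψ hF.inj u R).2, h2, h3, h4, ?_⟩
  intro j hj lo hi
  exact initial_robust hS hF hker hline (h5 j hj) lo hi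

end Pool.Agent.Lib.MP_fdcb14_pr.H97
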