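import Mathlib
import Pool.Agent.Lib.MP_fdcb14_pr.W.Interfaces
import Pool.Agent.Lib.MP_fdcb14_pr.W.Base
import Pool.Agent.Lib.MP_fdcb14_pr.W.H53.Heavy

/-!
# MP_fdcb14_pr: assembly of the modules (ZERO)
-/

namespace Pool.Agent.Lib.MP_fdcb14_pr.H97

open Pool.Agent.Lib.MP_fdcb14_pr MeasureTheory ProbabilityTheory

universe u

/-- The union bound. -/
theorem ub {α : Type*} {Ω : Type*} [MeasurableSpace Ω] (μ : Measure Ω) (I : Finset α)
    (F : α → Set Ω) (x : ℝ) (h : ∀ a ∈ I, μ (F a) ≤ ENNReal.ofReal x) :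
    μ (⋃ a ∈ I, F a) ≤ ENNReal.ofReal (I.card * x) := by
  refine le_trans (measure_biUnion_finset_le I F) ?_
  refine le_trans (Finset.sum_le_card_nsmul _ _ _ h) ?_
  rw [nsmul_eq_mul, ENNReal.ofReal_mul (by positivity), ENNReal.ofReal_natCast]

/-- The probability of a seed. -/
theorem seedProb {G : Type} [AddCommGroup G] (S : Finset G) (k : ℕ) (hS : S.card = 2 * k + 1)
    {Ω : Type u} [MeasurableSpace Ω] (μ : Measure Ω) (ξ : ℕ → G → Ω → Err) (ε : ℝ) (hε : 0 < ε)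
    (h : IsNoise μ ξ ε) (t : ℕ) (v : G) :
    μ {ω | Seed S (fun w => ξ t w ω) v} ≤ ENNReal.ofReal ((2 * k + 1 : ℝ) ^ 2 * ε ^ 2) := by
  classical
  obtain ⟨I, hI⟩ : ∃ I : Finset (G × G), I = (S ×ˢ S).filter (fun p => p.1 ≠ p.2) := ⟨_, rfl⟩
  have h1 : {ω | Seed S (fun w => ξ t w ω) v} ⊆ ⋃ p ∈ I,
      {ω | ∀ x ∈ ({(t, v + p.1), (t, v + p.2)} : Finset (ℕ × G)), ξ x.1 x.2 ω = Err.one} := by
    intro ω hω
    obtain ⟨s, hs, s', hs', hne, h1, h2⟩ := H53.seed_pair S _ v hω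
    simp only [Set.mem_iUnion]
    refine ⟨(s, s'), ?_, ?_⟩
    · rw [hI]
      simp [hs, hs', hne]
    · simp only [Set.mem_ofPred_eq, Finset.mem_insert, Finset.mem_singleton]
      rintro x (rfl | rfl)
      · exact h1
      · exact h2
  refine le_trans (measure_mono h1) ?_
  refine le_trans (ub μ I _ (ε ^ 2) ?_) ?_
  · intro p hp
    rw [H53.measure_all_one μ ξ ε h]
    have h2 : ({(t, v + p.1), (t, v + p.2)} : Finset (ℕ × G)).card = 2 := by
      rw [Finset.card_pair]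
      intro h3
      rw [hI, Finset.mem_filter] at hp
      apply hp.2
      have h4 := (Prod.mk.inj h3).2
      exact add_left_cancel h4
    rw [h2, ENNReal.ofReal_pow hε.le]
  · apply ENNReal.ofReal_le_ofReal
    apply mul_le_mul_of_nonneg_right _ (by positivity)
    have h2 : I.card ≤ (2 * k + 1) ^ 2 := by
      rw [hI]
      refine le_trans (Finset.card_filter_le _ _) ?_
      rw [Finset.card_product, hS, sq]
    exact_mod_cast h2

theorem ball_symm {G ι : Type} [AddCommGroup G] (ψ : ι → G →+ ℤ) {u v : G} {R : ℕ}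
    (h : v ∈ ball ψ u R) : u ∈ ball ψ v R := by
  intro i
  have := h i
  rw [abs_sub_comm] at this
  exact this

theorem ball_trans {G ι : Type} [AddCommGroup G] (ψ : ι → G →+ ℤ) {u v w : G} {R R' : ℕ}
    (h : v ∈ ball ψ u R) (h' : w ∈ ball ψ v R') : w ∈ ball ψ u (R + R') := by
  intro i
  have h1 := h i
  have h2 := h' i
  have h3 : ψ i w - ψ i u = (ψ i w - ψ i v) + (ψ i v - ψ i u) := by ring
  rw [h3]
  refine le_trans (abs_add_le _ _) ?_
  push_cast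
  linarith

/-- The truncated noise. -/
noncomputable def trunc {G : Type} (B : Set G) (η : ℕ → G → Err) : ℕ → G → Err := by
  classical
  exact fun t w => if η t w = Err.one ∧ w ∉ B then Err.keep else η t w

theorem trunc_eq {G : Type} (B : Set G) (η : ℕ → G → Err) (t : ℕ) (w : G) (hw : w ∈ B) :
    η t w = trunc B η t w := by
  classical
  unfold trunc
  simp [hw]

theorem trunc_one {G : Type} (B : Set G) (η : ℕ → G → Err) (t : ℕ) (w : G)
    (hw : trunc B η t w = Err.one) : η t w = Err.one ∧ w ∈ B := by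
  classical
  unfold trunc at hw
  by_cases h : η t w = Err.one ∧ w ∉ B
  · rw [if_pos h] at hw
    exact absurd hw (by simp)
  · rw [if_neg h] at hw
    exact ⟨hw, by by_contra h2; exact h ⟨hw, h2⟩⟩

theorem trunc_le {G : Type} (B : Set G) (η : ℕ → G → Err) (t : ℕ) : Le (trunc B η t) (η t) := by
  classical
  refine ⟨fun w hw => (trunc_one B η t w hw).1, fun w hw => ?_⟩
  unfold trunc
  simp [hw]

theorem seed_mono {G : Type} [AddCommGroup G] (S : Finset G) {η η' : G → Err}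
    (h : ∀ w, η' w = Err.one → η w = Err.one) {v : G} (hv : Seed S η' v) : Seed S η v :=
  le_trans hv (cnt_mono S (fun w hw => h w hw) v)

/-- The deterministic part of the assembly. -/
theorem det (hBall : BALL_S) (hSpeed : SPEED_S) (hGlobal : GLOBAL_S)
    {G : Type} [AddCommGroup G] {ι : Type} [Fintype ι] [Nonempty ι] (S : Finset G) (k : ℕ)
    (ψ : ι → G →+ ℤ) (ρ : ℕ) (hW : Wind S k) (hF : Funs S ψ ρ) (N q l0 R l : ℕ) (hN : 1 ≤ N)
    (hR : R = 4 * (2 * ρ + 1) * N) (hl : l = q * l0) (hl1 : 1 ≤ l)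
    (Succ : G → (ℕ → G → Err) → Prop)
    (hSucc : ∀ u, ∀ ξ ξ' : ℕ → G → Err, (∀ t, Le (ξ' t) (ξ t)) → Succ u ξ → ∀ lo hi : ι → ℤ,
        box ψ lo hi ⊆ ball ψ u R →
        (∀ t < q * l0, ∀ v ∈ box ψ lo hi, ¬ Seed S (ξ' t) v) →
        evo S k (box ψ lo hi) ξ' (box ψ lo hi) (q * l0) = ∅)
    (η : ℕ → G → Err) (T : ℕ) (v0 : G)
    (h1 : ∀ i ≤ T, ∀ u ∈ ball ψ v0 (ρ * (T + 1) + R),
      ¬ ∃ A : Finset (ℕ × G), N ≤ A.card ∧ ∀ p ∈ A, (i + 1 - 2 * N) * l ≤ p.1 ∧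
        p.1 < (i + 1 - 2 * N) * l + 2 * N * l ∧ p.2 ∈ ball ψ u R ∧ Seed S (fun v => η p.1 v) p.2)
    (h2 : ∀ i ≤ T, ∀ u ∈ ball ψ v0 (ρ * (T + 1) + R), Succ u (fun t v => η (i * l + t) v))
    (h3 : ∀ t, (T / l - 1) * l ≤ t → t < (T / l + 1) * l → ∀ u ∈ ball ψ v0 R,
      ¬ Seed S (fun v => η t v) u) :
    v0 ∉ evo S k Set.univ η ∅ T := by
  classical
  intro hv0
  obtain ⟨B, hB⟩ : ∃ B : Set G, B = ball ψ v0 (ρ * T) := ⟨_, rfl⟩
  obtain ⟨ξ', hξ'⟩ : ∃ ξ' : ℕ → G → Err, ξ' = trunc B η := ⟨_, rfl⟩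
  -- finite speed
  have hv1 : v0 ∈ evo S k Set.univ ξ' ∅ T := by
    rw [← hSpeed G ι S k ψ ρ hF η ξ' v0 T ?_ T le_rfl]
    · exact hv0
    · intro t w hw
      rw [hξ']
      exact trunc_eq B η t w (by rw [hB]; exact hw)
  -- seeds of the truncated noise
  have hseed : ∀ t v, Seed S (ξ' t) v → Seed S (η t) v ∧ v ∈ ball ψ v0 (ρ * (T + 1)) := by
    intro t v hv
    refine ⟨seed_mono S (fun w hw => ?_) hv, ?_⟩
    · rw [hξ'] at hw
      exact (trunc_one B η t w hw).1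
    · obtain ⟨s, hs, s', hs', hne, h4, h5⟩ := H53.seed_pair S _ v hv
      rw [hξ'] at h4
      have h6 := (trunc_one B η t _ h4).2
      rw [hB] at h6
      intro i
      have h7 := h6 i
      have h8 := hF.bd s hs i
      rw [map_add] at h7
      rw [abs_le] at h7 h8 ⊢
      push_cast at h7 ⊢
      constructor
      · nlinarith [h7.1, h8.2]
      · nlinarith [h7.2, h8.1]
  have hfin : (ball ψ v0 (ρ * (T + 1))).Finite := (hBall G ι ψ hF.inj v0 (ρ * (T + 1))).1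
  obtain ⟨U, hU⟩ : ∃ U : ℕ → Finset G, U = fun i => hfin.toFinset.filter
      (fun v => ∃ t, i * l ≤ t ∧ t < (i + 1) * l ∧ Seed S (ξ' t) v) := ⟨_, rfl⟩
  have hUmem : ∀ i v, v ∈ U i ↔ ∃ t, i * l ≤ t ∧ t < (i + 1) * l ∧ Seed S (ξ' t) v := by
    intro i v
    rw [hU]
    simp only [Finset.mem_filter, Set.Finite.mem_toFinset]
    constructor
    · exact fun h => h.2
    · rintro ⟨t, h4, h5, h6⟩
      exact ⟨(hseed t v h6).2, t, h4, h5, h6⟩
  have hUball : ∀ i, ∀ v ∈ U i, v ∈ ball ψ v0 (ρ * (T + 1)) := by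
    intro i v hv
    obtain ⟨t, _, _, h6⟩ := (hUmem i v).1 hv
    exact (hseed t v h6).2
  have hGl := hGlobal G ι S k ψ ρ hW hF N hN R hR l hl1 ξ' U hUmem T ?_ ?_ (T / l) T v0
    (Nat.div_le_self T l) (Nat.div_mul_le_self T l) ?_ hv1
  · obtain ⟨j, hj1, hj2, u, hu, hvu⟩ := hGl
    obtain ⟨t, ht1, ht2, ht3⟩ := (hUmem j u).1 hu
    refine h3 t ?_ ?_ u (ball_symm ψ hvu) (hseed t u ht3).1
    · refine le_trans (Nat.mul_le_mul_right l ?_) ht1
      omega
    · refine lt_of_lt_of_le ht2 (Nat.mul_le_mul_right l ?_)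
      omega
  · -- few seeds
    intro i u A hi hA
    by_contra hcard
    push Not at hcard
    have hAne : A.Nonempty := Finset.card_pos.1 (by omega)
    obtain ⟨p0, hp0⟩ := hAne
    obtain ⟨_, _, hp0U, hp0b⟩ := hA p0 hp0
    have hu : u ∈ ball ψ v0 (ρ * (T + 1) + R) :=
      ball_trans ψ (hUball _ _ hp0U) (ball_symm ψ hp0b)
    have hex : ∀ p : ℕ × G, ∃ t, p ∈ A → p.1 * l ≤ t ∧ t < (p.1 + 1) * l ∧
        Seed S (ξ' t) p.2 := by
      intro p
      by_cases hp : p ∈ A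
      · obtain ⟨t, h4, h5, h6⟩ := (hUmem _ _).1 (hA p hp).2.2.1
        exact ⟨t, fun _ => ⟨h4, h5, h6⟩⟩
      · exact ⟨0, fun h => absurd h hp⟩
    choose τ hτ using hex
    apply h1 i hi u hu
    refine ⟨A.image (fun p => (τ p, p.2)), ?_, ?_⟩
    · rw [Finset.card_image_of_injOn]
      · exact hcard
      · intro p hp p' hp' hpp
        simp only [Prod.mk.injEq] at hpp
        obtain ⟨h4, h5, _⟩ := hτ p hp
        obtain ⟨h6, h7, _⟩ := hτ p' hp'
        rw [hpp.1] at h4 h5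
        have h8 : p.1 = p'.1 := by
          have h9 : p.1 * l < (p'.1 + 1) * l := lt_of_le_of_lt h4 h7
          have h10 : p'.1 * l < (p.1 + 1) * l := lt_of_le_of_lt h6 h5
          have h11 := Nat.lt_of_mul_lt_mul_right h9
          have h12 := Nat.lt_of_mul_lt_mul_right h10
          omega
        exact Prod.ext h8 hpp.2
    · intro p hp
      obtain ⟨p', hp', rfl⟩ := Finset.mem_image.1 hp
      obtain ⟨h4, h5, h6⟩ := hτ p' hp'
      obtain ⟨h7, h8, _, h10⟩ := hA p' hp'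
      refine ⟨?_, ?_, h10, (hseed _ _ h6).1⟩
      · refine le_trans (Nat.mul_le_mul_right l ?_) h4
        omega
      · refine lt_of_lt_of_le h5 ?_
        rw [← Nat.add_mul]
        apply Nat.mul_le_mul_right
        omega
  · -- extinction
    intro i j hi hj u hu lo hi' hbox hno
    have hub : u ∈ ball ψ v0 (ρ * (T + 1) + R) := by
      intro a
      have h4 := hUball _ _ hu a
      push_cast at h4 ⊢
      have h5 : (0 : ℤ) ≤ R := by positivity
      linarith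
    have h4 := hSucc u (fun t v => η (i * l + t) v) (fun t => ξ' (i * l + t)) ?_ (h2 i hi u hub)
      lo hi' hbox ?_
    · rw [← hl] at h4
      exact h4
    · intro t
      rw [hξ']
      exact trunc_le B η (i * l + t)
    · intro t ht v hv hsd
      refine hno v ((hUmem i v).2 ⟨i * l + t, Nat.le_add_right _ _, ?_, hsd⟩) hv
      rw [← hl] at ht
      rw [Nat.add_mul, one_mul]
      omega
  · -- T ≤ (T / l + 1) * l
    have h4 := Nat.lt_div_mul_add (a := T) (b := l) (by omega)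
    rw [Nat.add_mul, one_mul]
    omega

/-- ZERO. -/
theorem zero (hFuns : FUNS_S) (hPhig : PHIG_S) (hLine : LINE_S) (hColor : COLOR_S)
    (hBall : BALL_S) (hSpeed : SPEED_S) (hGlobal : GLOBAL_S) (hSlab : SLAB_S.{u})
    (hHeavy : HEAVY_S.{u}) (hAsym : ASYM_S) : ZERO_S.{u} := by
  classical
  intro d S k hW hcol
  obtain ⟨ι, hι, hne, ψ, ρ, hF⟩ := hFuns d S k hW hcol
  obtain ⟨s, hs, hs0, -⟩ := hF.ker (Classical.arbitrary ι)
  obtain ⟨φ, g, J, hL⟩ := hPhig d S k hW ⟨s, hs, hs0⟩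
  obtain ⟨K, hK, hLM⟩ := hLine (Site d) S k φ g J hW hL
  obtain ⟨C, col, hC, hcolr⟩ := hColor d S
  obtain ⟨c, hc, ε0, hε0, hε02, hA⟩ := hAsym (Fintype.card ι) ρ K C (2 * k + 1) hF.pos hK hC
    (by omega)
  refine ⟨c, hc, ε0, hε0, hε02, ?_⟩
  intro ε hε hεlt Ω _ μ _ ξ hξ T hT v0
  obtain ⟨N, q, l0, q1, R, l, hN, hq, hl0, hR, hl, hKR, hl0ge, hCq, hfinal⟩ := hA ε hε hεlt
  have hsum := hfinal T hT
  have hl1 : 1 ≤ l := by
    rw [hl]
    exact Nat.mul_pos hq hl0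
  have hg0 : g ≠ 0 := by
    intro h
    have := hL.free 1 (by rw [h]; simp)
    omega
  have hk1 : ∃ s ∈ S, s ≠ 0 ∧ φ s = 0 := by
    obtain ⟨j, hj⟩ := hL.ne
    refine ⟨(j : ℤ) • g, hL.mem j hj, ?_, ?_⟩
    · intro h
      have h1 := hL.free _ h
      have h2 := hL.pos j hj
      omega
    · rw [map_zsmul, hL.phig, smul_zero]
  have hk2 : ∀ s ∈ S, φ s = 0 → ∃ j : ℤ, s = j • g := by
    intro s hs hφ
    obtain ⟨j, hj, _⟩ := hL.ker s hs hφ
    exact ⟨j, hj⟩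
  choose Succ hS1 hS2 using fun u : Site d => hSlab (Site d) ι S k ψ ρ φ g K hW hF hL.phig hg0
    hk1 hk2 hK hLM R ε hε hKR (le_trans hεlt.le hε02) l0 hl0ge q u
  obtain ⟨Bf, hBf⟩ : ∃ Bf : Finset (Site d), Bf =
    (hBall (Site d) ι ψ hF.inj v0 (ρ * (T + 1) + R)).1.toFinset := ⟨_, rfl⟩
  have hBfmem : ∀ u, u ∈ Bf ↔ u ∈ ball ψ v0 (ρ * (T + 1) + R) := by
    intro u
    rw [hBf]; simp
  have hBfc : Bf.card ≤ (2 * (ρ * (T + 1) + R) + 1) ^ Fintype.card ι := by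
    rw [hBf, ← Set.ncard_eq_toFinset_card _ (hBall (Site d) ι ψ hF.inj v0 (ρ * (T + 1) + R)).1]
    exact (hBall (Site d) ι ψ hF.inj v0 (ρ * (T + 1) + R)).2
  obtain ⟨Bs, hBs⟩ : ∃ Bs : Finset (Site d), Bs =
    (hBall (Site d) ι ψ hF.inj v0 R).1.toFinset := ⟨_, rfl⟩
  have hBsmem : ∀ u, u ∈ Bs ↔ u ∈ ball ψ v0 R := by
    intro u
    rw [hBs]; simp
  have hBsc : Bs.card ≤ (2 * R + 1) ^ Fintype.card ι := by
    rw [hBs, ← Set.ncard_eq_toFinset_card _ (hBall (Site d) ι ψ hF.inj v0 R).1]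
    exact (hBall (Site d) ι ψ hF.inj v0 R).2
  obtain ⟨E, hE⟩ : ∃ E : ℝ, E = (C * ((2 * R + 1 : ℝ) ^ (Fintype.card ι) * (2 * N * l) *
    ((2 * k + 1 : ℕ) : ℝ) ^ 2 * ε ^ 2) ^ q1 + (1 / 2) ^ q : ℝ) := ⟨_, rfl⟩
  have hE0 : 0 ≤ E := by rw [hE]; positivity
  -- the bad events
  obtain ⟨F0, hF0⟩ : ∃ F0 : Set Ω, F0 = {ω | ξ T v0 ω = Err.one} := ⟨_, rfl⟩
  obtain ⟨F1, hF1⟩ : ∃ F1 : Set Ω, F1 = ⋃ p ∈ (Finset.Ico ((T / l - 1) * l) ((T / l + 1) * l)) ×ˢ Bs,
    {ω | Seed S (fun v => ξ p.1 v ω) p.2} := ⟨_, rfl⟩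
  obtain ⟨F2, hF2⟩ : ∃ F2 : ℕ × Site d → Set Ω, F2 = fun p =>
    {ω | ∃ A : Finset (ℕ × Site d), N ≤ A.card ∧ ∀ p' ∈ A, (p.1 + 1 - 2 * N) * l ≤ p'.1 ∧
        p'.1 < (p.1 + 1 - 2 * N) * l + 2 * N * l ∧
        p'.2 ∈ ball ψ p.2 R ∧ Seed S (fun v => ξ p'.1 v ω) p'.2} := ⟨_, rfl⟩
  obtain ⟨F3, hF3⟩ : ∃ F3 : ℕ × Site d → Set Ω, F3 = fun p =>
    {ω | ¬ Succ p.2 (fun t v => ξ (p.1 * l + t) v ω)} := ⟨_, rfl⟩
  have hincl : {ω | v0 ∈ act (fun w => ξ T w ω) (evo S k Set.univ (fun t w => ξ t w ω) ∅ T)} ⊆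
      F0 ∪ (F1 ∪ ⋃ p ∈ (Finset.range (T + 1)) ×ˢ Bf, (F2 p ∪ F3 p)) := by
    intro ω hω
    by_contra hcon
    simp only [Set.mem_union, not_or, Set.mem_iUnion, not_exists] at hcon
    obtain ⟨hc0, hc1, hc2⟩ := hcon
    rcases hω with hω | hω
    · exact hc0 (by rw [hF0]; exact hω)
    · refine det hBall hSpeed hGlobal S k ψ ρ hW hF N q l0 R l hN hR hl hl1 Succ hS1
        (fun t w => ξ t w ω) T v0 ?_ ?_ ?_ hω.1
      · intro i hi u hu hex
        refine (hc2 (i, u) ?_).1 ?_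
        · rw [Finset.mem_product]
          exact ⟨Finset.mem_range.2 (by omega), (hBfmem u).2 hu⟩
        · rw [hF2]
          exact hex
      · intro i hi u hu
        by_contra hex
        refine (hc2 (i, u) ?_).2 ?_
        · rw [Finset.mem_product]
          exact ⟨Finset.mem_range.2 (by omega), (hBfmem u).2 hu⟩
        · rw [hF3]
          exact hex
      · intro t ht1 ht2 u hu hsd
        apply hc1
        rw [hF1]
        simp only [Set.mem_iUnion]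
        refine ⟨(t, u), ?_, hsd⟩
        rw [Finset.mem_product, Finset.mem_Ico]
        exact ⟨⟨ht1, ht2⟩, (hBsmem u).2 hu⟩
  have hm0 : μ F0 ≤ ENNReal.ofReal ε := by
    rw [hF0, hξ.one]
  have hm1 : μ F1 ≤ ENNReal.ofReal (2 * (l * ((2 * R + 1 : ℝ) ^ (Fintype.card ι) *
      ((2 * k + 1 : ℕ) : ℝ) ^ 2 * ε ^ 2))) := by
    rw [hF1]
    refine le_trans (ub μ _ _ ((2 * k + 1 : ℝ) ^ 2 * ε ^ 2)
      (fun p _ => seedProb S k hW.card μ ξ ε hε hξ p.1 p.2)) ?_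
    apply ENNReal.ofReal_le_ofReal
    have h1 : ((Finset.Ico ((T / l - 1) * l) ((T / l + 1) * l)) ×ˢ Bs).card ≤
        2 * l * (2 * R + 1) ^ Fintype.card ι := by
      rw [Finset.card_product, Nat.card_Ico]
      apply Nat.mul_le_mul _ hBsc
      rw [← Nat.sub_mul]
      apply Nat.mul_le_mul_right
      omega
    have h2 : ((((Finset.Ico ((T / l - 1) * l) ((T / l + 1) * l)) ×ˢ Bs).card : ℕ) : ℝ) ≤
        2 * l * (2 * R + 1 : ℝ) ^ Fintype.card ι := by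
      exact_mod_cast h1
    calc _ ≤ (2 * l * (2 * R + 1 : ℝ) ^ Fintype.card ι) * ((2 * k + 1 : ℝ) ^ 2 * ε ^ 2) :=
          mul_le_mul_of_nonneg_right h2 (by positivity)
      _ = _ := by
          push_cast
          ring
  have hm2 : μ (⋃ p ∈ (Finset.range (T + 1)) ×ˢ Bf, (F2 p ∪ F3 p)) ≤
      ENNReal.ofReal ((T + 1) * (2 * (ρ * (T + 1) + R) + 1 : ℝ) ^ (Fintype.card ι) * E) := by
    refine le_trans (ub μ _ _ E ?_) ?_
    · intro p _
      refine le_trans (measure_union_le _ _) ?_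
      rw [hE, ENNReal.ofReal_add (by positivity) (by positivity)]
      apply add_le_add
      · rw [hF2]
        have h1 := hHeavy (Site d) ι S k ψ ρ C col hW hF hC hcolr ε hε (le_trans hεlt.le hε02)
          Ω μ ξ hξ R N q1 (2 * N * l) ((p.1 + 1 - 2 * N) * l) p.2 hCq
        push_cast at h1 ⊢
        exact h1
      · rw [hF3]
        exact hS2 p.2 Ω μ ξ hξ (p.1 * l)
    · apply ENNReal.ofReal_le_ofReal
      apply mul_le_mul_of_nonneg_right _ hE0
      have h1 : ((Finset.range (T + 1)) ×ˢ Bf).card ≤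
          (T + 1) * (2 * (ρ * (T + 1) + R) + 1) ^ Fintype.card ι := by
        rw [Finset.card_product, Finset.card_range]
        exact Nat.mul_le_mul_left _ hBfc
      exact_mod_cast h1
  refine le_trans (measure_mono hincl) ?_
  refine le_trans (measure_union_le _ _) ?_
  refine le_trans (add_le_add hm0 (le_trans (measure_union_le _ _) (add_le_add hm1 hm2))) ?_
  rw [← ENNReal.ofReal_add (by positivity) (by positivity),
    ← ENNReal.ofReal_add (by positivity) (by positivity)]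
  apply ENNReal.ofReal_le_ofReal
  rw [← hE] at hsum
  rw [← add_assoc]
  exact hsum

end Pool.Agent.Lib.MP_fdcb14_pr.H97
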